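import Mathlib

open Set Filter Topology Metric MeasureTheory
open scoped ENNReal OnePoint

namespace Pool.Agent.Helper311.Cusp

/-- The cusp region `W_α = {x + iy : x > 0, |y| < x ^ α}`. -/
def W (α : ℝ) : Set ℂ := {w : ℂ | 0 < w.re ∧ |w.im| < w.re ^ α}

/-- The copy of `W_α` with vertex `z₀` obtained by rotating by the angle `θ` and translating. -/
def copyW (α : ℝ) (z₀ : ℂ) (θ : ℝ) : Set ℂ :=
  (fun w : ℂ => z₀ + Complex.exp (θ * Complex.I) * w) '' W α

/-! ### Logarithmic capacity -/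

/-- The positive part of the logarithmic kernel `log (1 / |z - w|)`, with value `∞` on the
diagonal. -/
noncomputable def logKernel (z w : ℂ) : ℝ≥0∞ :=
  open Classical in if z = w then ⊤ else ENNReal.ofReal (-Real.log (dist z w))

/-- A subset `E` of the Riemann sphere has positive logarithmic capacity: some compact set of
finite points of `E` carries a probability measure of finite logarithmic energy. -/
def HasPositiveCapacity (E : Set (OnePoint ℂ)) : Prop :=
  ∃ K : Set ℂ, IsCompact K ∧ (∀ z ∈ K, (z : OnePoint ℂ) ∈ E) ∧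
    ∃ μ : Measure ℂ, IsProbabilityMeasure μ ∧ μ Kᶜ = 0 ∧
      ∫⁻ z, ∫⁻ w, logKernel z w ∂μ ∂μ < ⊤

/-! ### Superharmonic functions and harmonic measure on the Riemann sphere -/

/-- The mean of `u` over the circle of centre `z` and radius `r`. -/
noncomputable def circMean (u : OnePoint ℂ → ℝ≥0∞) (z : ℂ) (r : ℝ) : ℝ≥0∞ :=
  (∫⁻ t in Ioc (0 : ℝ) (2 * Real.pi), u ((circleMap z r t : ℂ) : OnePoint ℂ)) /
    ENNReal.ofReal (2 * Real.pi)

/-- `[0, ∞]`-valued superharmonic functions on an open subset `D` of the Riemann sphere: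
lower semicontinuous, with the local super-mean value property at each finite point of `D`, and,
if `∞ ∈ D`, the same property at `∞` (circles around `∞` are the large circles around `0`). -/
def PosSuperharmonic (u : OnePoint ℂ → ℝ≥0∞) (D : Set (OnePoint ℂ)) : Prop :=
  LowerSemicontinuousOn u D ∧
  (∀ z : ℂ, (z : OnePoint ℂ) ∈ D → ∃ R > 0, ∀ r, 0 < r → r < R → circMean u z r ≤ u z) ∧
  ((∞ : OnePoint ℂ) ∈ D → ∃ R > 0, ∀ r, R < r → circMean u 0 r ≤ u (∞ : OnePoint ℂ))

/-- The harmonic measure at `z` of a set `A` of boundary points of `D`: the upper Perron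
solution for the indicator function of `A`. -/
noncomputable def harmonicMeasure (D A : Set (OnePoint ℂ)) (z : OnePoint ℂ) : ℝ≥0∞ :=
  ⨅ (u : OnePoint ℂ → ℝ≥0∞) (_ : PosSuperharmonic u D)
    (_ : ∀ ζ ∈ A, 1 ≤ liminf u (𝓝[D] ζ)), u z

/-- The set of finite points of `D`. -/
def fin (D : Set (OnePoint ℂ)) : Set ℂ := {z : ℂ | (z : OnePoint ℂ) ∈ D}

/-- The points of `B_α(D)` for which the radius `ε` works. -/
def Kset (α : ℝ) (D : Set (OnePoint ℂ)) (ε : ℝ) : Set ℂ :=
  {z : ℂ | (z : OnePoint ℂ) ∈ frontier D ∧ ∀ x ∈ fin D ∩ ball z ε,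
    z ∈ frontier (connectedComponentIn (fin D ∩ ball z ε) x) →
      ∃ θ : ℝ, connectedComponentIn (fin D ∩ ball z ε) x ⊆ copyW α z θ}

/-- `B_α(D)`: the finite boundary points `z₀` of `D` such that for some `ε > 0` every connected
component of `D ∩ {|z - z₀| < ε}` with `z₀` on its boundary lies in a copy of `W_α` with
vertex `z₀`. -/
def cuspPoints (α : ℝ) (D : Set (OnePoint ℂ)) : Set (OnePoint ℂ) :=
  {p | ∃ ε > 0, ∃ z : ℂ, p = (z : OnePoint ℂ) ∧ z ∈ Kset α D ε}

end Pool.Agent.Helper311.Cusp
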