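import Mathlib
import Pool.Agent.Helper311.CuspDefs

open Set Filter Topology Metric MeasureTheory
open scoped ENNReal OnePoint

namespace Pool.Agent.Helper311.Cusp

lemma mem_copyW {α : ℝ} {z₀ : ℂ} {θ : ℝ} {x : ℂ} :
    x ∈ copyW α z₀ θ ↔ (x - z₀) * Complex.exp (-(θ * Complex.I)) ∈ W α := by
  unfold copyW
  constructor
  · rintro ⟨w, hw, rfl⟩
    have : (z₀ + Complex.exp (θ * Complex.I) * w - z₀) * Complex.exp (-(θ * Complex.I)) = w := by
      rw [add_sub_cancel_left, mul_comm (Complex.exp _) w, mul_assoc, ← Complex.exp_add]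
      simp
    rw [this]; exact hw
  · intro h
    refine ⟨_, h, ?_⟩
    have : Complex.exp (θ * Complex.I) * ((x - z₀) * Complex.exp (-(θ * Complex.I))) = x - z₀ := by
      rw [mul_comm (x - z₀), ← mul_assoc, ← Complex.exp_add]
      simp
    simp only [this]; ring

/-- closed version of `W α`. -/
lemma closure_copyW {α : ℝ} (hα : 0 < α) {z₀ : ℂ} {θ : ℝ} {x : ℂ} (hx : x ∈ closure (copyW α z₀ θ)) :
    0 ≤ ((x - z₀) * Complex.exp (-(θ * Complex.I))).re ∧
    |((x - z₀) * Complex.exp (-(θ * Complex.I))).im| ≤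
      ((x - z₀) * Complex.exp (-(θ * Complex.I))).re ^ α := by
  have hcl : IsClosed {x : ℂ | 0 ≤ ((x - z₀) * Complex.exp (-(θ * Complex.I))).re ∧
    |((x - z₀) * Complex.exp (-(θ * Complex.I))).im| ≤
      ((x - z₀) * Complex.exp (-(θ * Complex.I))).re ^ α} := by
    have h1 : IsClosed {x : ℂ | 0 ≤ ((x - z₀) * Complex.exp (-(θ * Complex.I))).re} :=
      isClosed_le continuous_const (by fun_prop)
    have h2 : IsClosed {x : ℂ | |((x - z₀) * Complex.exp (-(θ * Complex.I))).im| ≤
      ((x - z₀) * Complex.exp (-(θ * Complex.I))).re ^ α} := by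
      apply isClosed_le
      · fun_prop
      · apply Continuous.rpow_const
        · fun_prop
        · intro _; right; exact hα.le
    exact h1.inter h2
  have hsub : copyW α z₀ θ ⊆ {x : ℂ | 0 ≤ ((x - z₀) * Complex.exp (-(θ * Complex.I))).re ∧
    |((x - z₀) * Complex.exp (-(θ * Complex.I))).im| ≤
      ((x - z₀) * Complex.exp (-(θ * Complex.I))).re ^ α} := by
    intro y hy
    rw [mem_copyW] at hy
    exact ⟨hy.1.le, hy.2.le⟩
  exact closure_minimal hsub hcl hx

lemma re_ge_of_mem {α : ℝ} (hα : 0 < α) (hα1 : α < 1) {ζ : ℂ} (h0 : 0 ≤ ζ.re)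
    (h1 : |ζ.im| ≤ ζ.re ^ α) (hn : ‖ζ‖ ≤ 1) : (‖ζ‖ / 2) ^ (1 / α) ≤ ζ.re := by
  have hre1 : ζ.re ≤ 1 := le_trans (Complex.re_le_norm ζ) hn
  have h2 : ζ.re ≤ ζ.re ^ α := by
    rcases eq_or_lt_of_le h0 with h | h
    · rw [← h, Real.zero_rpow hα.ne']
    · calc ζ.re = ζ.re ^ (1:ℝ) := (Real.rpow_one _).symm
        _ ≤ ζ.re ^ α := Real.rpow_le_rpow_of_exponent_ge h hre1 hα1.le
  have h3 : ‖ζ‖ ≤ 2 * ζ.re ^ α := by
    have := Complex.norm_le_abs_re_add_abs_im ζ
    rw [abs_of_nonneg h0] at this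
    linarith
  have h4 : ‖ζ‖ / 2 ≤ ζ.re ^ α := by linarith
  calc (‖ζ‖ / 2) ^ (1 / α) ≤ (ζ.re ^ α) ^ (1 / α) := by
        apply Real.rpow_le_rpow (by positivity) h4 (by positivity)
    _ = ζ.re := by
        rw [← Real.rpow_mul h0, mul_one_div_cancel hα.ne', Real.rpow_one]

/-- Two vertices of copies of `W_α` that both contain `U`, both in the closure of `U`, are at
distance at most `2 |θ - θ'| ^ (α / (1 - α))`. -/
lemma dist_le_of_copies {α : ℝ} (hα : 0 < α) (hα1 : α < 1) {U : Set ℂ} {z z' : ℂ} {θ θ' : ℝ}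
    (hz : z ∈ closure U) (hz' : z' ∈ closure U) (hU : U ⊆ copyW α z θ) (hU' : U ⊆ copyW α z' θ')
    (hd : dist z z' ≤ 1) : dist z z' ≤ 2 * |θ - θ'| ^ (α / (1 - α)) := by
  have e1 := closure_copyW hα (closure_mono hU hz')
  have e2 := closure_copyW hα (closure_mono hU' hz)
  have n1 : ‖(z' - z) * Complex.exp (-(θ * Complex.I))‖ = dist z z' := by
    rw [norm_mul, Complex.norm_exp]
    simp [dist_comm z z', dist_eq_norm]
  have n2 : ‖(z - z') * Complex.exp (-(θ' * Complex.I))‖ = dist z z' := by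
    rw [norm_mul, Complex.norm_exp]
    simp [dist_eq_norm]
  have f1 := re_ge_of_mem hα hα1 e1.1 e1.2 (by rw [n1]; exact hd)
  have f2 := re_ge_of_mem hα hα1 e2.1 e2.2 (by rw [n2]; exact hd)
  rw [n1] at f1
  rw [n2] at f2
  set d := dist z z' with hdd
  have hd0 : 0 ≤ d := dist_nonneg
  have key : 2 * (d / 2) ^ (1 / α) ≤ d * |θ - θ'| := by
    have h5 : ((z' - z) * Complex.exp (-(θ * Complex.I))).re +
        ((z - z') * Complex.exp (-(θ' * Complex.I))).re
        = ((z' - z) * (Complex.exp (-(θ * Complex.I)) - Complex.exp (-(θ' * Complex.I)))).re := by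
      rw [← Complex.add_re]; congr 1; ring
    have h6 : ((z' - z) * (Complex.exp (-(θ * Complex.I)) - Complex.exp (-(θ' * Complex.I)))).re
        ≤ d * |θ - θ'| := by
      refine le_trans (Complex.re_le_norm _) ?_
      rw [norm_mul]
      have h7 : ‖z' - z‖ = d := by rw [hdd, dist_comm, dist_eq_norm]
      rw [h7]
      apply mul_le_mul_of_nonneg_left _ hd0
      have h8 : Complex.exp (-(θ * Complex.I)) - Complex.exp (-(θ' * Complex.I))
          = Complex.exp (-(θ' * Complex.I)) * (Complex.exp (Complex.I * ((θ' - θ : ℝ) : ℂ)) - 1) := by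
        rw [mul_sub, ← Complex.exp_add, mul_one]
        congr 2
        push_cast; ring
      rw [h8, norm_mul]
      have h9 : ‖Complex.exp (-(θ' * Complex.I))‖ = 1 := by
        rw [Complex.norm_exp]; simp
      rw [h9, one_mul]
      have := Real.norm_exp_I_mul_ofReal_sub_one_le (x := θ' - θ)
      rw [Real.norm_eq_abs, abs_sub_comm] at this
      exact this
    linarith
  rcases eq_or_lt_of_le hd0 with h | h
  · rw [← h]; positivity
  · have h10 : (d / 2) ^ (1 / α - 1) ≤ |θ - θ'| := by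
      rw [Real.rpow_sub_one (by positivity)]
      rw [div_le_iff₀ (by positivity)]
      linarith
    have h1α : 0 < 1 - α := by linarith
    have h11 : ((d / 2) ^ (1 / α - 1)) ^ (α / (1 - α)) ≤ |θ - θ'| ^ (α / (1 - α)) := by
      apply Real.rpow_le_rpow (by positivity) h10 (by positivity)
    rw [← Real.rpow_mul (by positivity)] at h11
    have h12 : (1 / α - 1) * (α / (1 - α)) = 1 := by
      field_simp
    rw [h12, Real.rpow_one] at h11
    linarith

/-! ### The half-plane barrier -/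

lemma bar_nonneg {ζ : ℂ} {r : ℝ} (hr : 0 < r) (h : 0 < ζ.re) :
    0 ≤ ((8 * r : ℝ) / (ζ + (2 * r : ℝ)) : ℂ).re := by
  rw [Complex.div_re]
  simp only [Complex.ofReal_re, Complex.ofReal_im, Complex.add_re, Complex.add_im, zero_mul,
    zero_div, add_zero]
  have : 0 ≤ Complex.normSq (ζ + ((2 * r : ℝ) : ℂ)) := Complex.normSq_nonneg _
  positivity

lemma bar_ge_one {ζ : ℂ} {r : ℝ} (hr : 0 < r) (h : 0 < ζ.re) (hn : ‖ζ‖ ≤ 2 * r) :
    1 ≤ ((8 * r : ℝ) / (ζ + (2 * r : ℝ)) : ℂ).re := by
  rw [Complex.div_re]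
  simp only [Complex.ofReal_re, Complex.ofReal_im, Complex.add_re, zero_mul,
    zero_div, add_zero]
  have h1 : Complex.normSq (ζ + ((2 * r : ℝ) : ℂ)) ≤ (4 * r) ^ 2 := by
    rw [Complex.normSq_eq_norm_sq]
    have h2 : ‖ζ + ((2 * r : ℝ) : ℂ)‖ ≤ 4 * r := by
      refine le_trans (norm_add_le _ _) ?_
      rw [Complex.norm_real, Real.norm_of_nonneg (by positivity)]
      linarith
    exact pow_le_pow_left₀ (norm_nonneg _) h2 2
  have h3 : 0 < Complex.normSq (ζ + ((2 * r : ℝ) : ℂ)) := by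
    rw [Complex.normSq_pos]
    intro h4
    have := congrArg Complex.re h4
    simp at this
    linarith
  rw [le_div_iff₀ h3]
  nlinarith

lemma bar_le {ζ : ℂ} {r η : ℝ} (hr : 0 < r) (hη : 0 < η) (h : 0 < ζ.re) (hn : η ≤ ‖ζ‖) :
    ((8 * r : ℝ) / (ζ + (2 * r : ℝ)) : ℂ).re ≤ 8 * r / η := by
  refine le_trans (Complex.re_le_norm _) ?_
  rw [norm_div, Complex.norm_real, Real.norm_of_nonneg (by positivity)]
  apply div_le_div_of_nonneg_left (by positivity) hη
  refine le_trans hn ?_
  rw [← sq_le_sq₀ (norm_nonneg _) (norm_nonneg _), ← Complex.normSq_eq_norm_sq,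
    ← Complex.normSq_eq_norm_sq, Complex.normSq_apply, Complex.normSq_apply]
  simp only [Complex.add_re, Complex.ofReal_re, Complex.add_im, Complex.ofReal_im, add_zero]
  nlinarith

lemma exists_N {γ : ℝ} (hγ : 1 < γ) {η δ : ℝ} (hη : 0 < η) (hδ : 0 < δ) :
    ∃ N : ℕ, 0 < N ∧ ((N : ℝ) + 1) * (8 * (2 * (2 * Real.pi / N) ^ γ) / η) ≤ δ := by
  have h1 : Tendsto (fun N : ℕ => ((N : ℝ) + 1) * (8 * (2 * (2 * Real.pi / N) ^ γ) / η))
      atTop (𝓝 0) := by
    have h2 : Tendsto (fun N : ℕ => (32 * (2 * Real.pi) ^ γ / η) * (N : ℝ) ^ (-(γ - 1)))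
        atTop (𝓝 ((32 * (2 * Real.pi) ^ γ / η) * 0)) := by
      apply Tendsto.const_mul
      exact (tendsto_rpow_neg_atTop (by linarith)).comp tendsto_natCast_atTop_atTop
    rw [mul_zero] at h2
    refine squeeze_zero' ?_ ?_ h2
    · exact Eventually.of_forall (fun N => by positivity)
    · filter_upwards [eventually_ge_atTop 1] with N hN
      have hN' : (1:ℝ) ≤ N := by exact_mod_cast hN
      have h3 : (2 * Real.pi / (N:ℝ)) ^ γ = (2 * Real.pi) ^ γ * ((N:ℝ) ^ (-(γ - 1)) * (N:ℝ)⁻¹) := by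
        rw [Real.div_rpow (by positivity) (by positivity), div_eq_mul_inv,
          ← Real.rpow_neg (by positivity)]
        congr 1
        rw [← Real.rpow_neg_one (N:ℝ), ← Real.rpow_add (by positivity)]
        congr 1; ring
      rw [h3]
      have h4 : (0:ℝ) < (N:ℝ) ^ (-(γ - 1)) := by positivity
      have h5 : (0:ℝ) < (2 * Real.pi) ^ γ := by positivity
      have h6 : ((N : ℝ) + 1) * (8 * (2 * ((2 * Real.pi) ^ γ * ((N:ℝ) ^ (-(γ - 1)) * (N:ℝ)⁻¹))) / η)
        = (((N:ℝ) + 1) / N) * ((16 * (2 * Real.pi) ^ γ / η) * (N:ℝ) ^ (-(γ - 1))) := by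
        field_simp; ring
      rw [h6]
      have h7 : ((N:ℝ) + 1) / N ≤ 2 := by
        rw [div_le_iff₀ (by positivity)]; linarith
      have h8 : 0 ≤ (16 * (2 * Real.pi) ^ γ / η) * (N:ℝ) ^ (-(γ - 1)) := by positivity
      calc (((N:ℝ) + 1) / N) * ((16 * (2 * Real.pi) ^ γ / η) * (N:ℝ) ^ (-(γ - 1)))
          ≤ 2 * ((16 * (2 * Real.pi) ^ γ / η) * (N:ℝ) ^ (-(γ - 1))) :=
            mul_le_mul_of_nonneg_right h7 h8
        _ = 32 * (2 * Real.pi) ^ γ / η * (N:ℝ) ^ (-(γ - 1)) := by ring
  have h2 := (h1.eventually (ge_mem_nhds hδ)).and (eventually_gt_atTop 0)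
  obtain ⟨N, hN1, hN2⟩ := h2.exists
  exact ⟨N, hN2, hN1⟩

lemma barrier {α : ℝ} (hα : 1 / 2 < α) (hα1 : α < 1) {U K' : Set ℂ}
    (hK : ∀ z ∈ K', z ∈ closure U ∧ ∃ θ : ℝ, U ⊆ copyW α z θ)
    (hdiam : ∀ z ∈ K', ∀ z' ∈ K', dist z z' ≤ 1) {η δ : ℝ} (hη : 0 < η) (hδ : 0 < δ) :
    ∃ G : ℂ → ℂ, DifferentiableOn ℂ G U ∧ (∀ x ∈ U, 0 ≤ (G x).re) ∧
      (∀ z ∈ K', ∃ r > 0, ∀ x ∈ U, dist x z < r → 1 ≤ (G x).re) ∧
      (∀ x ∈ U, (∀ z ∈ K', η ≤ dist x z) → (G x).re ≤ δ) := by
  classical
  have hα0 : 0 < α := by linarith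
  have hγ : 1 < α / (1 - α) := by
    rw [lt_div_iff₀ (by linarith)]; linarith
  have hT : ∀ z : ℂ, ∃ t : ℝ, z ∈ K' → (t ∈ Ioc (-Real.pi) Real.pi ∧ U ⊆ copyW α z t) := by
    intro z
    by_cases hz : z ∈ K'
    · obtain ⟨-, θ, hθ⟩ := hK z hz
      refine ⟨(Complex.exp (θ * Complex.I)).arg, fun _ => ⟨Complex.arg_mem_Ioc _, ?_⟩⟩
      have h1 : Complex.exp ((Complex.exp (θ * Complex.I)).arg * Complex.I)
          = Complex.exp (θ * Complex.I) := by
        have := Complex.norm_mul_exp_arg_mul_I (Complex.exp (θ * Complex.I))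
        rwa [Complex.norm_exp_ofReal_mul_I, Complex.ofReal_one, one_mul] at this
      unfold copyW at hθ ⊢
      rw [h1]; exact hθ
    · exact ⟨0, fun h => absurd h hz⟩
  choose T hT using hT
  obtain ⟨N, hN, hNδ⟩ := exists_N hγ hη hδ
  set γ := α / (1 - α) with hγdef
  set r : ℝ := 2 * (2 * Real.pi / N) ^ γ with hr
  have hNpos : (0:ℝ) < N := by exact_mod_cast hN
  have hrpos : 0 < r := by positivity
  let idx : ℂ → ℕ := fun z => ⌊(T z + Real.pi) * N / (2 * Real.pi)⌋₊
  have hidx : ∀ z ∈ K', idx z ∈ Finset.range (N + 1) := by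
    intro z hz
    have h1 := (hT z hz).1
    rw [Finset.mem_range, Nat.lt_add_one_iff]
    apply Nat.floor_le_of_le
    rw [div_le_iff₀ (by positivity)]
    have : T z + Real.pi ≤ 2 * Real.pi := by linarith [h1.2]
    nlinarith
  have hclose : ∀ z ∈ K', ∀ z' ∈ K', idx z = idx z' → dist z z' ≤ r := by
    intro z hz z' hz' h
    have h1 := (hT z hz).1
    have h2 := (hT z' hz').1
    have h3 := dist_le_of_copies hα0 hα1 (hK z hz).1 (hK z' hz').1 (hT z hz).2 (hT z' hz').2
      (hdiam z hz z' hz')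
    refine le_trans h3 ?_
    rw [hr]
    apply mul_le_mul_of_nonneg_left _ (by norm_num)
    apply Real.rpow_le_rpow (abs_nonneg _) _ (by positivity)
    have h4 : |(T z + Real.pi) * N / (2 * Real.pi) - (T z' + Real.pi) * N / (2 * Real.pi)| < 1 := by
      have a1 : 0 ≤ (T z + Real.pi) * N / (2 * Real.pi) := by
        have : 0 ≤ T z + Real.pi := by linarith [h1.1]
        positivity
      have a2 : 0 ≤ (T z' + Real.pi) * N / (2 * Real.pi) := by
        have : 0 ≤ T z' + Real.pi := by linarith [h2.1]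
        positivity
      have b1 := Nat.floor_le a1
      have b2 := Nat.floor_le a2
      have c1 := Nat.lt_floor_add_one ((T z + Real.pi) * N / (2 * Real.pi))
      have c2 := Nat.lt_floor_add_one ((T z' + Real.pi) * N / (2 * Real.pi))
      have h' : (⌊(T z + Real.pi) * N / (2 * Real.pi)⌋₊ : ℝ)
        = ⌊(T z' + Real.pi) * N / (2 * Real.pi)⌋₊ := by exact_mod_cast h
      rw [abs_sub_lt_iff]
      constructor <;> linarith
    have h5 : (T z + Real.pi) * N / (2 * Real.pi) - (T z' + Real.pi) * N / (2 * Real.pi)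
      = (T z - T z') * (N / (2 * Real.pi)) := by field_simp; ring
    rw [h5, abs_mul, abs_of_pos (by positivity : 0 < (N:ℝ) / (2 * Real.pi))] at h4
    rw [le_div_iff₀ hNpos]
    rw [← lt_div_iff₀ (by positivity), one_div_div, lt_div_iff₀ hNpos] at h4
    exact h4.le
  let S : Finset ℕ := (Finset.range (N + 1)).filter (fun i => ∃ z ∈ K', idx z = i)
  have hrep : ∀ i : ℕ, ∃ z : ℂ, i ∈ S → (z ∈ K' ∧ idx z = i) := by
    intro i
    by_cases hi : i ∈ S
    · obtain ⟨z, hz, hzi⟩ := (Finset.mem_filter.mp hi).2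
      exact ⟨z, fun _ => ⟨hz, hzi⟩⟩
    · exact ⟨0, fun h => absurd h hi⟩
  choose rep hrep using hrep
  let ζ : ℕ → ℂ → ℂ := fun i x => (x - rep i) * Complex.exp (-(T (rep i) * Complex.I))
  have hζre : ∀ i ∈ S, ∀ x ∈ U, 0 < (ζ i x).re := by
    intro i hi x hx
    have := (hT _ (hrep i hi).1).2 hx
    rw [mem_copyW] at this
    exact this.1
  have hζn : ∀ i x, ‖ζ i x‖ = dist x (rep i) := by
    intro i x
    simp only [ζ]
    rw [norm_mul, Complex.norm_exp]
    simp [dist_eq_norm]
  refine ⟨fun x => ∑ i ∈ S, ((8 * r : ℝ) / (ζ i x + (2 * r : ℝ)) : ℂ), ?_, ?_, ?_, ?_⟩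
  · apply DifferentiableOn.fun_sum
    intro i hi
    apply DifferentiableOn.div (differentiableOn_const _)
    · apply DifferentiableOn.add_const
      apply DifferentiableOn.mul_const
      apply DifferentiableOn.sub_const differentiableOn_id
    · intro x hx h0
      have h1 := congrArg Complex.re h0
      have h2 := hζre i hi x hx
      simp only [Complex.add_re, Complex.ofReal_re, Complex.zero_re] at h1
      linarith
  · intro x hx
    rw [Complex.re_sum]
    exact Finset.sum_nonneg (fun i hi => bar_nonneg hrpos (hζre i hi x hx))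
  · intro z hz
    refine ⟨r, hrpos, ?_⟩
    intro x hx hxz
    rw [Complex.re_sum]
    have hzS : idx z ∈ S := by
      rw [Finset.mem_filter]
      exact ⟨hidx z hz, z, hz, rfl⟩
    have h1 : ‖ζ (idx z) x‖ ≤ 2 * r := by
      rw [hζn]
      have h2 := hclose z hz _ (hrep _ hzS).1 (hrep _ hzS).2.symm
      have h3 := dist_triangle x z (rep (idx z))
      linarith
    refine le_trans (bar_ge_one hrpos (hζre _ hzS x hx) h1) ?_
    exact Finset.single_le_sum (f := fun i => ((8 * r : ℝ) / (ζ i x + (2 * r : ℝ)) : ℂ).re)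
      (fun i hi => bar_nonneg hrpos (hζre i hi x hx)) hzS
  · intro x hx hxη
    rw [Complex.re_sum]
    calc ∑ i ∈ S, ((8 * r : ℝ) / (ζ i x + (2 * r : ℝ)) : ℂ).re
        ≤ ∑ i ∈ S, 8 * r / η := by
          apply Finset.sum_le_sum
          intro i hi
          apply bar_le hrpos hη (hζre i hi x hx)
          rw [hζn]
          exact hxη _ (hrep i hi).1
      _ = (S.card : ℝ) * (8 * r / η) := by rw [Finset.sum_const, nsmul_eq_mul]
      _ ≤ ((N : ℝ) + 1) * (8 * r / η) := by
          apply mul_le_mul_of_nonneg_right _ (by positivity)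
          have : S.card ≤ N + 1 := by
            calc S.card ≤ (Finset.range (N + 1)).card := Finset.card_filter_le _ _
              _ = N + 1 := Finset.card_range _
          exact_mod_cast this
      _ ≤ δ := hNδ

/-! ### Logarithmic potentials of measures with compact support -/

lemma exists_log_bound {Q F : Set ℂ} (hQ : IsCompact Q) (hF : IsCompact F) (hd : Disjoint Q F) :
    ∃ C : ℝ, ∀ x ∈ Q, ∀ t ∈ F, |Real.log ‖x - t‖| ≤ C := by
  have hcont : ContinuousOn (fun p : ℂ × ℂ => Real.log ‖p.1 - p.2‖) (Q ×ˢ F) := by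
    apply ContinuousOn.log
    · fun_prop
    · rintro ⟨x, t⟩ ⟨hx, ht⟩
      simp only [ne_eq, norm_eq_zero, sub_eq_zero]
      intro h
      exact Set.disjoint_left.mp hd hx (h ▸ ht)
  obtain ⟨C, hC⟩ := (hQ.prod hF).exists_bound_of_continuousOn hcont
  exact ⟨C, fun x hx t ht => hC (x, t) ⟨hx, ht⟩⟩

lemma ae_mem_of_compl {F : Set ℂ} {μ : Measure ℂ} (h : μ Fᶜ = 0) : ∀ᵐ t ∂μ, t ∈ F := by
  rw [ae_iff]; exact h

/-- the logarithmic potential `∫ log |x - t| dμ(t)` -/
noncomputable def pot (μ : Measure ℂ) (x : ℂ) : ℝ := ∫ t, Real.log ‖x - t‖ ∂μ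

lemma measurable_log_norm_sub (x : ℂ) : Measurable (fun t : ℂ => Real.log ‖x - t‖) := by
  fun_prop

lemma integrable_log {F : Set ℂ} {μ : Measure ℂ} [IsFiniteMeasure μ] (hF : IsCompact F)
    (hμ : μ Fᶜ = 0) {x : ℂ} (hx : x ∉ F) : Integrable (fun t : ℂ => Real.log ‖x - t‖) μ := by
  obtain ⟨C, hC⟩ := exists_log_bound (isCompact_singleton (x := x)) hF
    (Set.disjoint_singleton_left.mpr hx)
  apply Integrable.of_bound (measurable_log_norm_sub x).aestronglyMeasurable C
  filter_upwards [ae_mem_of_compl hμ] with t ht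
  exact hC x rfl t ht

lemma continuousAt_pot {F : Set ℂ} {μ : Measure ℂ} [IsFiniteMeasure μ] (hF : IsCompact F)
    (hμ : μ Fᶜ = 0) {x : ℂ} (hx : x ∉ F) : ContinuousAt (pot μ) x := by
  obtain ⟨ε, hε, hεF⟩ := Metric.isOpen_iff.mp hF.isClosed.isOpen_compl x hx
  obtain ⟨C, hC⟩ := exists_log_bound (isCompact_closedBall x (ε / 2)) hF (by
    rw [Set.disjoint_left]
    intro y hy hyF
    exact hεF (closedBall_subset_ball (by linarith) hy) hyF)
  apply continuousAt_of_dominated (bound := fun _ => C)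
  · exact Eventually.of_forall (fun y => (measurable_log_norm_sub y).aestronglyMeasurable)
  · filter_upwards [closedBall_mem_nhds x (half_pos hε)] with y hy
    filter_upwards [ae_mem_of_compl hμ] with t ht
    exact hC y hy t ht
  · exact integrable_const C
  · filter_upwards [ae_mem_of_compl hμ] with t ht
    apply ContinuousAt.log
    · fun_prop
    · simp only [ne_eq, norm_eq_zero, sub_eq_zero]
      intro h; exact hx (h ▸ ht)

lemma circleAverage_pot {F : Set ℂ} {μ : Measure ℂ} [IsFiniteMeasure μ] (hF : IsCompact F)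
    (hμ : μ Fᶜ = 0) {x : ℂ} {r : ℝ} (hd : Disjoint (sphere x |r|) F) :
    Real.circleAverage (pot μ) x r
      = ∫ t, Real.circleAverage (fun y => Real.log ‖y - t‖) x r ∂μ := by
  obtain ⟨C, hC⟩ := exists_log_bound (isCompact_sphere x |r|) hF hd
  simp only [Real.circleAverage_def, pot]
  have : IsFiniteMeasure ((volume : Measure ℝ).restrict (Set.uIoc 0 (2 * Real.pi))) := by
    constructor
    rw [Measure.restrict_apply_univ, Set.uIoc_of_le (by positivity), Real.volume_Ioc]
    exact ENNReal.ofReal_lt_top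
  rw [MeasureTheory.intervalIntegral_integral_swap]
  · rw [← integral_smul]
  · apply Integrable.of_bound (C := C)
    · apply Measurable.aestronglyMeasurable
      have h1 : Measurable (fun p : ℝ × ℂ => circleMap x r p.1 - p.2) := by
        apply Measurable.sub
        · exact (continuous_circleMap x r).measurable.comp measurable_fst
        · exact measurable_snd
      exact (Real.measurable_log.comp h1.norm)
    · have h1 : ∀ᵐ p ∂((volume.restrict (Set.uIoc 0 (2 * Real.pi))).prod μ), p.2 ∈ F := by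
        have := (Measure.quasiMeasurePreserving_snd
          (μ := volume.restrict (Set.uIoc 0 (2 * Real.pi))) (ν := μ)).ae (ae_mem_of_compl hμ)
        exact this
      filter_upwards [h1] with p hp
      exact hC _ (circleMap_mem_sphere' x r p.1) _ hp

lemma circleIntegrable_pot {F : Set ℂ} {μ : Measure ℂ} [IsFiniteMeasure μ] (hF : IsCompact F)
    (hμ : μ Fᶜ = 0) {x : ℂ} {r : ℝ} (hd : Disjoint (sphere x |r|) F) :
    CircleIntegrable (pot μ) x r := by
  apply ContinuousOn.circleIntegrable'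
  intro y hy
  exact (continuousAt_pot hF hμ (Set.disjoint_left.mp hd hy)).continuousWithinAt

lemma circleAverage_log_outside {x t : ℂ} {r : ℝ} (hr : 0 < r) (h : r < ‖x - t‖) :
    Real.circleAverage (fun y => Real.log ‖y - t‖) x r = Real.log ‖x - t‖ := by
  rw [circleAverage_log_norm_sub_const_eq_log_radius_add_posLog hr.ne']
  rw [Real.posLog_eq_log]
  · rw [Real.log_mul (by positivity) (by linarith), Real.log_inv]; ring
  · rw [abs_of_nonneg (by positivity), ← div_eq_inv_mul, le_div_iff₀ hr]; linarith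

lemma circleAverage_pot_eq {F : Set ℂ} {μ : Measure ℂ} [IsFiniteMeasure μ] (hF : IsCompact F)
    (hμ : μ Fᶜ = 0) {x : ℂ} {r : ℝ} (hr : 0 < r) (hd : Disjoint (closedBall x r) F) :
    Real.circleAverage (pot μ) x r = pot μ x := by
  rw [circleAverage_pot hF hμ (by
    rw [abs_of_pos hr]; exact hd.mono_left sphere_subset_closedBall)]
  unfold pot
  apply integral_congr_ae
  filter_upwards [ae_mem_of_compl hμ] with t ht
  apply circleAverage_log_outside hr
  by_contra hcon
  push Not at hcon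
  apply Set.disjoint_right.mp hd ht
  rw [mem_closedBall, dist_comm, dist_eq_norm]; exact hcon

lemma circleAverage_pot_infty {F : Set ℂ} {μ : Measure ℂ} [IsFiniteMeasure μ] (hF : IsCompact F)
    (hμ : μ Fᶜ = 0) {r : ℝ} (hr : 0 < r) (hd : F ⊆ ball 0 r) :
    Real.circleAverage (pot μ) 0 r = (μ univ).toReal * Real.log r := by
  rw [circleAverage_pot hF hμ (by
    rw [Set.disjoint_left]
    intro y hy hyF
    rw [abs_of_pos hr] at hy
    have h1 := hd hyF
    rw [mem_sphere] at hy; rw [mem_ball] at h1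
    linarith)]
  have : ∫ t, Real.circleAverage (fun y => Real.log ‖y - t‖) 0 r ∂μ = ∫ t, Real.log r ∂μ := by
    apply integral_congr_ae
    filter_upwards [ae_mem_of_compl hμ] with t ht
    apply circleAverage_log_norm_sub_const_of_mem_closedBall
    rw [abs_of_pos hr]
    exact ball_subset_closedBall (hd ht)
  rw [this, integral_const, smul_eq_mul, Measure.real]

/-! ### Positive capacity -/

lemma measurable_logKernel : Measurable (fun p : ℂ × ℂ => logKernel p.1 p.2) := by
  classical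
  unfold logKernel
  apply Measurable.ite
  · exact measurableSet_eq_fun measurable_fst measurable_snd
  · exact measurable_const
  · fun_prop

lemma exists_two_compacts {E : Set (OnePoint ℂ)} (hE : HasPositiveCapacity E) :
    ∃ μ : Measure ℂ, IsFiniteMeasure μ ∧ ∃ M : ℝ, ∃ F₁ F₂ : Set ℂ, IsCompact F₁ ∧ IsCompact F₂ ∧
      Disjoint F₁ F₂ ∧ 0 < μ F₁ ∧ 0 < μ F₂ ∧ (∀ z ∈ F₁ ∪ F₂, (z : OnePoint ℂ) ∈ E) ∧
      ∀ z ∈ F₁ ∪ F₂, ∫⁻ w, logKernel z w ∂μ ≤ ENNReal.ofReal M := by
  obtain ⟨K, hK, hKE, μ, hμ, hμK, hen⟩ := hE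
  have hmeas : Measurable (fun z : ℂ => ∫⁻ w, logKernel z w ∂μ) :=
    measurable_logKernel.lintegral_prod_right'
  have hae : ∀ᵐ z ∂μ, ∫⁻ w, logKernel z w ∂μ < ⊤ := ae_lt_top hmeas hen.ne
  let T : ℕ → Set ℂ := fun n => K ∩ {z | ∫⁻ w, logKernel z w ∂μ ≤ n}
  have hTm : ∀ n, MeasurableSet (T n) := fun n =>
    hK.isClosed.measurableSet.inter (measurableSet_le hmeas measurable_const)
  have hex : ∃ n, μ (T n) ≠ 0 := by
    by_contra hcon
    push Not at hcon
    have h1 : μ (⋃ n, T n) = 0 := measure_iUnion_null hcon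
    have h2 : ∀ᵐ z ∂μ, z ∈ ⋃ n, T n := by
      filter_upwards [hae, ae_mem_of_compl hμK] with z hz hzK
      obtain ⟨n, hn⟩ := ENNReal.exists_nat_gt hz.ne
      exact mem_iUnion.mpr ⟨n, hzK, hn.le⟩
    have h3 : μ (⋃ n, T n)ᶜ = 0 := h2
    have h4 : μ univ = 0 := by
      rw [← union_compl_self (⋃ n, T n)]
      exact measure_union_null h1 h3
    rw [measure_univ] at h4
    exact one_ne_zero h4
  obtain ⟨n, hn⟩ := hex
  -- no atoms on `T n`
  have hatom : ∀ z ∈ T n, μ {z} = 0 := by
    intro z hz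
    by_contra h0
    have h1 : ∫⁻ w, logKernel z w ∂μ ≤ n := hz.2
    have h2 : (⊤ : ℝ≥0∞) * μ {z} ≤ ∫⁻ w, logKernel z w ∂μ := by
      calc (⊤ : ℝ≥0∞) * μ {z} = ∫⁻ w in {z}, logKernel z w ∂μ := by
            rw [← setLIntegral_const]
            apply setLIntegral_congr_fun (measurableSet_singleton z)
            intro w hw
            rw [mem_singleton_iff] at hw
            simp [logKernel, hw]
        _ ≤ _ := setLIntegral_le_lintegral _ _
    rw [ENNReal.top_mul h0] at h2
    exact absurd (lt_of_le_of_lt (h2.trans h1) (ENNReal.natCast_lt_top n)) (lt_irrefl _)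
  set ν := μ.restrict (T n) with hν
  have hfreq : ∀ b : ℂ, ∃ᵐ x ∂ν, id x ≠ b := by
    intro b hb
    simp only [id, not_not] at hb
    have h1 : ν {b}ᶜ = 0 := by
      have : {x : ℂ | ¬ x = b} = {b}ᶜ := rfl
      rw [← this]; exact hb
    have h2 : ν {b} = 0 := by
      rw [hν, Measure.restrict_apply (measurableSet_singleton b)]
      by_cases hbT : b ∈ T n
      · exact measure_mono_null inter_subset_left (hatom b hbT)
      · have : {b} ∩ T n = ∅ := by
          ext x; simp only [mem_inter_iff, mem_singleton_iff, mem_empty_iff_false, iff_false,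
            not_and]
          rintro rfl; exact hbT
        rw [this, measure_empty]
    have h3 : ν univ = 0 := by
      rw [← union_compl_self {b}]; exact measure_union_null h2 h1
    rw [hν, Measure.restrict_apply_univ] at h3
    exact hn h3
  obtain ⟨a, b, hab, ha, hb⟩ := exists_ne_forall_mem_nhds_pos_measure_preimage hfreq
  have hd : 0 < dist a b := dist_pos.mpr hab
  have ha' := ha (ball a (dist a b / 2)) (ball_mem_nhds _ (by positivity))
  have hb' := hb (ball b (dist a b / 2)) (ball_mem_nhds _ (by positivity))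
  rw [preimage_id, hν, Measure.restrict_apply measurableSet_ball] at ha' hb'
  obtain ⟨F₁, hF₁s, hF₁c, hF₁⟩ := (measurableSet_ball.inter (hTm n)).exists_lt_isCompact_of_ne_top
    (measure_ne_top μ _) ha'
  obtain ⟨F₂, hF₂s, hF₂c, hF₂⟩ := (measurableSet_ball.inter (hTm n)).exists_lt_isCompact_of_ne_top
    (measure_ne_top μ _) hb'
  refine ⟨μ, inferInstance, n, F₁, F₂, hF₁c, hF₂c, ?_, hF₁, hF₂, ?_, ?_⟩
  · rw [Set.disjoint_left]
    intro x hx1 hx2
    have h1 := (hF₁s hx1).1
    have h2 := (hF₂s hx2).1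
    rw [mem_ball] at h1 h2
    have := dist_triangle_left a b x
    linarith
  · rintro z (hz | hz)
    · exact hKE z (hF₁s hz).2.1
    · exact hKE z (hF₂s hz).2.1
  · rintro z (hz | hz)
    · rw [ENNReal.ofReal_natCast]; exact (hF₁s hz).2.2
    · rw [ENNReal.ofReal_natCast]; exact (hF₂s hz).2.2

lemma pot_lower_bound {μ : Measure ℂ} [IsFiniteMeasure μ] {F : Set ℂ} {M : ℝ} (hF : IsCompact F)
    (hFpos : 0 < μ F) (hM : ∀ z ∈ F, ∫⁻ w, logKernel z w ∂μ ≤ ENNReal.ofReal M) :
    ∃ M' : ℝ, ∀ x ∉ F, -M' ≤ pot (μ.restrict F) x := by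
  have hne : F.Nonempty := by
    rw [nonempty_iff_ne_empty]; rintro rfl; simp at hFpos
  refine ⟨(ENNReal.ofReal (Real.log 2) * μ F + ENNReal.ofReal M).toReal, ?_⟩
  intro x hx
  have hμF : (μ.restrict F) Fᶜ = 0 := by
    rw [Measure.restrict_apply hF.isClosed.measurableSet.compl]; simp
  have hint := integrable_log hF hμF hx
  unfold pot
  rw [integral_eq_lintegral_pos_part_sub_lintegral_neg_part hint]
  obtain ⟨t₀, ht₀, hdist⟩ := hF.exists_infDist_eq_dist hne x
  have h1 : ∫⁻ t, ENNReal.ofReal (-Real.log ‖x - t‖) ∂(μ.restrict F)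
      ≤ ENNReal.ofReal (Real.log 2) * μ F + ENNReal.ofReal M := by
    calc ∫⁻ t, ENNReal.ofReal (-Real.log ‖x - t‖) ∂(μ.restrict F)
        ≤ ∫⁻ t, (ENNReal.ofReal (Real.log 2) + logKernel t₀ t) ∂(μ.restrict F) := by
          apply lintegral_mono_ae
          filter_upwards [ae_mem_of_compl hμF] with t ht
          by_cases h : t₀ = t
          · simp [logKernel, h]
          · rw [logKernel, if_neg h]
            refine le_trans (ENNReal.ofReal_le_ofReal ?_) ENNReal.ofReal_add_le
            have h0 : 0 < dist t₀ t := dist_pos.mpr h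
            have h1 : dist x t₀ ≤ dist x t := by
              rw [← hdist]; exact infDist_le_dist_of_mem ht
            have h2 : dist t₀ t ≤ 2 * ‖x - t‖ := by
              have := dist_triangle t₀ x t
              rw [dist_comm t₀ x] at this
              rw [← dist_eq_norm]; linarith
            have h3 : Real.log (dist t₀ t) ≤ Real.log 2 + Real.log ‖x - t‖ := by
              rw [← Real.log_mul (by norm_num) (by
                intro h5; rw [h5] at h2; linarith)]
              exact Real.log_le_log h0 h2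
            linarith
      _ = ENNReal.ofReal (Real.log 2) * μ F + ∫⁻ t in F, logKernel t₀ t ∂μ := by
          rw [lintegral_add_left measurable_const, lintegral_const, Measure.restrict_apply_univ]
      _ ≤ _ := by
          gcongr
          exact (setLIntegral_le_lintegral _ _).trans (hM t₀ ht₀)
  have h2 : (∫⁻ t, ENNReal.ofReal (-Real.log ‖x - t‖) ∂(μ.restrict F)).toReal
      ≤ (ENNReal.ofReal (Real.log 2) * μ F + ENNReal.ofReal M).toReal := by
    apply ENNReal.toReal_mono _ h1
    exact ENNReal.add_ne_top.mpr ⟨ENNReal.mul_ne_top ENNReal.ofReal_ne_top (measure_ne_top _ _),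
      ENNReal.ofReal_ne_top⟩
  have h3 : 0 ≤ (∫⁻ t, ENNReal.ofReal (Real.log ‖x - t‖) ∂(μ.restrict F)).toReal :=
    ENNReal.toReal_nonneg
  linarith

/-! ### Superharmonic functions and harmonic measure on the sphere -/

lemma circMean_congr {u v : OnePoint ℂ → ℝ≥0∞} {z : ℂ} {r : ℝ} (hr : 0 ≤ r)
    (h : ∀ y ∈ sphere z r, u (y : OnePoint ℂ) = v (y : OnePoint ℂ)) :
    circMean u z r = circMean v z r := by
  unfold circMean
  congr 1
  apply lintegral_congr
  intro t
  exact h _ (circleMap_mem_sphere z hr t)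

lemma circMean_mono {u v : OnePoint ℂ → ℝ≥0∞} {z : ℂ} {r : ℝ} (hr : 0 ≤ r)
    (h : ∀ y ∈ sphere z r, u (y : OnePoint ℂ) ≤ v (y : OnePoint ℂ)) :
    circMean u z r ≤ circMean v z r := by
  unfold circMean
  apply ENNReal.div_le_div_right
  apply lintegral_mono
  intro t
  exact h _ (circleMap_mem_sphere z hr t)

lemma circMean_ofReal {u : OnePoint ℂ → ℝ≥0∞} {g : ℂ → ℝ} {z : ℂ} {r : ℝ} (hr : 0 ≤ r)
    (hu : ∀ y ∈ sphere z r, u (y : OnePoint ℂ) = ENNReal.ofReal (g y))
    (hint : CircleIntegrable g z r) (hnn : ∀ y ∈ sphere z r, 0 ≤ g y) :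
    circMean u z r = ENNReal.ofReal (Real.circleAverage g z r) := by
  have hpi : (0:ℝ) < 2 * Real.pi := by positivity
  unfold circMean
  have h1 : ∫⁻ t in Ioc (0 : ℝ) (2 * Real.pi), u ((circleMap z r t : ℂ) : OnePoint ℂ)
      = ∫⁻ t in Ioc (0 : ℝ) (2 * Real.pi), ENNReal.ofReal (g (circleMap z r t)) := by
    apply lintegral_congr
    intro t
    exact hu _ (circleMap_mem_sphere z hr t)
  rw [h1, ← ofReal_integral_eq_lintegral_ofReal, ← ENNReal.ofReal_div_of_pos hpi]
  · congr 1
    rw [Real.circleAverage_def, intervalIntegral.integral_of_le hpi.le, smul_eq_mul]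
    field_simp
  · have := hint
    unfold CircleIntegrable at this
    rw [intervalIntegrable_iff_integrableOn_Ioc_of_le hpi.le] at this
    exact this
  · apply Eventually.of_forall
    intro t
    exact hnn _ (circleMap_mem_sphere z hr t)

lemma circMean_le_of_real {u : OnePoint ℂ → ℝ≥0∞} {g : ℂ → ℝ} {z : ℂ} {r : ℝ} (hr : 0 ≤ r)
    (hu : ∀ y ∈ sphere z r, u (y : OnePoint ℂ) ≤ ENNReal.ofReal (g y))
    (hint : CircleIntegrable g z r) (hnn : ∀ y ∈ sphere z r, 0 ≤ g y) {a : ℝ}
    (ha : Real.circleAverage g z r ≤ a) :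
    circMean u z r ≤ ENNReal.ofReal a := by
  calc circMean u z r ≤ circMean (fun p => p.elim 0 (fun y => ENNReal.ofReal (g y))) z r :=
        circMean_mono hr (fun y hy => hu y hy)
    _ = ENNReal.ofReal (Real.circleAverage g z r) :=
        circMean_ofReal hr (fun y _ => rfl) hint hnn
    _ ≤ ENNReal.ofReal a := ENNReal.ofReal_le_ofReal ha

lemma lsc_coe {u : OnePoint ℂ → ℝ≥0∞} {x : ℂ} :
    LowerSemicontinuousAt u (x : OnePoint ℂ) ↔
      LowerSemicontinuousAt (fun y : ℂ => u (y : OnePoint ℂ)) x := by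
  constructor
  · intro h y hy
    have h1 := h y hy
    rw [OnePoint.nhds_coe_eq] at h1
    exact h1
  · intro h y hy
    rw [OnePoint.nhds_coe_eq]
    exact h y hy

lemma measurable_circle {u : OnePoint ℂ → ℝ≥0∞} {D : Set (OnePoint ℂ)}
    (hu : LowerSemicontinuousOn u D) {z : ℂ} {r : ℝ} (hr : 0 ≤ r)
    (hD : ∀ y ∈ sphere z r, (y : OnePoint ℂ) ∈ D) :
    Measurable (fun t : ℝ => u ((circleMap z r t : ℂ) : OnePoint ℂ)) := by
  apply LowerSemicontinuous.measurable
  rw [lowerSemicontinuous_iff]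
  intro t
  have h1 := hu _ (hD _ (circleMap_mem_sphere z hr t))
  intro y hy
  have h2 := h1 y hy
  have h3 : Tendsto (fun t : ℝ => ((circleMap z r t : ℂ) : OnePoint ℂ)) (𝓝 t)
      (𝓝[D] ((circleMap z r t : ℂ) : OnePoint ℂ)) := by
    rw [tendsto_nhdsWithin_iff]
    constructor
    · exact (OnePoint.continuous_coe.comp (continuous_circleMap z r)).continuousAt
    · exact Eventually.of_forall (fun s => hD _ (circleMap_mem_sphere z hr s))
  exact h3.eventually h2

lemma circMean_add {u v : OnePoint ℂ → ℝ≥0∞} {D : Set (OnePoint ℂ)}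
    (hu : LowerSemicontinuousOn u D) {z : ℂ} {r : ℝ} (hr : 0 ≤ r)
    (hD : ∀ y ∈ sphere z r, (y : OnePoint ℂ) ∈ D) :
    circMean (fun p => u p + v p) z r = circMean u z r + circMean v z r := by
  unfold circMean
  rw [lintegral_add_left (measurable_circle hu hr hD), ENNReal.add_div]

lemma circMean_tsum {ι : Type*} [Countable ι] {u : ι → OnePoint ℂ → ℝ≥0∞} {D : Set (OnePoint ℂ)}
    (hu : ∀ i, LowerSemicontinuousOn (u i) D) {z : ℂ} {r : ℝ} (hr : 0 ≤ r)
    (hD : ∀ y ∈ sphere z r, (y : OnePoint ℂ) ∈ D) :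
    circMean (fun p => ∑' i, u i p) z r = ∑' i, circMean (u i) z r := by
  unfold circMean
  rw [lintegral_tsum (fun i => (measurable_circle (hu i) hr hD).aemeasurable)]
  simp only [ENNReal.div_eq_inv_mul]
  rw [ENNReal.tsum_mul_left]

/-- A convenient package: superharmonic on `D` with uniform control away from `ball c ρ`. -/
structure Good (D : Set (OnePoint ℂ)) (c : ℂ) (ρ R₀ : ℝ) (u : OnePoint ℂ → ℝ≥0∞) : Prop where
  lsc : LowerSemicontinuousOn u D
  loc : ∀ z : ℂ, (z : OnePoint ℂ) ∈ D → ∃ R > 0, ∀ r, 0 < r → r < R → circMean u z r ≤ u z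
  far : ∀ z : ℂ, ∀ d > 0, (∀ x ∈ ball z d, (x : OnePoint ℂ) ∈ D ∧ ρ ≤ dist x c) →
    ∀ r, 0 < r → r < d → circMean u z r ≤ u z
  inf : (∀ x : ℂ, R₀ < ‖x‖ → (x : OnePoint ℂ) ∈ D) →
    ∀ r, R₀ < r → circMean u 0 r ≤ u (∞ : OnePoint ℂ)

lemma sphere_in {D : Set (OnePoint ℂ)} (hD : IsOpen D) {z : ℂ} (hz : (z : OnePoint ℂ) ∈ D) :
    ∃ d > 0, ∀ x ∈ ball z d, (x : OnePoint ℂ) ∈ D := by
  have h1 : IsOpen {x : ℂ | (x : OnePoint ℂ) ∈ D} := hD.preimage OnePoint.continuous_coe
  obtain ⟨d, hd, h⟩ := Metric.isOpen_iff.mp h1 z hz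
  exact ⟨d, hd, fun x hx => h hx⟩

lemma Good.add {D : Set (OnePoint ℂ)} (hD : IsOpen D) {c : ℂ} {ρ R₀ : ℝ} (hR₀ : 0 ≤ R₀)
    {u v : OnePoint ℂ → ℝ≥0∞}
    (hu : Good D c ρ R₀ u) (hv : Good D c ρ R₀ v) : Good D c ρ R₀ (fun p => u p + v p) where
  lsc := hu.lsc.add hv.lsc
  loc := by
    intro z hz
    obtain ⟨d, hd, hdD⟩ := sphere_in hD hz
    obtain ⟨R1, hR1, h1⟩ := hu.loc z hz
    obtain ⟨R2, hR2, h2⟩ := hv.loc z hz
    refine ⟨min d (min R1 R2), by positivity, ?_⟩
    intro r hr0 hr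
    rw [lt_min_iff, lt_min_iff] at hr
    rw [circMean_add hu.lsc hr0.le (fun y hy => hdD y (by
      rw [mem_ball, mem_sphere.mp hy]; exact hr.1))]
    exact add_le_add (h1 r hr0 hr.2.1) (h2 r hr0 hr.2.2)
  far := by
    intro z d hd h r hr0 hr
    rw [circMean_add hu.lsc hr0.le (fun y hy => (h y (by
      rw [mem_ball, mem_sphere.mp hy]; exact hr)).1)]
    exact add_le_add (hu.far z d hd h r hr0 hr) (hv.far z d hd h r hr0 hr)
  inf := by
    intro hinf r hr
    rw [circMean_add hu.lsc (by linarith) (fun y hy => hinf y (by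
      rw [mem_sphere, dist_zero_right] at hy; rw [hy]; exact hr))]
    exact add_le_add (hu.inf hinf r hr) (hv.inf hinf r hr)

/-! ### The outer function -/

/-- `A * (pot ν x + M' - m * log |x - c|)` -/
noncomputable def outer (ν : Measure ℂ) (m M' A : ℝ) (c x : ℂ) : ℝ :=
  A * (pot ν x + M' - m * Real.log ‖x - c‖)

lemma outer_continuousAt {ν : Measure ℂ} [IsFiniteMeasure ν] {F : Set ℂ} {m M' A : ℝ} {c x : ℂ}
    (hF : IsCompact F) (hν : ν Fᶜ = 0) (hx : x ∉ F) (hxc : x ≠ c) :
    ContinuousAt (outer ν m M' A c) x := by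
  unfold outer
  apply ContinuousAt.mul continuousAt_const
  apply ContinuousAt.sub
  · exact (continuousAt_pot hF hν hx).add continuousAt_const
  · apply ContinuousAt.mul continuousAt_const
    apply ContinuousAt.log
    · fun_prop
    · simpa [sub_eq_zero] using hxc

lemma circleAverage_outer_aux {ν : Measure ℂ} {m M' A : ℝ} {c x : ℂ} {r : ℝ}
    (h1 : CircleIntegrable (pot ν) x r) (h2 : CircleIntegrable (fun y => Real.log ‖y - c‖) x r) :
    Real.circleAverage (outer ν m M' A c) x r =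
      A * (Real.circleAverage (pot ν) x r + M'
        - m * Real.circleAverage (fun y => Real.log ‖y - c‖) x r) := by
  have e : outer ν m M' A c
      = fun y => A • ((pot ν y + M') - m • Real.log ‖y - c‖) := by
    funext y; simp [outer]
  have h3 : CircleIntegrable (fun y => pot ν y + M') x r := h1.add (circleIntegrable_const M' x r)
  have h4 : CircleIntegrable (fun y => m • Real.log ‖y - c‖) x r := h2.const_smul
  rw [e, Real.circleAverage_fun_smul, Real.circleAverage_fun_sub h3 h4,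
    Real.circleAverage_fun_add h1 (circleIntegrable_const M' x r), Real.circleAverage_const,
    Real.circleAverage_fun_smul]
  simp

lemma outer_mean {ν : Measure ℂ} [IsFiniteMeasure ν] {F : Set ℂ} {m M' A : ℝ} {c x : ℂ} {r : ℝ}
    (hF : IsCompact F) (hν : ν Fᶜ = 0) (hr : 0 < r) (hd : Disjoint (closedBall x r) F)
    (hc : r < ‖x - c‖) :
    CircleIntegrable (outer ν m M' A c) x r ∧
      Real.circleAverage (outer ν m M' A c) x r = outer ν m M' A c x := by
  have h1 : CircleIntegrable (pot ν) x r := circleIntegrable_pot hF hν (by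
    rw [abs_of_pos hr]; exact hd.mono_left sphere_subset_closedBall)
  have h2 : CircleIntegrable (fun y => Real.log ‖y - c‖) x r := circleIntegrable_log_norm_sub_const r
  constructor
  · apply ContinuousOn.circleIntegrable hr.le
    intro y hy
    apply ContinuousAt.continuousWithinAt
    apply outer_continuousAt hF hν
    · exact Set.disjoint_left.mp hd (sphere_subset_closedBall hy)
    · rintro rfl
      rw [mem_sphere, dist_comm, dist_eq_norm] at hy
      linarith
  · rw [circleAverage_outer_aux h1 h2, circleAverage_pot_eq hF hν hr hd,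
      circleAverage_log_outside hr hc, outer]

lemma outer_mean_infty {ν : Measure ℂ} [IsFiniteMeasure ν] {F : Set ℂ} {M' A : ℝ} {c : ℂ} {r : ℝ}
    (hF : IsCompact F) (hν : ν Fᶜ = 0) (hr : 0 < r) (hd : F ⊆ ball 0 r)
    (hc : c ∈ ball (0 : ℂ) r) :
    CircleIntegrable (outer ν (ν univ).toReal M' A c) 0 r ∧
      Real.circleAverage (outer ν (ν univ).toReal M' A c) 0 r = A * M' := by
  have hds : Disjoint (sphere (0:ℂ) |r|) F := by
    rw [Set.disjoint_left]
    intro y hy hyF
    rw [abs_of_pos hr] at hy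
    have h1 := hd hyF
    rw [mem_sphere] at hy; rw [mem_ball] at h1
    linarith
  have h1 : CircleIntegrable (pot ν) 0 r := circleIntegrable_pot hF hν hds
  have h2 : CircleIntegrable (fun y => Real.log ‖y - c‖) 0 r := circleIntegrable_log_norm_sub_const r
  constructor
  · apply ContinuousOn.circleIntegrable'
    intro y hy
    apply ContinuousAt.continuousWithinAt
    apply outer_continuousAt hF hν
    · exact Set.disjoint_left.mp hds hy
    · rintro rfl
      rw [abs_of_pos hr, mem_sphere] at hy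
      rw [mem_ball] at hc
      linarith
  · rw [circleAverage_outer_aux h1 h2, circleAverage_pot_infty hF hν hr hd,
      circleAverage_log_norm_sub_const_of_mem_closedBall (by
        rw [abs_of_pos hr]; exact ball_subset_closedBall hc)]
    ring

/-- At infinity the potential behaves like `m log |x - c|`. -/
lemma pot_tendsto {ν : Measure ℂ} [IsFiniteMeasure ν] {F : Set ℂ} (hF : IsCompact F)
    (hν : ν Fᶜ = 0) (c : ℂ) :
    Tendsto (fun x => pot ν x - (ν univ).toReal * Real.log ‖x - c‖) (cocompact ℂ) (𝓝 0) := by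
  obtain ⟨R, hR⟩ := hF.isBounded.subset_closedBall c
  set R₁ := max R 1 with hR₁
  have hR₁pos : 0 < R₁ := lt_of_lt_of_le one_pos (le_max_right _ _)
  have hFR : F ⊆ closedBall c R₁ := hR.trans (closedBall_subset_closedBall (le_max_left _ _))
  have hnorm : Tendsto (fun x : ℂ => ‖x - c‖) (cocompact ℂ) atTop := by
    have h1 : Tendsto (fun x : ℂ => ‖x‖ - ‖c‖) (cocompact ℂ) atTop :=
      tendsto_atTop_add_const_right _ _ (tendsto_norm_cocompact_atTop)
    exact tendsto_atTop_mono (fun x => norm_sub_norm_le x c) h1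
  have hbound : ∀ᶠ x in cocompact ℂ, ‖pot ν x - (ν univ).toReal * Real.log ‖x - c‖‖
      ≤ (ν univ).toReal * (2 * R₁) * ‖x - c‖⁻¹ := by
    filter_upwards [hnorm.eventually_ge_atTop (2 * R₁)] with x hx
    have hxpos : 0 < ‖x - c‖ := by linarith
    have hxF : x ∉ F := by
      intro h
      have := hFR h
      rw [mem_closedBall, dist_eq_norm] at this
      linarith
    have hint := integrable_log hF hν hxF
    have e1 : pot ν x - (ν univ).toReal * Real.log ‖x - c‖
        = ∫ t, (Real.log ‖x - t‖ - Real.log ‖x - c‖) ∂ν := by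
      rw [integral_sub hint (integrable_const _), integral_const, smul_eq_mul, Measure.real, pot]
    rw [e1]
    have e2 : (ν univ).toReal * (2 * R₁) * ‖x - c‖⁻¹
        = (2 * R₁ * ‖x - c‖⁻¹) * (ν univ).toReal := by ring
    rw [e2]
    apply norm_integral_le_of_norm_le_const
    filter_upwards [ae_mem_of_compl hν] with t ht
    have ht1 : ‖t - c‖ ≤ R₁ := by
      have := hFR ht
      rwa [mem_closedBall, dist_eq_norm] at this
    have h1 : ‖x - c‖ - R₁ ≤ ‖x - t‖ := by
      have : ‖x - c‖ ≤ ‖x - t‖ + ‖t - c‖ := by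
        have := norm_add_le (x - t) (t - c)
        rwa [sub_add_sub_cancel] at this
      linarith
    have h2 : ‖x - c‖ / 2 ≤ ‖x - t‖ := by linarith
    have h3 : ‖x - t‖ ≤ ‖x - c‖ + R₁ := by
      have : ‖x - t‖ ≤ ‖x - c‖ + ‖c - t‖ := by
        have := norm_add_le (x - c) (c - t)
        rwa [sub_add_sub_cancel] at this
      rw [norm_sub_rev c t] at this
      linarith
    have hxt : 0 < ‖x - t‖ := by linarith
    rw [Real.norm_eq_abs, abs_le]
    constructor
    · have h4 : Real.log ‖x - c‖ - Real.log ‖x - t‖ ≤ 2 * R₁ * ‖x - c‖⁻¹ := by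
        rw [← Real.log_div hxpos.ne' hxt.ne']
        refine le_trans (Real.log_le_sub_one_of_pos (by positivity)) ?_
        rw [div_sub_one hxt.ne', div_le_iff₀ hxt]
        have h5 : (1:ℝ) ≤ 2 * ‖x - c‖⁻¹ * ‖x - t‖ := by
          have : 2 * ‖x - c‖⁻¹ * ‖x - t‖ = ‖x - t‖ / (‖x - c‖ / 2) := by field_simp
          rw [this, le_div_iff₀ (by positivity)]
          linarith
        have h6 : 2 * R₁ * ‖x - c‖⁻¹ * ‖x - t‖ = R₁ * (2 * ‖x - c‖⁻¹ * ‖x - t‖) := by ring
        rw [h6]
        nlinarith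
      linarith
    · rw [← Real.log_div hxt.ne' hxpos.ne']
      refine le_trans (Real.log_le_sub_one_of_pos (by positivity)) ?_
      rw [div_sub_one hxpos.ne', div_le_iff₀ hxpos]
      have h6 : 2 * R₁ * ‖x - c‖⁻¹ * ‖x - c‖ = 2 * R₁ := by field_simp
      rw [h6]; linarith
  refine squeeze_zero_norm' hbound ?_
  have h1 : Tendsto (fun x : ℂ => ‖x - c‖⁻¹) (cocompact ℂ) (𝓝 0) := hnorm.inv_tendsto_atTop
  have h2 := h1.const_mul ((ν univ).toReal * (2 * R₁))
  rwa [mul_zero] at h2

/-- positivity constant -/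
lemma kernel_bound {ν : Measure ℂ} [IsFiniteMeasure ν] {F : Set ℂ} (hF : IsCompact F)
    (hν : ν Fᶜ = 0) {M : ℝ} (hM : ∀ x ∉ F, -M ≤ pot ν x) (c : ℂ) (ρ : ℝ) :
    ∃ M' : ℝ, 0 ≤ M' ∧ (∀ x ∉ F, ∀ y ∈ closedBall c ρ,
        0 ≤ pot ν x + M' - (ν univ).toReal * Real.log ‖x - y‖) ∧
      (∀ x ∉ F, 0 ≤ pot ν x + M' - (ν univ).toReal * Real.log (3 * ρ / 4)) := by
  set m := (ν univ).toReal with hm
  have hm0 : 0 ≤ m := ENNReal.toReal_nonneg
  obtain ⟨R, hR⟩ := hF.isBounded.subset_closedBall c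
  set R₁ := max (max R ρ) 1 with hR₁
  have hR₁1 : 1 ≤ R₁ := le_max_right _ _
  have hFR : F ⊆ closedBall c R₁ :=
    hR.trans (closedBall_subset_closedBall ((le_max_left _ _).trans (le_max_left _ _)))
  have hρR : ρ ≤ R₁ := (le_max_right _ _).trans (le_max_left _ _)
  refine ⟨|M| + m * Real.log (8 * R₁) + m * |Real.log (3 * ρ / 4)|, ?_, ?_, ?_⟩
  · have : 0 ≤ Real.log (8 * R₁) := Real.log_nonneg (by linarith)
    positivity
  · intro x hx y hy
    have hlog : 0 ≤ Real.log (8 * R₁) := Real.log_nonneg (by linarith)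
    have hyR : dist y c ≤ R₁ := (mem_closedBall.mp hy).trans hρR
    rcases le_or_gt (dist x c) (4 * R₁) with h | h
    · have h1 : Real.log ‖x - y‖ ≤ Real.log (8 * R₁) := by
        rcases eq_or_lt_of_le (norm_nonneg (x - y)) with h0 | h0
        · rw [← h0, Real.log_zero]; exact hlog
        · apply Real.log_le_log h0
          rw [← dist_eq_norm]
          have := dist_triangle_right x y c
          linarith
      have h2 := hM x hx
      have h3 : m * Real.log ‖x - y‖ ≤ m * Real.log (8 * R₁) := mul_le_mul_of_nonneg_left h1 hm0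
      have h4 : 0 ≤ m * |Real.log (3 * ρ / 4)| := by positivity
      have h5 := le_abs_self M
      linarith
    · have hint := integrable_log hF hν hx
      have h1 : m * (Real.log ‖x - y‖ - Real.log 2) ≤ pot ν x := by
        have e1 : m * (Real.log ‖x - y‖ - Real.log 2)
            = ∫ t, (Real.log ‖x - y‖ - Real.log 2) ∂ν := by
          rw [integral_const, smul_eq_mul, Measure.real]
        rw [e1, pot]
        apply integral_mono_ae (integrable_const _) hint
        filter_upwards [ae_mem_of_compl hν] with t ht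
        have ht1 := hFR ht
        rw [mem_closedBall] at ht1
        have h2 : dist x c - R₁ ≤ ‖x - t‖ := by
          rw [← dist_eq_norm]
          have := dist_triangle x t c
          linarith
        have h3 : ‖x - y‖ ≤ dist x c + R₁ := by
          rw [← dist_eq_norm]
          have := dist_triangle_right x y c
          linarith
        have h3' : dist x c - R₁ ≤ ‖x - y‖ := by
          rw [← dist_eq_norm]
          have := dist_triangle x y c
          linarith
        have h4 : ‖x - y‖ / 2 ≤ ‖x - t‖ := by linarith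
        have h5 : 0 < ‖x - y‖ := by linarith
        rw [← Real.log_div h5.ne' (by norm_num)]
        exact Real.log_le_log (by positivity) h4
      have h2 : m * Real.log 2 ≤ m * Real.log (8 * R₁) :=
        mul_le_mul_of_nonneg_left (Real.log_le_log (by norm_num) (by linarith)) hm0
      have h4 : 0 ≤ m * |Real.log (3 * ρ / 4)| := by positivity
      have h5 := abs_nonneg M
      nlinarith
  · intro x hx
    have hlog : 0 ≤ Real.log (8 * R₁) := Real.log_nonneg (by linarith)
    have h2 := hM x hx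
    have h3 : m * Real.log (3 * ρ / 4) ≤ m * |Real.log (3 * ρ / 4)| :=
      mul_le_mul_of_nonneg_left (le_abs_self _) hm0
    have h5 := le_abs_self M
    have h6 : 0 ≤ m * Real.log (8 * R₁) := by positivity
    linarith

lemma isOpen_fin {D : Set (OnePoint ℂ)} (hD : IsOpen D) : IsOpen (fin D) :=
  hD.preimage OnePoint.continuous_coe

lemma lsc_of_near {u : OnePoint ℂ → ℝ≥0∞} {g : ℂ → ℝ} {x : ℂ}
    (h : ∀ᶠ y : ℂ in 𝓝 x, u (y : OnePoint ℂ) = ENNReal.ofReal (g y)) (hg : ContinuousAt g x) :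
    LowerSemicontinuousAt u (x : OnePoint ℂ) := by
  rw [lsc_coe]
  have h1 : ContinuousAt (fun y : ℂ => ENNReal.ofReal (g y)) x :=
    (ENNReal.continuous_ofReal.continuousAt).comp hg
  have h2 : ContinuousAt (fun y : ℂ => u (y : OnePoint ℂ)) x :=
    h1.congr (h.mono (fun y hy => hy.symm))
  exact h2.lowerSemicontinuousAt

/-- Glueing: one component. -/
lemma comp_barrier {α : ℝ} (hα : 1 / 2 < α) (hα1 : α < 1) {D : Set (OnePoint ℂ)} (hD : IsOpen D)
    {ν : Measure ℂ} [IsFiniteMeasure ν] {F : Set ℂ} (hF : IsCompact F) (hν : ν Fᶜ = 0)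
    (hm : 0 < (ν univ).toReal) (hFD : Disjoint F (fin D)) {c : ℂ} (hcD : c ∉ fin D)
    {ρ : ℝ} (hρ : 0 < ρ) (hρ1 : ρ ≤ 1) (hFc : Disjoint (closedBall c ρ) F) {M' : ℝ}
    (hM1 : ∀ x ∉ F, ∀ y ∈ closedBall c ρ,
      0 ≤ pot ν x + M' - (ν univ).toReal * Real.log ‖x - y‖)
    (hM2 : ∀ x ∉ F, 0 ≤ pot ν x + M' - (ν univ).toReal * Real.log (3 * ρ / 4))
    {R₀ : ℝ} (hFR : F ⊆ ball 0 R₀) (hcR : closedBall c ρ ⊆ ball 0 R₀)
    {U : Set ℂ} (hUo : IsOpen U) (hUsub : U ⊆ fin D ∩ ball c ρ)
    (hUcl : IsOpen ((fin D ∩ ball c ρ) \ U))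
    {K' : Set ℂ} (hK'c : K' ⊆ ball c (ρ / 4))
    (hK' : ∀ z ∈ K', z ∈ closure U ∧ ∃ θ : ℝ, U ⊆ copyW α z θ)
    {z₁ : OnePoint ℂ} (hz₁c : ∀ ζ : ℂ, (ζ : OnePoint ℂ) = z₁ → ρ ≤ dist ζ c)
    {δ : ℝ} (hδ : 0 < δ) :
    ∃ u : OnePoint ℂ → ℝ≥0∞, Good D c ρ R₀ u ∧
      (∀ z ∈ K', ∃ r > 0, ∀ x ∈ U, dist x z < r → 1 ≤ u (x : OnePoint ℂ)) ∧
      u z₁ ≤ ENNReal.ofReal δ := by
  classical
  set m := (ν univ).toReal with hmdef
  have hR₀ : 0 < R₀ := by
    have := hcR (mem_closedBall_self hρ.le)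
    rw [mem_ball] at this
    exact lt_of_le_of_lt dist_nonneg this
  have hlog65 : 0 < Real.log (6 / 5) := Real.log_pos (by norm_num)
  set κ : ℝ := 1 / (m * Real.log (6 / 5)) with hκ
  have hκpos : 0 < κ := by positivity
  -- value at z₁
  obtain ⟨δ', hδ', hδ'1⟩ : ∃ δ' > 0, ∀ B, (B = κ * M' ∨ ∃ ζ : ℂ, (ζ : OnePoint ℂ) = z₁ ∧
      B = outer ν m M' κ c ζ) → δ' * B ≤ δ := by
    obtain ⟨B₀, hB₀⟩ : ∃ B₀ : ℝ, ∀ B, (B = κ * M' ∨ ∃ ζ : ℂ, (ζ : OnePoint ℂ) = z₁ ∧
      B = outer ν m M' κ c ζ) → B ≤ B₀ := by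
      by_cases hz : ∃ ζ : ℂ, (ζ : OnePoint ℂ) = z₁
      · obtain ⟨ζ, hζ⟩ := hz
        refine ⟨max (κ * M') (outer ν m M' κ c ζ), ?_⟩
        rintro B (rfl | ⟨ζ', hζ', rfl⟩)
        · exact le_max_left _ _
        · have : ζ' = ζ := OnePoint.coe_injective (hζ'.trans hζ.symm)
          rw [this]; exact le_max_right _ _
      · refine ⟨κ * M', ?_⟩
        rintro B (rfl | ⟨ζ', hζ', rfl⟩)
        · exact le_rfl
        · exact absurd ⟨ζ', hζ'⟩ hz
    refine ⟨δ / (|B₀| + 1), by positivity, ?_⟩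
    intro B hB
    have h1 := hB₀ B hB
    have h2 : B ≤ |B₀| + 1 := by
      have := le_abs_self B₀; linarith
    calc δ / (|B₀| + 1) * B ≤ δ / (|B₀| + 1) * (|B₀| + 1) :=
          mul_le_mul_of_nonneg_left h2 (by positivity)
      _ = δ := by field_simp
  have hdiam : ∀ z ∈ K', ∀ z' ∈ K', dist z z' ≤ 1 := by
    intro z hz z' hz'
    have h1 := mem_ball.mp (hK'c hz)
    have h2 := mem_ball.mp (hK'c hz')
    have := dist_triangle_right z z' c
    linarith
  obtain ⟨G, hGd, hG0, hG1, hG2⟩ := barrier hα hα1 hK' hdiam (η := ρ / 8) (by positivity) hδ'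
  -- the functions
  set O : ℂ → ℝ := outer ν m M' (δ' * κ) c with hO
  set a : ℂ → ℝ := fun x => δ' * κ * (pot ν x + M' - m * Real.log (3 * ρ / 4)) with ha
  set I : ℂ → ℝ := fun x => (G x).re + a x with hI
  have hballF : ∀ x ∈ fin D, x ∉ F := fun x hx hxF => Set.disjoint_left.mp hFD hxF hx
  have hO0 : ∀ x ∉ F, 0 ≤ O x := by
    intro x hx
    have := hM1 x hx c (mem_closedBall_self hρ.le)
    simp only [hO, outer]
    positivity
  have ha0 : ∀ x ∉ F, 0 ≤ a x := by
    intro x hx
    have := hM2 x hx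
    simp only [ha]
    positivity
  have hI0 : ∀ x ∈ U, 0 ≤ I x := fun x hx =>
    add_nonneg (hG0 x hx) (ha0 x (hballF x (hUsub hx).1))
  -- comparison of O and a
  have hcomp : ∀ x, O x - a x = δ' * κ * m * (Real.log (3 * ρ / 4) - Real.log ‖x - c‖) := by
    intro x; simp only [hO, ha, outer]; ring
  have hOI_far : ∀ x ∈ U, 3 * ρ / 4 ≤ dist x c → O x ≤ I x := by
    intro x hx hxc
    have h1 := hcomp x
    have h2 : Real.log (3 * ρ / 4) ≤ Real.log ‖x - c‖ := by
      rw [← dist_eq_norm]; exact Real.log_le_log (by positivity) hxc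
    have h3 := hG0 x hx
    have h4 : 0 ≤ δ' * κ * m := by positivity
    have h5 : δ' * κ * m * (Real.log (3 * ρ / 4) - Real.log ‖x - c‖) ≤ 0 :=
      mul_nonpos_of_nonneg_of_nonpos h4 (by linarith)
    simp only [hI]
    linarith
  have hIO_near : ∀ x ∈ U, 3 * ρ / 8 ≤ dist x c → dist x c ≤ 5 * ρ / 8 → I x ≤ O x := by
    intro x hx hx1 hx2
    have h1 := hcomp x
    have hxpos : 0 < dist x c := lt_of_lt_of_le (by positivity) hx1
    have h2 : Real.log (6 / 5) ≤ Real.log (3 * ρ / 4) - Real.log ‖x - c‖ := by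
      rw [← dist_eq_norm, ← Real.log_div (by positivity) hxpos.ne']
      apply Real.log_le_log (by norm_num)
      rw [le_div_iff₀ hxpos]
      linarith
    have h3 : (G x).re ≤ δ' := by
      apply hG2 x hx
      intro z hz
      have h4 := mem_ball.mp (hK'c hz)
      have h5 := dist_triangle x z c
      linarith
    have h4 : δ' = δ' * κ * m * Real.log (6 / 5) := by
      rw [hκ]; field_simp
    have h5 : δ' * κ * m * Real.log (6 / 5)
        ≤ δ' * κ * m * (Real.log (3 * ρ / 4) - Real.log ‖x - c‖) :=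
      mul_le_mul_of_nonneg_left h2 (by positivity)
    simp only [hI]
    linarith
  -- continuity
  have hOc : ∀ x ∈ fin D, ContinuousAt O x := by
    intro x hx
    apply outer_continuousAt hF hν (hballF x hx)
    rintro rfl; exact hcD hx
  have hIc : ∀ x ∈ U, ContinuousAt I x := by
    intro x hx
    apply ContinuousAt.add
    · exact Complex.continuous_re.continuousAt.comp
        ((hGd.continuousOn).continuousAt (hUo.mem_nhds hx))
    · apply ContinuousAt.mul continuousAt_const
      exact ((continuousAt_pot hF hν (hballF x (hUsub hx).1)).add continuousAt_const).sub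
        continuousAt_const
  -- means
  have hOm : ∀ x, ∀ r, 0 < r → closedBall x r ⊆ fin D →
      CircleIntegrable O x r ∧ Real.circleAverage O x r = O x := by
    intro x r hr hsub
    apply outer_mean hF hν hr
    · rw [Set.disjoint_left]
      intro y hy; exact hballF y (hsub hy)
    · by_contra hcon
      push Not at hcon
      exact hcD (hsub (by rw [mem_closedBall, dist_comm, dist_eq_norm]; exact hcon))
  have hIm : ∀ x, ∀ r, 0 < r → closedBall x r ⊆ U →
      CircleIntegrable I x r ∧ Real.circleAverage I x r = I x := by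
    intro x r hr hsub
    have hdis : Disjoint (closedBall x r) F := by
      rw [Set.disjoint_left]
      intro y hy; exact hballF y (hUsub (hsub hy)).1
    have h1 : CircleIntegrable (pot ν) x r := circleIntegrable_pot hF hν (by
      rw [abs_of_pos hr]; exact hdis.mono_left sphere_subset_closedBall)
    have h2 : CircleIntegrable a x r := by
      apply ContinuousOn.circleIntegrable hr.le
      intro y hy
      have hy' := hballF y (hUsub (hsub (sphere_subset_closedBall hy))).1
      apply ContinuousAt.continuousWithinAt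
      apply ContinuousAt.mul continuousAt_const
      exact ((continuousAt_pot hF hν hy').add continuousAt_const).sub
        continuousAt_const
    have h3 : CircleIntegrable G x r := by
      apply ContinuousOn.circleIntegrable hr.le
      exact hGd.continuousOn.mono (sphere_subset_closedBall.trans hsub)
    have h4 : CircleIntegrable (fun y => (G y).re) x r := by
      apply ContinuousOn.circleIntegrable hr.le
      exact Complex.continuous_re.comp_continuousOn
        (hGd.continuousOn.mono (sphere_subset_closedBall.trans hsub))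
    refine ⟨h4.add h2, ?_⟩
    have h5 : Real.circleAverage (fun y => (G y).re) x r = (G x).re := by
      have h6 := Complex.reCLM.circleAverage_comp_comm h3
      have h7 : Real.circleAverage G x r = G x := by
        apply DiffContOnCl.circleAverage
        rw [abs_of_pos hr]
        apply DifferentiableOn.diffContOnCl
        rw [closure_ball x hr.ne']
        exact hGd.mono hsub
      rw [h7] at h6
      exact h6
    have h6 : Real.circleAverage a x r = a x := by
      have e : a = fun y => (δ' * κ) • (pot ν y + (M' - m * Real.log (3 * ρ / 4))) := by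
        funext y; simp only [ha, smul_eq_mul]; ring
      rw [e, Real.circleAverage_fun_smul, Real.circleAverage_fun_add h1
        (circleIntegrable_const _ x r), Real.circleAverage_const,
        circleAverage_pot_eq hF hν hr hdis]
    rw [hI, Real.circleAverage_fun_add h4 h2, h5, h6]
  -- the glued function
  let w : ℂ → ℝ≥0∞ := fun x =>
    if x ∈ U ∧ dist x c < ρ / 2 then ENNReal.ofReal (I x)
    else if x ∈ U then ENNReal.ofReal (min (I x) (O x)) else ENNReal.ofReal (O x)
  let u : OnePoint ℂ → ℝ≥0∞ := fun p => p.elim (ENNReal.ofReal (δ' * κ * M')) w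
  have hu : ∀ x : ℂ, u (x : OnePoint ℂ) = w x := fun x => rfl
  -- local description
  have hlocal : ∀ x ∈ fin D, ∃ e > 0, ball x e ⊆ fin D ∧
      ((∀ y ∈ ball x e, w y = ENNReal.ofReal (O y)) ∨
       (ball x e ⊆ U ∧ ∀ y ∈ ball x e, w y = ENNReal.ofReal (I y)) ∨
       (ball x e ⊆ U ∧ ∀ y ∈ ball x e, w y = ENNReal.ofReal (min (I y) (O y)))) := by
    intro x hx
    obtain ⟨e₀, he₀, hsub₀⟩ := Metric.isOpen_iff.mp (isOpen_fin hD) x hx
    -- far region: dist x c > 3ρ/4
    have hfar : ∀ y, 3 * ρ / 4 ≤ dist y c → w y = ENNReal.ofReal (O y) := by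
      intro y hy
      simp only [w]
      rw [if_neg (by rintro ⟨-, h⟩; linarith)]
      by_cases hyU : y ∈ U
      · rw [if_pos hyU, min_eq_right (hOI_far y hyU hy)]
      · rw [if_neg hyU]
    by_cases hxc : 3 * ρ / 4 < dist x c
    · refine ⟨min e₀ (dist x c - 3 * ρ / 4), lt_min he₀ (by linarith), ?_, Or.inl ?_⟩
      · exact (ball_subset_ball (min_le_left _ _)).trans hsub₀
      · intro y hy
        apply hfar
        have h1 : dist y x < dist x c - 3 * ρ / 4 := lt_of_lt_of_le (mem_ball.mp hy) (min_le_right _ _)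
        have h2 := dist_triangle_left x c y
        linarith
    · push Not at hxc
      have hxV : x ∈ fin D ∩ ball c ρ := ⟨hx, by rw [mem_ball]; linarith⟩
      by_cases hxU : x ∈ U
      · obtain ⟨e₁, he₁, hsub₁⟩ := Metric.isOpen_iff.mp hUo x hxU
        by_cases hx2 : dist x c < 5 * ρ / 8
        · refine ⟨min (min e₀ e₁) (5 * ρ / 8 - dist x c), ?_, ?_, Or.inr (Or.inl ⟨?_, ?_⟩)⟩
          · exact lt_min (lt_min he₀ he₁) (by linarith)
          · exact (ball_subset_ball ((min_le_left _ _).trans (min_le_left _ _))).trans hsub₀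
          · exact (ball_subset_ball ((min_le_left _ _).trans (min_le_right _ _))).trans hsub₁
          · intro y hy
            have hyU : y ∈ U :=
              hsub₁ (ball_subset_ball ((min_le_left _ _).trans (min_le_right _ _)) hy)
            have h1 : dist y x < 5 * ρ / 8 - dist x c :=
              lt_of_lt_of_le (mem_ball.mp hy) (min_le_right _ _)
            have h2 := dist_triangle y x c
            simp only [w]
            by_cases h3 : dist y c < ρ / 2
            · rw [if_pos ⟨hyU, h3⟩]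
            · rw [if_neg (by tauto), if_pos hyU, min_eq_left]
              apply hIO_near y hyU
              · linarith
              · linarith
        · refine ⟨min (min e₀ e₁) (ρ / 8), ?_, ?_, Or.inr (Or.inr ⟨?_, ?_⟩)⟩
          · exact lt_min (lt_min he₀ he₁) (by linarith)
          · exact (ball_subset_ball ((min_le_left _ _).trans (min_le_left _ _))).trans hsub₀
          · exact (ball_subset_ball ((min_le_left _ _).trans (min_le_right _ _))).trans hsub₁
          · intro y hy
            have hyU : y ∈ U :=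
              hsub₁ (ball_subset_ball ((min_le_left _ _).trans (min_le_right _ _)) hy)
            have h1 : dist y x < ρ / 8 := lt_of_lt_of_le (mem_ball.mp hy) (min_le_right _ _)
            have h2 := dist_triangle_left x c y
            have h3 : ¬ (dist y c < ρ / 2) := by linarith
            simp only [w]
            rw [if_neg (by tauto), if_pos hyU]
      · obtain ⟨e₁, he₁, hsub₁⟩ := Metric.isOpen_iff.mp hUcl x ⟨hxV, hxU⟩
        refine ⟨min e₀ e₁, lt_min he₀ he₁, ?_, Or.inl ?_⟩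
        · exact (ball_subset_ball (min_le_left _ _)).trans hsub₀
        · intro y hy
          have hyU : y ∉ U := (hsub₁ (ball_subset_ball (min_le_right _ _) hy)).2
          simp only [w]
          rw [if_neg (by tauto), if_neg hyU]
  have hw_out : ∀ y, y ∉ U → w y = ENNReal.ofReal (O y) := by
    intro y hy
    simp only [w]
    rw [if_neg (by tauto), if_neg hy]
  have hUR : ∀ y, y ∈ U → ‖y‖ < R₀ := by
    intro y hy
    have := hcR (ball_subset_closedBall (hUsub hy).2)
    rwa [mem_ball, dist_zero_right] at this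
  refine ⟨u, ⟨?_, ?_, ?_, ?_⟩, ?_, ?_⟩
  · -- lsc
    intro p hp
    apply LowerSemicontinuousAt.lowerSemicontinuousWithinAt
    induction p using OnePoint.rec with
    | infty =>
      apply ContinuousAt.lowerSemicontinuousAt
      rw [OnePoint.continuousAt_infty', Filter.coclosedCompact_eq_cocompact]
      have h1 : Tendsto (fun x => ENNReal.ofReal (O x)) (cocompact ℂ)
          (𝓝 (ENNReal.ofReal (δ' * κ * M'))) := by
        apply ENNReal.tendsto_ofReal
        have h2 := (((pot_tendsto hF hν c).add_const M').const_mul (δ' * κ))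
        rw [zero_add] at h2
        refine h2.congr ?_
        intro x
        simp only [hO, outer]; ring
      refine h1.congr' ?_
      filter_upwards [tendsto_norm_cocompact_atTop.eventually_ge_atTop R₀] with x hx
      have hxU : x ∉ U := fun h => by
        have := hUR x h; linarith
      exact (hw_out x hxU).symm
    | coe x =>
      obtain ⟨e, he, hsub, h⟩ := hlocal x hp
      rcases h with h | ⟨hU', h⟩ | ⟨hU', h⟩
      · exact lsc_of_near (Filter.eventually_of_mem (ball_mem_nhds x he) h) (hOc x hp)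
      · exact lsc_of_near (Filter.eventually_of_mem (ball_mem_nhds x he) h)
          (hIc x (hU' (mem_ball_self he)))
      · exact lsc_of_near (g := fun y => min (I y) (O y))
          (Filter.eventually_of_mem (ball_mem_nhds x he) h)
          ((hIc x (hU' (mem_ball_self he))).min (hOc x hp))
  · -- local means
    intro x hx
    obtain ⟨e, he, hsub, h⟩ := hlocal x hx
    refine ⟨e, he, ?_⟩
    intro r hr0 hr
    have hcb : closedBall x r ⊆ ball x e := closedBall_subset_ball hr
    have hsp : ∀ y ∈ sphere x r, y ∈ ball x e := fun y hy => hcb (sphere_subset_closedBall hy)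
    have hOx := hOm x r hr0 (hcb.trans hsub)
    rw [hu]
    rcases h with h | ⟨hU', h⟩ | ⟨hU', h⟩
    · rw [h x (mem_ball_self he)]
      exact circMean_le_of_real hr0.le (fun y hy => (h y (hsp y hy)).le) hOx.1
        (fun y hy => hO0 y (hballF y (hsub (hsp y hy)))) hOx.2.le
    · rw [h x (mem_ball_self he)]
      have hIx := hIm x r hr0 (hcb.trans hU')
      exact circMean_le_of_real hr0.le (fun y hy => (h y (hsp y hy)).le) hIx.1
        (fun y hy => hI0 y (hU' (hsp y hy))) hIx.2.le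
    · rw [h x (mem_ball_self he)]
      have hIx := hIm x r hr0 (hcb.trans hU')
      rcases min_choice (I x) (O x) with hmin | hmin
      · rw [hmin]
        exact circMean_le_of_real hr0.le (fun y hy => by
          rw [hu, h y (hsp y hy)]; exact ENNReal.ofReal_le_ofReal (min_le_left _ _)) hIx.1
          (fun y hy => hI0 y (hU' (hsp y hy))) hIx.2.le
      · rw [hmin]
        exact circMean_le_of_real hr0.le (fun y hy => by
          rw [hu, h y (hsp y hy)]; exact ENNReal.ofReal_le_ofReal (min_le_right _ _)) hOx.1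
          (fun y hy => hO0 y (hballF y (hsub (hsp y hy)))) hOx.2.le
  · -- far means
    intro z d hd h r hr0 hr
    have hnot : ∀ y ∈ ball z d, y ∉ U := by
      intro y hy hyU
      have h1 := mem_ball.mp (hUsub hyU).2
      have h2 := (h y hy).2
      linarith
    have hcb : closedBall z r ⊆ ball z d := closedBall_subset_ball hr
    have hsp : ∀ y ∈ sphere z r, y ∈ ball z d := fun y hy => hcb (sphere_subset_closedBall hy)
    have hOx := hOm z r hr0 (fun y hy => (h y (hcb hy)).1)
    rw [hu, hw_out z (hnot z (mem_ball_self hd))]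
    exact circMean_le_of_real hr0.le (fun y hy => (hw_out y (hnot y (hsp y hy))).le) hOx.1
      (fun y hy => hO0 y (hballF y (h y (hsp y hy)).1)) hOx.2.le
  · -- infinity
    intro _ r hr
    have hr0 : 0 < r := hR₀.trans hr
    have hFr : F ⊆ ball 0 r := hFR.trans (ball_subset_ball hr.le)
    have hcr : c ∈ ball (0:ℂ) r := ball_subset_ball hr.le (hcR (mem_closedBall_self hρ.le))
    have hOx := outer_mean_infty (ν := ν) (M' := M') (A := δ' * κ) hF hν hr0 hFr hcr
    have hnot : ∀ y ∈ sphere (0:ℂ) r, y ∉ U := by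
      intro y hy hyU
      have h1 := hUR y hyU
      rw [mem_sphere, dist_zero_right] at hy
      linarith
    have hnotF : ∀ y ∈ sphere (0:ℂ) r, y ∉ F := by
      intro y hy hyF
      have h1 := hFr hyF
      rw [mem_sphere] at hy; rw [mem_ball] at h1
      linarith
    exact circMean_le_of_real hr0.le (fun y hy => (hw_out y (hnot y hy)).le) hOx.1
      (fun y hy => hO0 y (hnotF y hy)) hOx.2.le
  · -- barrier
    intro z hz
    obtain ⟨r, hr, h⟩ := hG1 z hz
    refine ⟨min r (ρ / 4), lt_min hr (by positivity), ?_⟩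
    intro x hx hxz
    rw [lt_min_iff] at hxz
    have h1 := mem_ball.mp (hK'c hz)
    have h2 := dist_triangle x z c
    have h3 : dist x c < ρ / 2 := by linarith
    rw [hu]
    simp only [w]
    rw [if_pos ⟨hx, h3⟩]
    rw [← ENNReal.ofReal_one]
    apply ENNReal.ofReal_le_ofReal
    have h4 := h x hx hxz.1
    have h5 := ha0 x (hballF x (hUsub hx).1)
    simp only [hI]; linarith
  · -- value
    induction z₁ using OnePoint.rec with
    | infty =>
      apply ENNReal.ofReal_le_ofReal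
      have := hδ'1 (κ * M') (Or.inl rfl)
      linarith
    | coe ζ =>
      have h1 := hz₁c ζ rfl
      have h2 : ζ ∉ U := by
        intro h
        have h3 := mem_ball.mp (hUsub h).2
        linarith
      rw [hu, hw_out ζ h2]
      apply ENNReal.ofReal_le_ofReal
      have := hδ'1 (outer ν m M' κ c ζ) (Or.inr ⟨ζ, rfl, rfl⟩)
      simp only [hO, outer] at this ⊢
      linarith

/-! ### The area-potential used for all but finitely many components -/

lemma measurable_pot (ν : Measure ℂ) [SFinite ν] : Measurable (pot ν) := by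
  have h : StronglyMeasurable (fun p : ℂ × ℂ => Real.log ‖p.1 - p.2‖) := by
    apply Measurable.stronglyMeasurable; fun_prop
  exact (h.integral_prod_right').measurable

/-- area potential -/
noncomputable def areaPot (ν : Measure ℂ) (m M' A : ℝ) (V : Set ℂ) (p : OnePoint ℂ) : ℝ≥0∞ :=
  p.elim (∫⁻ _ in V, ENNReal.ofReal (A * M')) (fun x => ∫⁻ y in V, ENNReal.ofReal (outer ν m M' A y x))

lemma measurable_outer_right (ν : Measure ℂ) (m M' A : ℝ) (x : ℂ) :
    Measurable (fun y => ENNReal.ofReal (outer ν m M' A y x)) := by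
  unfold outer
  fun_prop

lemma ae_ne (V : Set ℂ) (x : ℂ) : ∀ᵐ y ∂((volume : Measure ℂ).restrict V), y ≠ x := by
  apply ae_restrict_of_ae
  rw [ae_iff]
  simp

lemma areaPot_lsc {ν : Measure ℂ} [IsFiniteMeasure ν] {F : Set ℂ} {M' A : ℝ} (V : Set ℂ)
    {D : Set (OnePoint ℂ)} (hF : IsCompact F) (hν : ν Fᶜ = 0) (hFD : Disjoint F (fin D)) :
    LowerSemicontinuousOn (areaPot ν (ν univ).toReal M' A V) D := by
  intro p hp
  apply LowerSemicontinuousAt.lowerSemicontinuousWithinAt
  induction p using OnePoint.rec with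
  | infty =>
    have hcg : IsCountablyGenerated (cocompact ℂ) := by
      rw [← Metric.cobounded_eq_cocompact, ← comap_norm_atTop]
      infer_instance
    have h1 : areaPot ν (ν univ).toReal M' A V (∞ : OnePoint ℂ) ≤
        liminf (fun x : ℂ => areaPot ν (ν univ).toReal M' A V (x : OnePoint ℂ)) (cocompact ℂ) := by
      calc areaPot ν (ν univ).toReal M' A V (∞ : OnePoint ℂ)
          = ∫⁻ y in V, liminf (fun x : ℂ => ENNReal.ofReal (outer ν (ν univ).toReal M' A y x))
              (cocompact ℂ) := by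
            show (∫⁻ _ in V, ENNReal.ofReal (A * M')) = _
            apply lintegral_congr
            intro y
            symm
            apply Tendsto.liminf_eq
            apply ENNReal.tendsto_ofReal
            have h2 := (((pot_tendsto hF hν y).add_const M').const_mul A)
            rw [zero_add] at h2
            refine h2.congr ?_
            intro x
            simp only [outer]; ring
        _ ≤ liminf (fun x : ℂ => ∫⁻ y in V, ENNReal.ofReal (outer ν (ν univ).toReal M' A y x))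
              (cocompact ℂ) :=
            lintegral_liminf_le (fun x => measurable_outer_right ν _ M' A x)
        _ = _ := rfl
    intro a ha
    rw [OnePoint.nhds_infty_eq, Filter.eventually_sup, Filter.eventually_map,
      Filter.coclosedCompact_eq_cocompact]
    refine ⟨?_, ?_⟩
    · exact eventually_lt_of_lt_liminf (lt_of_lt_of_le ha h1)
    · exact ha
  | coe x =>
    rw [lsc_coe, lowerSemicontinuousAt_iff_le_liminf]
    have hxF : x ∉ F := fun h => Set.disjoint_left.mp hFD h hp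
    calc areaPot ν (ν univ).toReal M' A V (x : OnePoint ℂ)
        = ∫⁻ y in V, liminf (fun x : ℂ => ENNReal.ofReal (outer ν (ν univ).toReal M' A y x))
            (𝓝 x) := by
          show (∫⁻ y in V, ENNReal.ofReal (outer ν (ν univ).toReal M' A y x)) = _
          apply lintegral_congr_ae
          filter_upwards [ae_ne V x] with y hy
          symm
          apply Tendsto.liminf_eq
          apply ENNReal.tendsto_ofReal
          exact outer_continuousAt hF hν hxF hy.symm
      _ ≤ liminf (fun x : ℂ => ∫⁻ y in V, ENNReal.ofReal (outer ν (ν univ).toReal M' A y x))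
            (𝓝 x) :=
          lintegral_liminf_le (fun x => measurable_outer_right ν _ M' A x)
      _ = _ := rfl

lemma circleIntegrable_outer {ν : Measure ℂ} [IsFiniteMeasure ν] {F : Set ℂ} {m M' A : ℝ}
    {y x : ℂ} {r : ℝ} (hF : IsCompact F) (hν : ν Fᶜ = 0) (hd : Disjoint (sphere x |r|) F) :
    CircleIntegrable (outer ν m M' A y) x r := by
  have h1 : CircleIntegrable (pot ν) x r := circleIntegrable_pot hF hν hd
  have h2 : CircleIntegrable (fun z => Real.log ‖z - y‖) x r := circleIntegrable_log_norm_sub_const r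
  have e : outer ν m M' A y
      = A • (fun z => (pot ν z + M') - m • Real.log ‖z - y‖) := by
    funext y; simp [outer]
  rw [e]
  apply CircleIntegrable.const_smul
  apply CircleIntegrable.sub
  · exact h1.add (circleIntegrable_const M' x r)
  · exact h2.const_smul

/-- Tonelli for the area potential. -/
lemma circMean_areaPot {ν : Measure ℂ} [IsFiniteMeasure ν] {F : Set ℂ} {m M' A : ℝ}
    {V : Set ℂ} {x : ℂ} {r : ℝ} (hr : 0 < r) (hF : IsCompact F) (hν : ν Fᶜ = 0)
    (hd : Disjoint (sphere x r) F) (hVm : MeasurableSet V)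
    (hnn : ∀ y ∈ V, ∀ z ∈ sphere x r, 0 ≤ outer ν m M' A y z) :
    circMean (areaPot ν m M' A V) x r
      = ∫⁻ y in V, ENNReal.ofReal (Real.circleAverage (outer ν m M' A y) x r) := by
  have h1 : ∀ y ∈ V, ENNReal.ofReal (Real.circleAverage (outer ν m M' A y) x r)
      = (∫⁻ t in Ioc (0 : ℝ) (2 * Real.pi), ENNReal.ofReal (outer ν m M' A y (circleMap x r t))) /
    ENNReal.ofReal (2 * Real.pi) := by
    intro y hy
    have := circMean_ofReal (u := fun p => p.elim 0 (fun z => ENNReal.ofReal (outer ν m M' A y z)))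
      (g := outer ν m M' A y) (z := x) hr.le (fun _ _ => rfl)
      (circleIntegrable_outer hF hν (by rwa [abs_of_pos hr])) (hnn y hy)
    rw [← this]; rfl
  rw [setLIntegral_congr_fun hVm h1]
  unfold circMean
  simp only [ENNReal.div_eq_inv_mul]
  rw [lintegral_const_mul' _ _ (by simp [Real.pi_pos])]
  congr 1
  show (∫⁻ t in Ioc (0 : ℝ) (2 * Real.pi), ∫⁻ y in V,
    ENNReal.ofReal (outer ν m M' A y (circleMap x r t))) = _
  apply lintegral_lintegral_swap
  apply Measurable.aemeasurable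
  apply ENNReal.measurable_ofReal.comp
  unfold outer
  have h2 : Measurable (fun p : ℝ × ℂ => circleMap x r p.1) :=
    (continuous_circleMap x r).measurable.comp measurable_fst
  apply Measurable.const_mul
  apply Measurable.sub
  · exact ((measurable_pot ν).comp h2).add_const _
  · apply Measurable.const_mul
    exact Real.measurable_log.comp (h2.sub measurable_snd).norm

lemma circleAverage_outer_eq {ν : Measure ℂ} [IsFiniteMeasure ν] {F : Set ℂ} {m M' A : ℝ}
    {y x : ℂ} {r : ℝ} (hr : 0 < r) (hF : IsCompact F) (hν : ν Fᶜ = 0)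
    (hd : Disjoint (closedBall x r) F) :
    Real.circleAverage (outer ν m M' A y) x r
      = A * (pot ν x + M' - m * (Real.log r + Real.posLog (r⁻¹ * ‖x - y‖))) := by
  have h1 : CircleIntegrable (pot ν) x r := circleIntegrable_pot hF hν (by
      rw [abs_of_pos hr]; exact hd.mono_left sphere_subset_closedBall)
  have h2 : CircleIntegrable (fun z => Real.log ‖z - y‖) x r := circleIntegrable_log_norm_sub_const r
  rw [circleAverage_outer_aux h1 h2, circleAverage_pot_eq hF hν hr hd,
    circleAverage_log_norm_sub_const_eq_log_radius_add_posLog hr.ne']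

lemma log_le_aux {d r : ℝ} (hr : 0 < r) (hd : 0 < d) :
    Real.log d ≤ Real.log r + Real.posLog (r⁻¹ * d) := by
  have h1 : Real.log (r⁻¹ * d) ≤ Real.posLog (r⁻¹ * d) := by
    rw [Real.posLog_def]; exact le_max_right _ _
  rw [Real.log_mul (by positivity) hd.ne', Real.log_inv] at h1
  linarith

/-- the mean of the area potential: super-mean value property. -/
lemma circMean_areaPot_le {ν : Measure ℂ} [IsFiniteMeasure ν] {F : Set ℂ} {m M' A : ℝ}
    (hm : 0 ≤ m) (hA : 0 ≤ A)
    {V : Set ℂ} {x : ℂ} {r : ℝ} (hr : 0 < r) (hF : IsCompact F) (hν : ν Fᶜ = 0)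
    (hd : Disjoint (closedBall x r) F) (hVm : MeasurableSet V)
    (hnn : ∀ y ∈ V, ∀ z ∈ sphere x r, 0 ≤ outer ν m M' A y z) :
    circMean (areaPot ν m M' A V) x r ≤ areaPot ν m M' A V (x : OnePoint ℂ) := by
  rw [circMean_areaPot hr hF hν (hd.mono_left sphere_subset_closedBall) hVm hnn]
  show _ ≤ (∫⁻ y in V, ENNReal.ofReal (outer ν m M' A y x))
  apply lintegral_mono_ae
  filter_upwards [ae_ne V x] with y hy
  apply ENNReal.ofReal_le_ofReal
  rw [circleAverage_outer_eq hr hF hν hd, outer]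
  apply mul_le_mul_of_nonneg_left _ hA
  have hd : 0 < ‖x - y‖ := by
    rw [norm_pos_iff, sub_ne_zero]; exact hy.symm
  have := mul_le_mul_of_nonneg_left (log_le_aux hr hd) hm
  linarith

/-- the same with a gain coming from the part of the measure inside the disc. -/
lemma circMean_areaPot_gain {ν : Measure ℂ} [IsFiniteMeasure ν] {F : Set ℂ} {m M' A : ℝ}
    (hm : 0 ≤ m) (hA : 0 ≤ A)
    {V : Set ℂ} {x : ℂ} {r : ℝ} (hr : 0 < r) (hF : IsCompact F) (hν : ν Fᶜ = 0)
    (hd : Disjoint (closedBall x r) F) (hVm : MeasurableSet V)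
    (hnn : ∀ y ∈ V, ∀ z ∈ sphere x r, 0 ≤ outer ν m M' A y z) (hball : ball x (r / 2) ⊆ V) :
    circMean (areaPot ν m M' A V) x r + ENNReal.ofReal (A * m * Real.log 2 * (Real.pi * (r / 2) ^ 2))
      ≤ areaPot ν m M' A V (x : OnePoint ℂ) := by
  rw [circMean_areaPot hr hF hν (hd.mono_left sphere_subset_closedBall) hVm hnn]
  show _ ≤ (∫⁻ y in V, ENNReal.ofReal (outer ν m M' A y x))
  have hlog2 : 0 ≤ Real.log 2 := Real.log_nonneg (by norm_num)
  have e1 : ENNReal.ofReal (A * m * Real.log 2 * (Real.pi * (r / 2) ^ 2))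
      = ∫⁻ y in V, (ball x (r / 2)).indicator (fun _ => ENNReal.ofReal (A * m * Real.log 2)) y := by
    rw [lintegral_indicator measurableSet_ball, Measure.restrict_restrict measurableSet_ball,
      inter_eq_left.mpr hball, lintegral_const, Measure.restrict_apply_univ, Complex.volume_ball,
      ENNReal.ofReal_mul (by positivity)]
    congr 1
    rw [mul_comm Real.pi, ENNReal.ofReal_mul (by positivity), ENNReal.ofReal_pow (by positivity)]
    congr 1
    rw [← NNReal.coe_real_pi, ENNReal.ofReal_coe_nnreal]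
  rw [e1, ← lintegral_add_left']
  · apply lintegral_mono_ae
    filter_upwards [ae_ne V x, ae_restrict_mem hVm] with y hy hyV
    have hd0 : 0 < ‖x - y‖ := by
      rw [norm_pos_iff, sub_ne_zero]; exact hy.symm
    have hav : 0 ≤ Real.circleAverage (outer ν m M' A y) x r := by
      apply Real.circleAverage_nonneg_of_nonneg
      intro z hz
      rw [abs_of_pos hr] at hz
      exact hnn y hyV z hz
    rw [circleAverage_outer_eq hr hF hν hd] at hav ⊢
    by_cases hyb : y ∈ ball x (r / 2)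
    · rw [indicator_of_mem hyb, ← ENNReal.ofReal_add hav (by positivity)]
      apply ENNReal.ofReal_le_ofReal
      have h2 : ‖x - y‖ ≤ r / 2 := by
        rw [← dist_eq_norm, dist_comm]; exact (mem_ball.mp hyb).le
      have h3 : Real.log ‖x - y‖ ≤ Real.log r - Real.log 2 := by
        rw [← Real.log_div hr.ne' (by norm_num)]
        exact Real.log_le_log hd0 h2
      have h4 : 0 ≤ Real.posLog (r⁻¹ * ‖x - y‖) := Real.posLog_nonneg
      rw [outer]
      have h5 : A * (pot ν x + M' - m * (Real.log r + Real.posLog (r⁻¹ * ‖x - y‖)))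
          + A * m * Real.log 2
          = A * (pot ν x + M' - m * (Real.log r + Real.posLog (r⁻¹ * ‖x - y‖) - Real.log 2)) := by
        ring
      rw [h5]
      apply mul_le_mul_of_nonneg_left _ hA
      have h6 : Real.log ‖x - y‖ ≤ Real.log r + Real.posLog (r⁻¹ * ‖x - y‖) - Real.log 2 := by
        linarith
      have := mul_le_mul_of_nonneg_left h6 hm
      linarith
    · rw [indicator_of_notMem hyb, add_zero]
      apply ENNReal.ofReal_le_ofReal
      rw [outer]
      apply mul_le_mul_of_nonneg_left _ hA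
      have := mul_le_mul_of_nonneg_left (log_le_aux hr hd0) hm
      linarith
  · apply Measurable.aemeasurable
    apply ENNReal.measurable_ofReal.comp
    have : (fun y => Real.circleAverage (outer ν m M' A y) x r)
      = fun y => A * (pot ν x + M' - m * (Real.log r + Real.posLog (r⁻¹ * ‖x - y‖))) := by
      funext y; exact circleAverage_outer_eq hr hF hν hd
    rw [this]
    have h7 : Measurable (fun y : ℂ => Real.posLog (r⁻¹ * ‖x - y‖)) := by
      have h8 : (fun y : ℂ => Real.posLog (r⁻¹ * ‖x - y‖))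
          = fun y => max 0 (Real.log (r⁻¹ * ‖x - y‖)) := by
        funext y; rw [Real.posLog_def]; rfl
      rw [h8]
      apply Measurable.max measurable_const
      fun_prop
    fun_prop

lemma circleAverage_re {h : ℂ → ℂ} {x : ℂ} {r : ℝ} (hr : 0 < r)
    (hd : DifferentiableOn ℂ h (closedBall x r)) :
    CircleIntegrable (fun y => (h y).re) x r ∧
      Real.circleAverage (fun y => (h y).re) x r = (h x).re := by
  have h3 : CircleIntegrable h x r := by
    apply ContinuousOn.circleIntegrable hr.le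
    exact hd.continuousOn.mono sphere_subset_closedBall
  constructor
  · apply ContinuousOn.circleIntegrable hr.le
    exact Complex.continuous_re.comp_continuousOn
      (hd.continuousOn.mono sphere_subset_closedBall)
  · have h6 := Complex.reCLM.circleAverage_comp_comm h3
    have h7 : Real.circleAverage h x r = h x := by
      apply DiffContOnCl.circleAverage
      rw [abs_of_pos hr]
      apply DifferentiableOn.diffContOnCl
      rw [closure_ball x hr.ne']
      exact hd
    rw [h7] at h6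
    exact h6

/-- a bump function supported in `closedBall c (ρ / 2)`. -/
noncomputable def bump (c : ℂ) (ρ : ℝ) (x : ℂ) : ℝ :=
  (16 / (3 * ρ ^ 2)) ^ 2 * (max (ρ ^ 2 / 4 - ‖x - c‖ ^ 2) 0) ^ 2

lemma bump_continuous (c : ℂ) (ρ : ℝ) : Continuous (bump c ρ) := by
  unfold bump
  fun_prop

lemma bump_nonneg (c : ℂ) (ρ : ℝ) (x : ℂ) : 0 ≤ bump c ρ x := by
  unfold bump; positivity

lemma bump_eq_zero {c : ℂ} {ρ : ℝ} (hρ : 0 < ρ) {x : ℂ} (hx : ρ / 2 ≤ dist x c) :
    bump c ρ x = 0 := by
  unfold bump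
  have : ρ ^ 2 / 4 - ‖x - c‖ ^ 2 ≤ 0 := by
    rw [← dist_eq_norm]; nlinarith
  rw [max_eq_right this]; simp

lemma one_le_bump {c : ℂ} {ρ : ℝ} (hρ : 0 < ρ) {x : ℂ} (hx : dist x c < ρ / 4) :
    1 ≤ bump c ρ x := by
  unfold bump
  rw [← mul_pow]
  have h1 : 3 * ρ ^ 2 / 16 ≤ max (ρ ^ 2 / 4 - ‖x - c‖ ^ 2) 0 := by
    apply le_max_of_le_left
    rw [← dist_eq_norm]
    have := dist_nonneg (x := x) (y := c)
    nlinarith
  have h2 : 1 ≤ 16 / (3 * ρ ^ 2) * max (ρ ^ 2 / 4 - ‖x - c‖ ^ 2) 0 := by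
    calc (1:ℝ) = 16 / (3 * ρ ^ 2) * (3 * ρ ^ 2 / 16) := by field_simp
      _ ≤ _ := mul_le_mul_of_nonneg_left h1 (by positivity)
  exact one_le_pow₀ h2

lemma sq_pos_part_le (s t : ℝ) :
    (max t 0) ^ 2 ≤ (max s 0) ^ 2 + 2 * max s 0 * (t - s) + (t - s) ^ 2 := by
  rcases le_total s 0 with hs | hs
  · rw [max_eq_right hs]
    rcases le_total t 0 with ht | ht
    · rw [max_eq_right ht]; nlinarith [sq_nonneg (t - s)]
    · rw [max_eq_left ht]; nlinarith
  · rw [max_eq_left hs]
    rcases le_total t 0 with ht | ht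
    · rw [max_eq_right ht]; nlinarith [sq_nonneg t]
    · rw [max_eq_left ht]; nlinarith

lemma circMean_bump {u : OnePoint ℂ → ℝ≥0∞} {c x : ℂ} {ρ r : ℝ} (hρ : 0 < ρ) (hr : 0 < r)
    (hrρ : r ≤ ρ) (hx : dist x c ≤ ρ)
    (hu : ∀ y ∈ sphere x r, u (y : OnePoint ℂ) ≤ ENNReal.ofReal (bump c ρ y)) :
    circMean u x r ≤ ENNReal.ofReal (bump c ρ x + 9 * (16 / (3 * ρ ^ 2)) ^ 2 * ρ ^ 2 * r ^ 2) := by
  set k : ℝ := (16 / (3 * ρ ^ 2)) ^ 2 with hk
  have hk0 : 0 ≤ k := by positivity
  set t0 : ℝ := max (ρ ^ 2 / 4 - ‖x - c‖ ^ 2) 0 with ht0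
  have ht00 : 0 ≤ t0 := le_max_right _ _
  let h : ℂ → ℂ := fun y => ((k * (t0 ^ 2 + 9 * ρ ^ 2 * r ^ 2) : ℝ) : ℂ)
    - ((4 * k * t0 : ℝ) : ℂ) * ((starRingEnd ℂ) (x - c) * (y - x))
  have hd : DifferentiableOn ℂ h (closedBall x r) := by
    apply Differentiable.differentiableOn
    fun_prop
  have hmean := circleAverage_re hr hd
  have hval : (h x).re = bump c ρ x + 9 * k * ρ ^ 2 * r ^ 2 := by
    simp only [h, sub_self, mul_zero, sub_zero, Complex.ofReal_re, bump]
    rw [← hk, ← ht0]; ring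
  have hle : ∀ y ∈ sphere x r, bump c ρ y ≤ (h y).re := by
    intro y hy
    rw [mem_sphere, dist_eq_norm] at hy
    set q : ℝ := ((starRingEnd ℂ) (x - c) * (y - x)).re with hq
    have hre : (h y).re = k * (t0 ^ 2 + 9 * ρ ^ 2 * r ^ 2) - 4 * k * t0 * q := by
      simp only [h, Complex.sub_re, Complex.ofReal_re, Complex.re_ofReal_mul, hq]
    have hexp : ‖y - c‖ ^ 2 = ‖x - c‖ ^ 2 + 2 * q + r ^ 2 := by
      rw [← hy, ← Complex.normSq_eq_norm_sq, ← Complex.normSq_eq_norm_sq,
        ← Complex.normSq_eq_norm_sq, hq]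
      simp only [Complex.normSq_apply, Complex.sub_re, Complex.sub_im, Complex.mul_re,
        Complex.conj_re, Complex.conj_im]
      ring
    have hqabs : |q| ≤ ρ * r := by
      calc |q| ≤ ‖(starRingEnd ℂ) (x - c) * (y - x)‖ := Complex.abs_re_le_norm _
        _ = ‖x - c‖ * ‖y - x‖ := by rw [norm_mul, RCLike.norm_conj]
        _ ≤ ρ * r := by
            rw [hy]; rw [dist_eq_norm] at hx
            exact mul_le_mul_of_nonneg_right hx hr.le
    have h1 := sq_pos_part_le (ρ ^ 2 / 4 - ‖x - c‖ ^ 2) (ρ ^ 2 / 4 - ‖y - c‖ ^ 2)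
    rw [← ht0] at h1
    have h2 : ρ ^ 2 / 4 - ‖y - c‖ ^ 2 - (ρ ^ 2 / 4 - ‖x - c‖ ^ 2) = -(2 * q + r ^ 2) := by
      rw [hexp]; ring
    rw [h2] at h1
    have h3 : (-(2 * q + r ^ 2)) ^ 2 ≤ 9 * ρ ^ 2 * r ^ 2 := by
      have h4 : |2 * q + r ^ 2| ≤ 3 * ρ * r := by
        calc |2 * q + r ^ 2| ≤ |2 * q| + |r ^ 2| := abs_add_le _ _
          _ = 2 * |q| + r ^ 2 := by rw [abs_mul, abs_of_nonneg (sq_nonneg r)]; norm_num
          _ ≤ 3 * ρ * r := by nlinarith
      have h5 : (2 * q + r ^ 2) ^ 2 ≤ (3 * ρ * r) ^ 2 := by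
        rw [← sq_abs (2 * q + r ^ 2)]
        exact pow_le_pow_left₀ (abs_nonneg _) h4 2
      nlinarith
    rw [hre]
    unfold bump
    rw [← hk]
    have h6 : (max (ρ ^ 2 / 4 - ‖y - c‖ ^ 2) 0) ^ 2
        ≤ (t0 ^ 2 + 9 * ρ ^ 2 * r ^ 2) - 4 * t0 * q := by
      have : 0 ≤ 2 * t0 * r ^ 2 := by positivity
      nlinarith
    calc k * (max (ρ ^ 2 / 4 - ‖y - c‖ ^ 2) 0) ^ 2
        ≤ k * ((t0 ^ 2 + 9 * ρ ^ 2 * r ^ 2) - 4 * t0 * q) := mul_le_mul_of_nonneg_left h6 hk0
      _ = _ := by ring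
  apply circMean_le_of_real hr.le (g := fun y => (h y).re)
  · intro y hy
    exact (hu y hy).trans (ENNReal.ofReal_le_ofReal (hle y hy))
  · exact hmean.1
  · intro y hy
    exact (bump_nonneg c ρ y).trans (hle y hy)
  · rw [hmean.2, hval]

/-- Glueing: all but finitely many components. -/
lemma tail_barrier {D : Set (OnePoint ℂ)} (hD : IsOpen D)
    {ν : Measure ℂ} [IsFiniteMeasure ν] {F : Set ℂ} (hF : IsCompact F) (hν : ν Fᶜ = 0)
    (hm : 0 < (ν univ).toReal) (hFD : Disjoint F (fin D)) {c : ℂ}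
    {ρ : ℝ} (hρ : 0 < ρ) {M' : ℝ}
    (hM1 : ∀ x ∉ F, ∀ y ∈ closedBall c ρ,
      0 ≤ pot ν x + M' - (ν univ).toReal * Real.log ‖x - y‖)
    {R₀ : ℝ} (hFR : F ⊆ ball 0 R₀) (hcR : closedBall c ρ ⊆ ball 0 R₀)
    {z₁ : OnePoint ℂ} (hz₁c : ∀ ζ : ℂ, (ζ : OnePoint ℂ) = z₁ → 2 * ρ ≤ dist ζ c) :
    ∃ B : ℝ≥0∞, B ≠ ⊤ ∧ ∀ V' : Set ℂ, IsOpen V' → V' ⊆ fin D ∩ ball c ρ →
      IsOpen ((fin D ∩ ball c ρ) \ V') →
      ∃ u : OnePoint ℂ → ℝ≥0∞, Good D c ρ R₀ u ∧
      (∀ x ∈ V', dist x c < ρ / 4 → 1 ≤ u (x : OnePoint ℂ)) ∧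
      u z₁ ≤ B * volume V' := by
  classical
  set m := (ν univ).toReal with hmdef
  have hlog2 : 0 < Real.log 2 := Real.log_pos (by norm_num)
  set k : ℝ := (16 / (3 * ρ ^ 2)) ^ 2 with hk
  have hkpos : 0 < k := by positivity
  set A : ℝ := 36 * k * ρ ^ 2 / (m * Real.pi * Real.log 2) with hA
  have hApos : 0 < A := by positivity
  obtain ⟨B, hB1, hB2⟩ : ∃ B : ℝ, (A * M' ≤ B) ∧ ∀ ζ : ℂ, (ζ : OnePoint ℂ) = z₁ →
      A * (pot ν ζ + M' - m * Real.log ρ) ≤ B := by
    by_cases hz : ∃ ζ : ℂ, (ζ : OnePoint ℂ) = z₁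
    · obtain ⟨ζ, hζ⟩ := hz
      refine ⟨max (A * M') (A * (pot ν ζ + M' - m * Real.log ρ)), le_max_left _ _, ?_⟩
      intro ζ' hζ'
      have : ζ' = ζ := OnePoint.coe_injective (hζ'.trans hζ.symm)
      rw [this]; exact le_max_right _ _
    · exact ⟨A * M', le_rfl, fun ζ hζ => absurd ⟨ζ, hζ⟩ hz⟩
  refine ⟨ENNReal.ofReal B, ENNReal.ofReal_ne_top, ?_⟩
  intro V' hV'o hV'sub hV'cl
  have hballF : ∀ x ∈ fin D, x ∉ F := fun x hx hxF => Set.disjoint_left.mp hFD hxF hx
  have hnn : ∀ y ∈ V', ∀ z ∉ F, 0 ≤ outer ν m M' A y z := by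
    intro y hy z hz
    have := hM1 z hz y (ball_subset_closedBall (hV'sub hy).2)
    unfold outer; positivity
  let Φ : ℂ → ℝ := fun x => if x ∈ V' then bump c ρ x else 0
  have hΦ0 : ∀ x, 0 ≤ Φ x := by
    intro x; simp only [Φ]; split_ifs
    · exact bump_nonneg c ρ x
    · exact le_rfl
  let u₁ : OnePoint ℂ → ℝ≥0∞ := fun p => p.elim 0 (fun x => ENNReal.ofReal (Φ x))
  have hu₁ : ∀ x : ℂ, u₁ (x : OnePoint ℂ) = ENNReal.ofReal (Φ x) := fun x => rfl
  have hfarΦ : ∀ y, ρ / 2 ≤ dist y c → Φ y = 0 := by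
    intro y hy
    simp only [Φ]
    split_ifs
    · exact bump_eq_zero hρ hy
    · rfl
  have hlocal : ∀ x ∈ fin D, ∃ e > 0, ball x e ⊆ fin D ∧
      ((∀ y ∈ ball x e, Φ y = 0) ∨ (ball x e ⊆ V' ∧ e ≤ ρ)) := by
    intro x hx
    obtain ⟨e₀, he₀, hsub₀⟩ := Metric.isOpen_iff.mp (isOpen_fin hD) x hx
    by_cases hxV : x ∈ V'
    · obtain ⟨e₁, he₁, hsub₁⟩ := Metric.isOpen_iff.mp hV'o x hxV
      refine ⟨min (min e₀ e₁) ρ, by positivity, ?_, Or.inr ⟨?_, min_le_right _ _⟩⟩
      · exact (ball_subset_ball ((min_le_left _ _).trans (min_le_left _ _))).trans hsub₀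
      · exact (ball_subset_ball ((min_le_left _ _).trans (min_le_right _ _))).trans hsub₁
    · by_cases hxc : dist x c < ρ
      · obtain ⟨e₁, he₁, hsub₁⟩ := Metric.isOpen_iff.mp hV'cl x ⟨⟨hx, mem_ball.mpr hxc⟩, hxV⟩
        refine ⟨min e₀ e₁, by positivity, ?_, Or.inl ?_⟩
        · exact (ball_subset_ball (min_le_left _ _)).trans hsub₀
        · intro y hy
          have : y ∉ V' := (hsub₁ (ball_subset_ball (min_le_right _ _) hy)).2
          simp only [Φ]; rw [if_neg this]
      · push Not at hxc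
        refine ⟨min e₀ (ρ / 2), by positivity, ?_, Or.inl ?_⟩
        · exact (ball_subset_ball (min_le_left _ _)).trans hsub₀
        · intro y hy
          apply hfarΦ
          have h1 : dist y x < ρ / 2 := lt_of_lt_of_le (mem_ball.mp hy) (min_le_right _ _)
          have h2 := dist_triangle_left x c y
          linarith
  have hu₁lsc : LowerSemicontinuousOn u₁ D := by
    intro p hp
    apply LowerSemicontinuousAt.lowerSemicontinuousWithinAt
    induction p using OnePoint.rec with
    | infty =>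
      intro a ha
      exact absurd ha (by simp [u₁])
    | coe x =>
      obtain ⟨e, he, hsub, h⟩ := hlocal x hp
      rcases h with h | ⟨h, -⟩
      · apply lsc_of_near (g := fun _ => 0) _ continuousAt_const
        filter_upwards [ball_mem_nhds x he] with y hy
        rw [hu₁, h y hy]
      · apply lsc_of_near (g := bump c ρ) _ (bump_continuous c ρ).continuousAt
        filter_upwards [ball_mem_nhds x he] with y hy
        rw [hu₁]; simp only [Φ]; rw [if_pos (h hy)]
  have hu₂lsc : LowerSemicontinuousOn (areaPot ν m M' A V') D := areaPot_lsc V' hF hν hFD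
  have hu₂mean : ∀ x r, 0 < r → closedBall x r ⊆ fin D →
      circMean (areaPot ν m M' A V') x r ≤ areaPot ν m M' A V' (x : OnePoint ℂ) := by
    intro x r hr hsub
    apply circMean_areaPot_le hm.le hApos.le hr hF hν _ hV'o.measurableSet
    · intro y hy z hz
      exact hnn y hy z (hballF z (hsub (sphere_subset_closedBall hz)))
    · rw [Set.disjoint_left]
      intro y hy; exact hballF y (hsub hy)
  have hu₁zero : ∀ x r, 0 < r → (∀ y ∈ sphere x r, Φ y = 0) → circMean u₁ x r = 0 := by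
    intro x r hr h
    have h1 : circMean u₁ x r ≤ ENNReal.ofReal 0 := by
      apply circMean_le_of_real hr.le (g := fun _ => 0)
      · intro y hy; rw [hu₁, h y hy]
      · exact circleIntegrable_const 0 x r
      · intro y hy; exact le_rfl
      · rw [Real.circleAverage_const]
    simpa using h1
  refine ⟨fun p => u₁ p + areaPot ν m M' A V' p, ⟨hu₁lsc.add hu₂lsc, ?_, ?_, ?_⟩, ?_, ?_⟩
  · intro x hx
    obtain ⟨e, he, hsub, h⟩ := hlocal x hx
    refine ⟨e, he, ?_⟩
    intro r hr0 hr
    have hcb : closedBall x r ⊆ ball x e := closedBall_subset_ball hr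
    have hsp : ∀ y ∈ sphere x r, y ∈ ball x e := fun y hy => hcb (sphere_subset_closedBall hy)
    rw [circMean_add hu₁lsc hr0.le (fun y hy => hsub (hsp y hy))]
    rcases h with h | ⟨h, heρ⟩
    · rw [hu₁zero x r hr0 (fun y hy => h y (hsp y hy)), hu₁, h x (mem_ball_self he),
        ENNReal.ofReal_zero]
      exact add_le_add le_rfl (hu₂mean x r hr0 (hcb.trans hsub))
    · have hxV : x ∈ V' := h (mem_ball_self he)
      have h1 : circMean u₁ x r ≤ ENNReal.ofReal (bump c ρ x + 9 * k * ρ ^ 2 * r ^ 2) := by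
        apply circMean_bump hρ hr0 (by linarith) (mem_ball.mp (hV'sub hxV).2).le
        intro y hy
        rw [hu₁]; simp only [Φ]; rw [if_pos (h (hsp y hy))]
      have h2 := circMean_areaPot_gain (m := m) (M' := M') (A := A) (V := V') (x := x) (r := r)
        hm.le hApos.le hr0 hF hν (by
          rw [Set.disjoint_left]
          intro y hy; exact hballF y (hsub (hcb hy))) hV'o.measurableSet
        (fun y hy z hz => hnn y hy z (hballF z (hsub (hsp z hz))))
        ((ball_subset_ball (by linarith)).trans h)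
      have h3 : A * m * Real.log 2 * (Real.pi * (r / 2) ^ 2) = 9 * k * ρ ^ 2 * r ^ 2 := by
        rw [hA]; field_simp; ring
      rw [h3] at h2
      have h4 : u₁ (x : OnePoint ℂ) = ENNReal.ofReal (bump c ρ x) := by
        rw [hu₁]; simp only [Φ]; rw [if_pos hxV]
      calc circMean u₁ x r + circMean (areaPot ν m M' A V') x r
          ≤ ENNReal.ofReal (bump c ρ x + 9 * k * ρ ^ 2 * r ^ 2)
            + circMean (areaPot ν m M' A V') x r := add_le_add h1 le_rfl
        _ = ENNReal.ofReal (bump c ρ x) + (circMean (areaPot ν m M' A V') x r +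
            ENNReal.ofReal (9 * k * ρ ^ 2 * r ^ 2)) := by
            rw [ENNReal.ofReal_add (bump_nonneg c ρ x) (by positivity)]; ring
        _ ≤ _ := by rw [h4]; exact add_le_add le_rfl h2
  · intro z d hd h r hr0 hr
    have hcb : closedBall z r ⊆ ball z d := closedBall_subset_ball hr
    have hsp : ∀ y ∈ sphere z r, y ∈ ball z d := fun y hy => hcb (sphere_subset_closedBall hy)
    rw [circMean_add hu₁lsc hr0.le (fun y hy => (h y (hsp y hy)).1)]
    rw [hu₁zero z r hr0 (fun y hy => hfarΦ y (by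
      have := (h y (hsp y hy)).2; linarith)), zero_add]
    exact le_add_left (hu₂mean z r hr0 (fun y hy => (h y (hcb hy)).1))
  · intro hinf r hr
    have hR₀ : 0 < R₀ := by
      have := hcR (mem_closedBall_self hρ.le)
      rw [mem_ball] at this
      exact lt_of_le_of_lt dist_nonneg this
    have hr0 : 0 < r := hR₀.trans hr
    have hFr : F ⊆ ball 0 r := hFR.trans (ball_subset_ball hr.le)
    rw [circMean_add hu₁lsc hr0.le (fun y hy => hinf y (by
      rw [mem_sphere, dist_zero_right] at hy; rw [hy]; exact hr))]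
    rw [hu₁zero 0 r hr0 (fun y hy => hfarΦ y (by
      by_contra hcon
      push Not at hcon
      have h1 := hcR (mem_closedBall.mpr (by linarith : dist y c ≤ ρ))
      rw [mem_ball] at h1
      rw [mem_sphere] at hy
      linarith)), zero_add]
    apply le_add_left
    have hnotF : ∀ y ∈ sphere (0:ℂ) r, y ∉ F := by
      intro y hy hyF
      have h1 := hFr hyF
      rw [mem_sphere] at hy; rw [mem_ball] at h1
      linarith
    rw [circMean_areaPot hr0 hF hν (by
      rw [Set.disjoint_left]; exact hnotF) hV'o.measurableSet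
      (fun y hy z hz => hnn y hy z (hnotF z hz))]
    show _ ≤ (∫⁻ _ in V', ENNReal.ofReal (A * M'))
    apply setLIntegral_mono measurable_const
    intro y hy
    apply ENNReal.ofReal_le_ofReal
    have hyr : y ∈ ball (0:ℂ) r :=
      ball_subset_ball hr.le (hcR (ball_subset_closedBall (hV'sub hy).2))
    exact (outer_mean_infty hF hν hr0 hFr hyr).2.le
  · intro x hx hxc
    apply le_add_right
    rw [hu₁]; simp only [Φ]; rw [if_pos hx, ← ENNReal.ofReal_one]
    exact ENNReal.ofReal_le_ofReal (one_le_bump hρ hxc)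
  · induction z₁ using OnePoint.rec with
    | infty =>
      show 0 + (∫⁻ _ in V', ENNReal.ofReal (A * M')) ≤ _
      rw [zero_add, setLIntegral_const]
      gcongr
    | coe ζ =>
      have h1 := hz₁c ζ rfl
      have h2 : u₁ (ζ : OnePoint ℂ) = 0 := by
        rw [hu₁, hfarΦ ζ (by linarith), ENNReal.ofReal_zero]
      show u₁ (ζ : OnePoint ℂ) + (∫⁻ y in V', ENNReal.ofReal (outer ν m M' A y ζ)) ≤ _
      rw [h2, zero_add, ← setLIntegral_const]
      apply setLIntegral_mono measurable_const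
      intro y hy
      apply ENNReal.ofReal_le_ofReal
      refine le_trans ?_ (hB2 ζ rfl)
      unfold outer
      apply mul_le_mul_of_nonneg_left _ hApos.le
      have h3 : ρ ≤ ‖ζ - y‖ := by
        rw [← dist_eq_norm]
        have h4 := mem_ball.mp (hV'sub hy).2
        have h5 := dist_triangle ζ y c
        linarith
      have h4 : Real.log ρ ≤ Real.log ‖ζ - y‖ := Real.log_le_log hρ h3
      have h5 := mul_le_mul_of_nonneg_left h4 hm.le
      linarith

/-! ### Assembling the local superharmonic functions -/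

lemma Kset_notMem {α ε : ℝ} {D : Set (OnePoint ℂ)} (hD : IsOpen D) {z : ℂ}
    (hz : z ∈ Kset α D ε) : z ∉ fin D := by
  intro h
  have h1 := hz.1
  rw [hD.frontier_eq] at h1
  exact h1.2 h

lemma mem_frontier_cc {α ε : ℝ} {D : Set (OnePoint ℂ)} (hD : IsOpen D) {z : ℂ}
    (hz : z ∈ Kset α D ε) {V : Set ℂ} (hV : V ⊆ fin D) {x : ℂ}
    (hcl : z ∈ closure (connectedComponentIn V x)) : z ∈ frontier (connectedComponentIn V x) := by
  refine ⟨hcl, ?_⟩
  intro h
  exact Kset_notMem hD hz (hV (connectedComponentIn_subset _ _ (interior_subset h)))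

lemma Kset_copy {α ε : ℝ} {D : Set (OnePoint ℂ)} (hD : IsOpen D) {z : ℂ}
    (hz : z ∈ Kset α D ε) {c : ℂ} {ρ : ℝ} (hρ : 0 < ρ) (hρε : 2 * ρ ≤ ε)
    (hzc : z ∈ ball c (ρ / 4)) {x : ℂ} (hx : x ∈ fin D ∩ ball c ρ)
    (hcl : z ∈ closure (connectedComponentIn (fin D ∩ ball c ρ) x)) :
    ∃ θ : ℝ, connectedComponentIn (fin D ∩ ball c ρ) x ⊆ copyW α z θ := by
  have hsub : fin D ∩ ball c ρ ⊆ fin D ∩ ball z ε := by
    apply inter_subset_inter_right
    intro y hy
    rw [mem_ball] at hy hzc ⊢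
    have := dist_triangle_right y z c
    linarith
  have hmono := connectedComponentIn_mono x hsub
  obtain ⟨θ, hθ⟩ := hz.2 x (hsub hx) (mem_frontier_cc hD hz inter_subset_left
    (closure_mono hmono hcl))
  exact ⟨θ, hmono.trans hθ⟩

lemma Kset_mono {α ε ε' : ℝ} {D : Set (OnePoint ℂ)} (hD : IsOpen D) (h : ε' ≤ ε) :
    Kset α D ε ⊆ Kset α D ε' := by
  intro z hz
  refine ⟨hz.1, ?_⟩
  intro x hx hfr
  have hsub : fin D ∩ ball z ε' ⊆ fin D ∩ ball z ε :=
    inter_subset_inter_right _ (ball_subset_ball h)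
  have hmono := connectedComponentIn_mono x hsub
  obtain ⟨θ, hθ⟩ := hz.2 x (hsub hx) (mem_frontier_cc hD hz inter_subset_left
    (closure_mono hmono hfr.1))
  exact ⟨θ, hmono.trans hθ⟩

lemma Good.zero {D : Set (OnePoint ℂ)} {c : ℂ} {ρ R₀ : ℝ} : Good D c ρ R₀ (fun _ => 0) := by
  have h : ∀ z r, circMean (fun _ => 0) z r = 0 := by
    intro z r; unfold circMean; simp
  exact ⟨lowerSemicontinuousOn_const, fun z _ => ⟨1, one_pos, fun r _ _ => (h z r).le⟩,
    fun z _ _ _ r _ _ => (h z r).le, fun _ r _ => (h 0 r).le⟩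

lemma ball_case {α : ℝ} (hα : 1 / 2 < α) (hα1 : α < 1) {D : Set (OnePoint ℂ)} (hD : IsOpen D)
    {ν : Measure ℂ} [IsFiniteMeasure ν] {F : Set ℂ} (hF : IsCompact F) (hν : ν Fᶜ = 0)
    (hm : 0 < (ν univ).toReal) (hFD : Disjoint F (fin D)) {c : ℂ} (hcD : c ∉ fin D)
    {ρ : ℝ} (hρ : 0 < ρ) (hρ1 : ρ ≤ 1) (hFc : Disjoint (closedBall c ρ) F) {M' : ℝ}
    (hM1 : ∀ x ∉ F, ∀ y ∈ closedBall c ρ,
      0 ≤ pot ν x + M' - (ν univ).toReal * Real.log ‖x - y‖)
    (hM2 : ∀ x ∉ F, 0 ≤ pot ν x + M' - (ν univ).toReal * Real.log (3 * ρ / 4))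
    {R₀ : ℝ} (hFR : F ⊆ ball 0 R₀) (hcR : closedBall c ρ ⊆ ball 0 R₀)
    {ε : ℝ} (hρε : 2 * ρ ≤ ε)
    {z₁ : OnePoint ℂ} (hz₁c : ∀ ζ : ℂ, (ζ : OnePoint ℂ) = z₁ → 2 * ρ ≤ dist ζ c)
    {δ : ℝ} (hδ : 0 < δ) :
    ∃ u : OnePoint ℂ → ℝ≥0∞, Good D c ρ R₀ u ∧
      (∀ z ∈ Kset α D ε, z ∈ ball c (ρ / 4) → 1 ≤ liminf u (𝓝[D] (z : OnePoint ℂ))) ∧
      u z₁ ≤ ENNReal.ofReal δ := by
  classical
  have hR₀ : 0 < R₀ := by
    have := hcR (mem_closedBall_self hρ.le)
    rw [mem_ball] at this
    exact lt_of_le_of_lt dist_nonneg this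
  set V : Set ℂ := fin D ∩ ball c ρ with hV
  have hVo : IsOpen V := (isOpen_fin hD).inter isOpen_ball
  by_cases hVe : V = ∅
  · -- no points of D near c
    refine ⟨fun _ => 0, Good.zero, ?_, by simp⟩
    intro z hz hzc
    exfalso
    have h1 : z ∈ closure (fin D) := by
      have h2 := hz.1.1
      rw [mem_closure_iff_nhdsWithin_neBot] at h2 ⊢
      rw [OnePoint.nhdsWithin_coe, map_neBot_iff] at h2
      exact h2
    rw [Metric.mem_closure_iff] at h1
    obtain ⟨b, hb, hzb⟩ := h1 (ρ / 4) (by positivity)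
    have : b ∈ V := ⟨hb, by
      rw [mem_ball] at hzc ⊢
      have := dist_triangle_left b c z
      linarith⟩
    rw [hVe] at this
    exact this
  · have hVne : V.Nonempty := nonempty_iff_ne_empty.mpr hVe
    -- the components
    let 𝒰 : Set (Set ℂ) := (fun x => connectedComponentIn V x) '' V
    have h𝒰o : ∀ U ∈ 𝒰, IsOpen U := by
      rintro U ⟨x, hx, rfl⟩
      exact hVo.connectedComponentIn
    have h𝒰sub : ∀ U ∈ 𝒰, U ⊆ V := by
      rintro U ⟨x, hx, rfl⟩
      exact connectedComponentIn_subset _ _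
    have h𝒰ne : ∀ U ∈ 𝒰, U.Nonempty := by
      rintro U ⟨x, hx, rfl⟩
      exact ⟨x, mem_connectedComponentIn hx⟩
    have h𝒰eq : ∀ U ∈ 𝒰, ∀ y ∈ U, U = connectedComponentIn V y := by
      rintro U ⟨x, hx, rfl⟩ y hy
      exact connectedComponentIn_eq hy
    have h𝒰c : 𝒰.Countable := by
      apply Set.PairwiseDisjoint.countable_of_isOpen (s := id) _ h𝒰o h𝒰ne
      intro U hU U' hU' hne
      rw [Function.onFun, Set.disjoint_left]
      intro y hy hy'
      exact hne ((h𝒰eq U hU y hy).trans (h𝒰eq U' hU' y hy').symm)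
    have h𝒰nonempty : 𝒰.Nonempty := hVne.image _
    obtain ⟨f, hf⟩ := h𝒰c.exists_eq_range h𝒰nonempty
    have hf𝒰 : ∀ j, f j ∈ 𝒰 := fun j => by rw [hf]; exact mem_range_self j
    -- tail sets
    let T : ℕ → Set ℂ := fun J => V \ ⋃ j ∈ Finset.range J, f j
    have hTsub : ∀ J, T J ⊆ V := fun J => sdiff_subset
    have hTo : ∀ J, IsOpen (T J) := by
      intro J
      rw [isOpen_iff_mem_nhds]
      intro x hx
      have h1 : connectedComponentIn V x ∈ 𝓝 x :=
        hVo.connectedComponentIn.mem_nhds (mem_connectedComponentIn hx.1)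
      apply mem_of_superset h1
      intro y hy
      refine ⟨connectedComponentIn_subset _ _ hy, ?_⟩
      intro hy2
      rw [mem_iUnion₂] at hy2
      obtain ⟨j, hj, hyj⟩ := hy2
      apply hx.2
      rw [mem_iUnion₂]
      refine ⟨j, hj, ?_⟩
      rw [h𝒰eq (f j) (hf𝒰 j) y hyj, ← connectedComponentIn_eq hy]
      exact mem_connectedComponentIn hx.1
    have hTcl : ∀ J, IsOpen (V \ T J) := by
      intro J
      have : V \ T J = ⋃ j ∈ Finset.range J, f j := by
        simp only [T]
        rw [sdiff_sdiff_right_self]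
        apply inter_eq_right.mpr
        intro y hy
        rw [mem_iUnion₂] at hy
        obtain ⟨j, hj, hyj⟩ := hy
        exact h𝒰sub _ (hf𝒰 j) hyj
      rw [this]
      exact isOpen_biUnion (fun j _ => h𝒰o _ (hf𝒰 j))
    have hTanti : Antitone T := by
      intro J J' h
      apply sdiff_subset_sdiff_right
      apply biUnion_subset_biUnion_left
      intro j hj
      exact Finset.mem_coe.mpr (Finset.range_mono h hj)
    have hTinter : ⋂ J, T J = ∅ := by
      rw [eq_empty_iff_forall_notMem]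
      intro x hx
      rw [mem_iInter] at hx
      have hxV := (hx 0).1
      have h1 : connectedComponentIn V x ∈ 𝒰 := ⟨x, hxV, rfl⟩
      rw [hf] at h1
      obtain ⟨j, hj⟩ := h1
      apply (hx (j + 1)).2
      rw [mem_iUnion₂]
      exact ⟨j, Finset.mem_range.mpr (Nat.lt_succ_self j), by
        rw [hj]; exact mem_connectedComponentIn hxV⟩
    have hVfin : volume V ≠ ⊤ :=
      ((measure_mono inter_subset_right).trans_lt measure_ball_lt_top).ne
    have hTlim : Tendsto (fun J => volume (T J)) atTop (𝓝 0) := by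
      have h1 := tendsto_measure_iInter_atTop (μ := (volume : Measure ℂ)) (s := T)
        (fun J => (hTo J).measurableSet.nullMeasurableSet) hTanti
        ⟨0, ((measure_mono (hTsub 0)).trans_lt hVfin.lt_top).ne⟩
      rw [hTinter, measure_empty] at h1
      exact h1
    obtain ⟨B, hB, htail⟩ := tail_barrier hD hF hν hm hFD hρ hM1 hFR hcR hz₁c
    have hBlim : Tendsto (fun J => B * volume (T J)) atTop (𝓝 0) := by
      have := ENNReal.Tendsto.const_mul hTlim (Or.inr hB)
      rwa [mul_zero] at this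
    have hδ2 : (0:ℝ≥0∞) < ENNReal.ofReal (δ / 2) := ENNReal.ofReal_pos.mpr (by positivity)
    obtain ⟨J, hJ⟩ := (hBlim.eventually (ge_mem_nhds hδ2)).exists
    obtain ⟨Ψ, hΨgood, hΨ1, hΨz⟩ := htail (T J) (hTo J) (hTsub J) (hTcl J)
    -- finitely many components
    have hfinite : ∀ N : ℕ, ∀ η : ℝ, 0 < η → ∃ u : OnePoint ℂ → ℝ≥0∞, Good D c ρ R₀ u ∧
        (∀ j < N, ∀ z ∈ Kset α D ε, z ∈ ball c (ρ / 4) → z ∈ closure (f j) →
          ∃ r > 0, ∀ x ∈ f j, dist x z < r → 1 ≤ u (x : OnePoint ℂ)) ∧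
        u z₁ ≤ ENNReal.ofReal η := by
      intro N
      induction N with
      | zero =>
        intro η _
        exact ⟨fun _ => 0, Good.zero, fun j hj => absurd hj (Nat.not_lt_zero j), by simp⟩
      | succ N ih =>
        intro η hη
        obtain ⟨u, hu1, hu2, hu3⟩ := ih (η / 2) (by positivity)
        have hcompl : IsOpen (V \ f N) := by
          have h0 : T 0 = V := by simp [T]
          rw [isOpen_iff_mem_nhds]
          intro x hx
          have h1 : connectedComponentIn V x ∈ 𝓝 x :=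
            hVo.connectedComponentIn.mem_nhds (mem_connectedComponentIn hx.1)
          apply mem_of_superset h1
          intro y hy
          refine ⟨connectedComponentIn_subset _ _ hy, ?_⟩
          intro hyj
          apply hx.2
          rw [h𝒰eq (f N) (hf𝒰 N) y hyj, ← connectedComponentIn_eq hy]
          exact mem_connectedComponentIn hx.1
        obtain ⟨w, hw1, hw2, hw3⟩ := comp_barrier hα hα1 hD hF hν hm hFD hcD hρ hρ1 hFc hM1 hM2
          hFR hcR (h𝒰o _ (hf𝒰 N)) (h𝒰sub _ (hf𝒰 N)) hcompl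
          (K' := Kset α D ε ∩ ball c (ρ / 4) ∩ closure (f N))
          (fun z hz => hz.1.2)
          (by
            intro z hz
            refine ⟨hz.2, ?_⟩
            obtain ⟨x, hx, hxe⟩ := hf𝒰 N
            have h1 := hz.2
            rw [← hxe] at h1 ⊢
            exact Kset_copy hD hz.1.1 hρ hρε hz.1.2 hx h1)
          (z₁ := z₁) (fun ζ hζ => by have := hz₁c ζ hζ; linarith)
          (δ := η / 2) (by positivity)
        refine ⟨fun p => u p + w p, hu1.add hD hR₀.le hw1, ?_, ?_⟩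
        · intro j hj z hz hzc hzcl
          rcases Nat.lt_succ_iff_lt_or_eq.mp hj with hj' | hj'
          · obtain ⟨r, hr, h⟩ := hu2 j hj' z hz hzc hzcl
            exact ⟨r, hr, fun x hx hxz => le_add_right (h x hx hxz)⟩
          · subst hj'
            obtain ⟨r, hr, h⟩ := hw2 z ⟨⟨hz, hzc⟩, hzcl⟩
            exact ⟨r, hr, fun x hx hxz => le_add_left (h x hx hxz)⟩
        · calc u z₁ + w z₁ ≤ ENNReal.ofReal (η / 2) + ENNReal.ofReal (η / 2) := add_le_add hu3 hw3
            _ = ENNReal.ofReal η := by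
              rw [← ENNReal.ofReal_add (by positivity) (by positivity)]; congr 1; ring
    obtain ⟨u, hu1, hu2, hu3⟩ := hfinite J (δ / 2) (by positivity)
    refine ⟨fun p => u p + Ψ p, hu1.add hD hR₀.le hΨgood, ?_, ?_⟩
    · intro z hz hzc
      apply le_liminf_of_le (by isBoundedDefault)
      rw [OnePoint.nhdsWithin_coe, eventually_map]
      have h1 : ∀ᶠ x in 𝓝 z, ∀ j ∈ Finset.range J, x ∈ f j → 1 ≤ u (x : OnePoint ℂ) := by
        rw [Filter.eventually_all_finset]
        intro j hj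
        by_cases hcl : z ∈ closure (f j)
        · obtain ⟨r, hr, h⟩ := hu2 j (Finset.mem_range.mp hj) z hz hzc hcl
          filter_upwards [ball_mem_nhds z hr] with x hx hxf
          exact h x hxf (mem_ball.mp hx)
        · filter_upwards [isClosed_closure.isOpen_compl.mem_nhds hcl] with x hx hxf
          exact absurd (subset_closure hxf) hx
      have h2 : ∀ᶠ x in 𝓝 z, dist x c < ρ / 4 := isOpen_ball.mem_nhds hzc
      have h3 : ∀ᶠ x in 𝓝[((↑) : ℂ → OnePoint ℂ) ⁻¹' D] z, x ∈ fin D := self_mem_nhdsWithin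
      filter_upwards [nhdsWithin_le_nhds h1, nhdsWithin_le_nhds h2, h3] with x hx1 hx2 hx3
      have hxV : x ∈ V := ⟨hx3, by rw [mem_ball]; linarith⟩
      by_cases hxT : x ∈ T J
      · exact le_add_left (hΨ1 x hxT hx2)
      · have : x ∈ ⋃ j ∈ Finset.range J, f j := by
          by_contra hcon
          exact hxT ⟨hxV, hcon⟩
        rw [mem_iUnion₂] at this
        obtain ⟨j, hj, hxj⟩ := this
        exact le_add_right (hx1 j hj hxj)
    · calc u z₁ + Ψ z₁ ≤ ENNReal.ofReal (δ / 2) + ENNReal.ofReal (δ / 2) :=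
            add_le_add hu3 (hΨz.trans hJ)
        _ = ENNReal.ofReal δ := by
          rw [← ENNReal.ofReal_add (by positivity) (by positivity)]; congr 1; ring

lemma exists_gap {D : Set (OnePoint ℂ)} (hD : IsOpen D) {z₁ : OnePoint ℂ} (hz₁ : z₁ ∈ D) :
    ∃ d > 0, ∀ ζ : ℂ, (ζ : OnePoint ℂ) = z₁ → ∀ c ∉ fin D, d ≤ dist ζ c := by
  induction z₁ using OnePoint.rec with
  | infty => exact ⟨1, one_pos, fun ζ hζ => absurd hζ (OnePoint.coe_ne_infty ζ)⟩
  | coe ζ =>
    obtain ⟨d, hd, h⟩ := sphere_in hD hz₁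
    refine ⟨d, hd, ?_⟩
    intro ζ' hζ' c hc
    have h1 : ζ' = ζ := OnePoint.coe_injective hζ'
    subst h1
    by_contra hcon
    push Not at hcon
    exact hc (h c (by rw [mem_ball, dist_comm]; exact hcon))

lemma exists_R_infty {D : Set (OnePoint ℂ)} (hD : IsOpen D) (h : (∞ : OnePoint ℂ) ∈ D) :
    ∃ R > 0, ∀ x : ℂ, R ≤ ‖x‖ → x ∈ fin D := by
  have h1 : D ∈ 𝓝 (∞ : OnePoint ℂ) := hD.mem_nhds h
  rw [OnePoint.nhds_infty_eq, Filter.mem_sup, Filter.mem_map,
    Filter.coclosedCompact_eq_cocompact] at h1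
  have h2 : ∀ᶠ x in cocompact ℂ, x ∈ fin D := h1.1
  rw [← Metric.cobounded_eq_cocompact, ← comap_norm_atTop, eventually_comap] at h2
  obtain ⟨R, hR⟩ := h2.exists_forall_of_atTop
  exact ⟨max R 1, lt_of_lt_of_le one_pos (le_max_right _ _),
    fun x hx => hR ‖x‖ ((le_max_left _ _).trans hx) x rfl⟩

theorem cusp_null {α : ℝ} (hα : 1 / 2 < α) (hα1 : α < 1) {D : Set (OnePoint ℂ)} (hD : IsOpen D)
    (hcap : HasPositiveCapacity (frontier D)) {z₁ : OnePoint ℂ} (hz₁ : z₁ ∈ D) {δ : ℝ≥0∞}
    (hδ : δ ≠ 0) :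
    ∃ u : OnePoint ℂ → ℝ≥0∞, PosSuperharmonic u D ∧
      (∀ ζ ∈ cuspPoints α D, 1 ≤ liminf u (𝓝[D] ζ)) ∧ u z₁ ≤ δ := by
  classical
  obtain ⟨μ, hμ, M, F₁, F₂, hF₁, hF₂, hdisj, hμ₁, hμ₂, hFD, hpot⟩ := exists_two_compacts hcap
  have hFfin : ∀ z ∈ F₁ ∪ F₂, z ∉ fin D := by
    intro z hz hzD
    have h1 := hFD z hz
    rw [hD.frontier_eq] at h1
    exact h1.2 hzD
  obtain ⟨d₀, hd₀, hd₀F⟩ : ∃ d₀ > 0, ∀ x ∈ F₁, ∀ y ∈ F₂, d₀ < dist x y := by
    obtain ⟨r, hr, h⟩ := Metric.exists_pos_forall_lt_edist hF₁ hF₂.isClosed hdisj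
    refine ⟨r, hr, ?_⟩
    intro x hx y hy
    have := h x hx y hy
    rw [edist_dist, ENNReal.lt_ofReal_iff_toReal_lt ENNReal.coe_ne_top] at this
    simpa using this
  obtain ⟨d₁, hd₁, hd₁D⟩ := exists_gap hD hz₁
  -- radii
  let ρ : ℕ → ℝ := fun n => min (min (d₀ / 3) 1) (min (1 / (2 * ((n:ℝ) + 1))) (d₁ / 2))
  have hρ : ∀ n, 0 < ρ n := fun n => by
    simp only [ρ]; positivity
  have hρ1 : ∀ n, ρ n ≤ 1 := fun n => (min_le_left _ _).trans (min_le_right _ _)
  have hρd₀ : ∀ n, ρ n ≤ d₀ / 3 := fun n => (min_le_left _ _).trans (min_le_left _ _)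
  have hρn : ∀ n : ℕ, 2 * ρ n ≤ 1 / ((n:ℝ) + 1) := by
    intro n
    have h1 : ρ n ≤ 1 / (2 * ((n:ℝ) + 1)) := (min_le_right _ _).trans (min_le_left _ _)
    calc 2 * ρ n ≤ 2 * (1 / (2 * ((n:ℝ) + 1))) := by linarith
      _ = 1 / ((n:ℝ) + 1) := by field_simp
  have hρd₁ : ∀ n, 2 * ρ n ≤ d₁ := by
    intro n
    have h1 : ρ n ≤ d₁ / 2 := (min_le_right _ _).trans (min_le_right _ _)
    linarith
  -- finite covers
  let S : ℕ → Set ℂ := fun n => {z : ℂ | (z : OnePoint ℂ) ∈ frontier D} ∩ closedBall 0 n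
  have hS : ∀ n, IsCompact (S n) := by
    intro n
    apply IsCompact.inter_left (isCompact_closedBall _ _)
    exact isClosed_frontier.preimage OnePoint.continuous_coe
  have hcover : ∀ n, ∃ t ⊆ S n, t.Finite ∧ S n ⊆ ⋃ x ∈ t, ball x (ρ n / 4) := fun n =>
    (hS n).finite_cover_balls (by have := hρ n; positivity)
  choose t htS htfin htcover using hcover
  have htD : ∀ n, ∀ c ∈ t n, c ∉ fin D := by
    intro n c hc hcD
    have h1 := (htS n hc).1
    change (c : OnePoint ℂ) ∈ frontier D at h1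
    rw [hD.frontier_eq] at h1
    exact h1.2 hcD
  -- radius at infinity
  obtain ⟨RF, hRF⟩ := (hF₁.union hF₂).isBounded.subset_ball (0:ℂ)
  obtain ⟨Rstar, hRstar0, hRstar⟩ : ∃ Rstar : ℝ, 0 < Rstar ∧ ((∞ : OnePoint ℂ) ∈ D →
      (∀ x : ℂ, Rstar < ‖x‖ → (x : OnePoint ℂ) ∈ D) ∧ RF ≤ Rstar ∧
        ∀ c ∉ fin D, ‖c‖ + 1 < Rstar) := by
    by_cases hinf : (∞ : OnePoint ℂ) ∈ D
    · obtain ⟨R, hR, h⟩ := exists_R_infty hD hinf
      refine ⟨max (R + 1) RF, lt_of_lt_of_le (by positivity) (le_max_left _ _), fun _ => ⟨?_, le_max_right _ _, ?_⟩⟩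
      · intro x hx
        exact h x (by have := le_max_left (R + 1) RF; linarith)
      · intro c hc
        have : ‖c‖ < R := by
          by_contra hcon
          push Not at hcon
          exact hc (h c hcon)
        have := le_max_left (R + 1) RF
        linarith
    · exact ⟨1, one_pos, fun h => absurd h hinf⟩
  let R₀ : ℂ → ℝ := fun c => if (∞ : OnePoint ℂ) ∈ D then Rstar else max RF (‖c‖ + 2)
  have hR₀F : ∀ c, F₁ ∪ F₂ ⊆ ball 0 (R₀ c) := by
    intro c
    refine hRF.trans (ball_subset_ball ?_)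
    simp only [R₀]
    split_ifs with h
    · exact (hRstar h).2.1
    · exact le_max_left _ _
  have hR₀c : ∀ n, ∀ c ∈ t n, closedBall c (ρ n) ⊆ ball 0 (R₀ c) := by
    intro n c hc x hx
    rw [mem_closedBall] at hx
    rw [mem_ball, dist_zero_right]
    have h1 : ‖x‖ ≤ ‖c‖ + 1 := by
      have h2 := hρ1 n
      have h3 : ‖x‖ ≤ ‖x - c‖ + ‖c‖ := by
        have := norm_add_le (x - c) c
        rwa [sub_add_cancel] at this
      rw [← dist_eq_norm] at h3
      linarith
    simp only [R₀]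
    split_ifs with h
    · exact lt_of_le_of_lt h1 ((hRstar h).2.2 c (htD n c hc))
    · exact lt_of_lt_of_le (by linarith) (le_max_right _ _)
  -- index type
  let ι := {p : ℕ × ℂ // p.2 ∈ t p.1}
  have hιc : Countable ι := by
    have h1 : {p : ℕ × ℂ | p.2 ∈ t p.1}.Countable := by
      have h2 : {p : ℕ × ℂ | p.2 ∈ t p.1} = ⋃ n : ℕ, (fun c => (n, c)) '' t n := by
        ext ⟨n, c⟩
        simp only [mem_ofPred_eq, mem_iUnion, mem_image, Prod.mk.injEq]
        constructor
        · intro h; exact ⟨n, c, h, rfl, rfl⟩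
        · rintro ⟨n', c', h, rfl, rfl⟩; exact h
      rw [h2]
      exact countable_iUnion (fun n => ((htfin n).countable.image _))
    exact h1.to_subtype
  obtain ⟨δ', hδ'pos, hδ'sum⟩ := ENNReal.exists_pos_sum_of_countable hδ ι
  -- the local functions
  have hloc : ∀ i : ι, ∃ u : OnePoint ℂ → ℝ≥0∞, Good D i.1.2 (ρ i.1.1) (R₀ i.1.2) u ∧
      (∀ z ∈ Kset α D (1 / ((i.1.1:ℝ) + 1)), z ∈ ball i.1.2 (ρ i.1.1 / 4) →
        1 ≤ liminf u (𝓝[D] (z : OnePoint ℂ))) ∧ u z₁ ≤ δ' i := by
    rintro ⟨⟨n, c⟩, hc⟩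
    change c ∈ t n at hc
    -- choose the compact set
    have key : ∀ F : Set ℂ, IsCompact F → 0 < μ F → F ⊆ F₁ ∪ F₂ →
        Disjoint (closedBall c (ρ n)) F →
        ∃ u : OnePoint ℂ → ℝ≥0∞, Good D c (ρ n) (R₀ c) u ∧
      (∀ z ∈ Kset α D (1 / ((n:ℝ) + 1)), z ∈ ball c (ρ n / 4) →
        1 ≤ liminf u (𝓝[D] (z : OnePoint ℂ))) ∧ u z₁ ≤ δ' ⟨⟨n, c⟩, hc⟩ := by
      intro F hF hFpos hFsub hFdisj
      obtain ⟨M₁, hM₁⟩ := pot_lower_bound hF hFpos (fun z hz => hpot z (hFsub hz))
      have hνF : (μ.restrict F) Fᶜ = 0 := by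
        rw [Measure.restrict_apply hF.isClosed.measurableSet.compl]; simp
      obtain ⟨M', -, hM'1, hM'2⟩ := kernel_bound hF hνF hM₁ c (ρ n)
      have hmpos : 0 < ((μ.restrict F) univ).toReal := by
        rw [Measure.restrict_apply_univ]
        exact ENNReal.toReal_pos hFpos.ne' (measure_ne_top μ F)
      obtain ⟨u, hu1, hu2, hu3⟩ := ball_case hα hα1 hD hF hνF hmpos (by
          rw [Set.disjoint_left]
          intro z hz; exact hFfin z (hFsub hz)) (htD n c hc) (hρ n) (hρ1 n) hFdisj hM'1 hM'2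
        (hFsub.trans (hR₀F c)) (hR₀c n c hc) (ε := 1 / ((n:ℝ) + 1)) (hρn n) (z₁ := z₁)
        (fun ζ hζ => (hρd₁ n).trans (hd₁D ζ hζ c (htD n c hc)))
        (δ := (δ' ⟨⟨n, c⟩, hc⟩ : ℝ)) (hδ'pos _)
      refine ⟨u, hu1, hu2, hu3.trans ?_⟩
      rw [ENNReal.ofReal_coe_nnreal]
    by_cases h1 : Disjoint (closedBall c (ρ n)) F₁
    · exact key F₁ hF₁ hμ₁ subset_union_left h1
    · apply key F₂ hF₂ hμ₂ subset_union_right
      rw [Set.disjoint_left]
      intro y hy hyF
      rw [Set.not_disjoint_iff] at h1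
      obtain ⟨x, hx, hxF⟩ := h1
      have h2 := hd₀F x hxF y hyF
      rw [mem_closedBall] at hx hy
      have h3 := dist_triangle_right x y c
      have h4 := hρd₀ n
      linarith
  choose u hugood huK huz using hloc
  refine ⟨fun p => ∑' i, u i p, ⟨?_, ?_, ?_⟩, ?_, ?_⟩
  · exact lowerSemicontinuousOn_tsum (fun i => (hugood i).lsc)
  · -- finite points
    intro z hz
    obtain ⟨d, hd, hdD⟩ := sphere_in hD hz
    -- exceptional indices
    let E : Set ι := {i | d / 2 < ρ i.1.1}
    have hE : E.Finite := by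
      obtain ⟨N, hN⟩ := exists_nat_gt (1 / d)
      have h1 : E ⊆ (fun i : ι => i.1) ⁻¹' (⋃ n ∈ Finset.range N, (fun c => (n, c)) '' t n) := by
        rintro ⟨⟨n, c⟩, hc⟩ hi
        change d / 2 < ρ n at hi
        change c ∈ t n at hc
        have h2 := hρn n
        have h3 : d < 1 / ((n:ℝ) + 1) := by linarith
        have h4 : (n:ℝ) + 1 < 1 / d := by
          rw [lt_div_iff₀ (by positivity)] at h3
          rw [lt_div_iff₀ hd]; linarith
        have h5 : n < N := by
          have : (n:ℝ) < N := by linarith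
          exact_mod_cast this
        simp only [mem_preimage, mem_iUnion]
        exact ⟨n, Finset.mem_range.mpr h5, c, hc, rfl⟩
      apply Set.Finite.subset _ h1
      apply Set.Finite.preimage (Subtype.val_injective.injOn)
      apply Set.Finite.biUnion (Finset.finite_toSet _)
      intro n _
      exact (htfin n).image _
    have hev : ∀ᶠ r in 𝓝[>] (0:ℝ), ∀ i ∈ E, circMean (u i) z r ≤ u i z := by
      rw [Filter.eventually_all_finite hE]
      intro i _
      obtain ⟨R, hR, h⟩ := (hugood i).loc z hz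
      filter_upwards [Ioo_mem_nhdsGT hR] with r hr
      exact h r hr.1 hr.2
    have hev2 : ∀ᶠ r in 𝓝[>] (0:ℝ), circMean (fun p => ∑' i, u i p) z r ≤ ∑' i, u i z := by
      filter_upwards [hev, Ioo_mem_nhdsGT (show (0:ℝ) < d / 2 by positivity)] with r hr hr2
      rw [circMean_tsum (D := D) (fun i => (hugood i).lsc) hr2.1.le (fun y hy => hdD y (by
        rw [mem_ball, mem_sphere.mp hy]; linarith [hr2.2]))]
      apply ENNReal.tsum_le_tsum
      intro i
      by_cases hi : i ∈ E
      · exact hr i hi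
      · have hi' : ρ i.1.1 ≤ d / 2 := not_lt.mp hi
        apply (hugood i).far z (d / 2) (by positivity) _ r hr2.1 hr2.2
        intro x hx
        rw [mem_ball] at hx
        refine ⟨hdD x (by rw [mem_ball]; linarith), ?_⟩
        have h1 : d ≤ dist z i.1.2 := by
          by_contra hcon
          push Not at hcon
          exact htD i.1.1 i.1.2 i.2 (hdD _ (by rw [mem_ball, dist_comm]; exact hcon))
        have h2 := dist_triangle_left z i.1.2 x
        linarith
    obtain ⟨R, hR, h⟩ := mem_nhdsGT_iff_exists_Ioo_subset.mp hev2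
    exact ⟨R, hR, fun r hr0 hr => h ⟨hr0, hr⟩⟩
  · -- infinity
    intro hinf
    have hst := hRstar hinf
    refine ⟨Rstar, hRstar0, ?_⟩
    intro r hr
    rw [circMean_tsum (D := D) (fun i => (hugood i).lsc) (by linarith) (fun y hy => hst.1 y (by
      rw [mem_sphere, dist_zero_right] at hy; rw [hy]; exact hr))]
    apply ENNReal.tsum_le_tsum
    intro i
    have hR0 : R₀ i.1.2 = Rstar := by simp only [R₀]; rw [if_pos hinf]
    apply (hugood i).inf
    · rw [hR0]; exact hst.1
    · rw [hR0]; exact hr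
  · -- boundary behaviour
    rintro ζ ⟨ε, hε, z, rfl, hz⟩
    obtain ⟨n, hn1⟩ := exists_nat_gt (max (1 / ε) ‖z‖)
    have hn2 : 1 / ((n:ℝ) + 1) ≤ ε := by
      have h1 : 1 / ε < (n:ℝ) := lt_of_le_of_lt (le_max_left _ _) hn1
      rw [div_le_iff₀ (by positivity)]
      rw [div_lt_iff₀ hε] at h1
      nlinarith
    have hn3 : ‖z‖ ≤ n := (lt_of_le_of_lt (le_max_right _ _) hn1).le
    have hz' := Kset_mono hD hn2 hz
    have hzS : z ∈ S n := ⟨hz.1, by rw [mem_closedBall, dist_zero_right]; exact hn3⟩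
    have h1 := htcover n hzS
    rw [mem_iUnion₂] at h1
    obtain ⟨c, hc, hzc⟩ := h1
    have h2 := huK ⟨⟨n, c⟩, hc⟩ z hz' hzc
    refine h2.trans ?_
    apply liminf_le_liminf
    · exact Eventually.of_forall (fun p => ENNReal.le_tsum _)
    · isBoundedDefault
    · isBoundedDefault
  · calc ∑' i, u i z₁ ≤ ∑' i, (δ' i : ℝ≥0∞) := ENNReal.tsum_le_tsum huz
      _ ≤ δ := hδ'sum.le

end Pool.Agent.Helper311.Cusp
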