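import Mathlib

open Set Filter Topology Metric MeasureTheory

namespace Pool.Agent.Helper311.HardyNull

/-- `W` is near `z` the real part of a holomorphic function -/
def LocRe (W : ℂ → ℝ) (z : ℂ) : Prop :=
  ∃ r > 0, ∃ G : ℂ → ℂ, DifferentiableOn ℂ G (ball z r) ∧ ∀ w ∈ ball z r, W w = (G w).re

lemma LocRe.continuousAt {W : ℂ → ℝ} {z : ℂ} (h : LocRe W z) : ContinuousAt W z := by
  obtain ⟨r, hr, G, hG, hW⟩ := h
  have h1 : ContinuousAt (fun w => (G w).re) z :=
    Complex.continuous_re.continuousAt.comp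
      (hG.differentiableAt (isOpen_ball.mem_nhds (mem_ball_self hr))).continuousAt
  apply h1.congr
  filter_upwards [isOpen_ball.mem_nhds (mem_ball_self hr)] with w hw
  exact (hW w hw).symm

lemma LocRe.eventually_eq_of_isLocalMax {W : ℂ → ℝ} {z : ℂ} (h : LocRe W z)
    (hmax : IsLocalMax W z) : ∀ᶠ w in 𝓝 z, W w = W z := by
  obtain ⟨r, hr, G, hG, hW⟩ := h
  have hz : z ∈ ball z r := mem_ball_self hr
  have hball : ball z r ∈ 𝓝 z := isOpen_ball.mem_nhds hz
  have h1 : ∀ᶠ w in 𝓝 z, DifferentiableAt ℂ (fun w => Complex.exp (G w)) w := by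
    filter_upwards [hball] with w hw
    exact (hG.differentiableAt (isOpen_ball.mem_nhds hw)).cexp
  have h2 : IsLocalMax (norm ∘ fun w => Complex.exp (G w)) z := by
    filter_upwards [hball, hmax] with w hw hle
    simp only [Function.comp, Complex.norm_exp]
    rw [← hW w hw, ← hW z hz]
    exact Real.exp_le_exp.mpr hle
  have h3 := Complex.eventually_eq_of_isLocalMax_norm h1 h2
  filter_upwards [hball, h3] with w hw heq
  rw [hW w hw, hW z hz]
  have h4 := congrArg norm heq
  simp only [Complex.norm_exp] at h4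
  exact Real.exp_injective h4

/-- the maximum principle in the upper half plane -/
lemma halfplane_max (W : ℂ → ℝ) (hloc : ∀ z : ℂ, 0 < z.im → LocRe W z)
    (hbd : ∀ x : ℝ, ∀ ε > 0, ∀ᶠ z in 𝓝[{z : ℂ | 0 < z.im}] (x : ℂ), W z < ε)
    (hinf : ∃ R : ℝ, ∀ z : ℂ, 0 < z.im → R < ‖z‖ → W z ≤ 0) :
    ∀ z : ℂ, 0 < z.im → W z ≤ 0 := by
  intro z0 hz0
  by_contra hcon
  push Not at hcon
  obtain ⟨R, hR⟩ := hinf
  set m := W z0 with hm
  set K : Set ℂ := {z | 0 < z.im ∧ m ≤ W z} with hK
  have hbound : K ⊆ closedBall 0 R := by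
    intro z hz
    rw [mem_closedBall_zero_iff]
    by_contra h
    push Not at h
    have := hR z hz.1 h
    linarith [hz.2]
  have hclosed : IsClosed K := by
    rw [← isOpen_compl_iff, isOpen_iff_mem_nhds]
    intro z hz
    rcases lt_trichotomy z.im 0 with him | him | him
    · have : {z : ℂ | z.im < 0} ∈ 𝓝 z := (isOpen_lt Complex.continuous_im continuous_const).mem_nhds him
      filter_upwards [this] with w hw hwK
      have h1 : w.im < 0 := hw
      exact absurd hwK.1 (by linarith)
    · have h1 := hbd z.re m hcon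
      have h2 : ((z.re : ℝ) : ℂ) = z := by
        apply Complex.ext <;> simp [him]
      rw [h2, eventually_nhdsWithin_iff] at h1
      filter_upwards [h1] with w hw hwK
      exact absurd hwK.2 (not_le.mpr (hw hwK.1))
    · have h1 : W z < m := by
        by_contra h
        exact hz ⟨him, not_lt.mp h⟩
      have h2 := (hloc z him).continuousAt.eventually_lt continuousAt_const h1
      filter_upwards [h2] with w hw hwK
      exact absurd hwK.2 (not_le.mpr hw)
  have hcomp : IsCompact K := (isCompact_closedBall 0 R).of_isClosed_subset hclosed hbound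
  have hcont : ContinuousOn W K := fun z hz => (hloc z hz.1).continuousAt.continuousWithinAt
  obtain ⟨z1, hz1, hmax1⟩ := hcomp.exists_isMaxOn ⟨z0, hz0, le_rfl⟩ hcont
  set K' : Set ℂ := {z ∈ K | W z1 ≤ W z} with hK'
  have hK'closed : IsClosed K' := by
    have : K' = K ∩ W ⁻¹' (Ici (W z1)) := by ext z; rfl
    rw [this]
    exact hcont.preimage_isClosed_of_isClosed hclosed isClosed_Ici
  have hK'comp : IsCompact K' := hcomp.of_isClosed_subset hK'closed (fun z hz => hz.1)
  obtain ⟨z2, hz2, hmax2⟩ := hK'comp.exists_isMaxOn ⟨z1, hz1, le_rfl⟩ Complex.continuous_im.continuousOn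
  have hz2max : ∀ z : ℂ, 0 < z.im → W z ≤ W z2 := by
    intro z hz
    by_cases hzK : z ∈ K
    · exact (hmax1 hzK).trans hz2.2
    · have : W z < m := by
        by_contra h
        exact hzK ⟨hz, not_lt.mp h⟩
      exact this.le.trans hz2.1.2
  have hloc2 : IsLocalMax W z2 := by
    have : {z : ℂ | 0 < z.im} ∈ 𝓝 z2 :=
      (isOpen_lt continuous_const Complex.continuous_im).mem_nhds hz2.1.1
    filter_upwards [this] with w hw
    exact hz2max w hw
  have h3 := (hloc z2 hz2.1.1).eventually_eq_of_isLocalMax hloc2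
  have h4 : Tendsto (fun t : ℝ => z2 + t * Complex.I) (𝓝[>] 0) (𝓝 z2) := by
    have : Tendsto (fun t : ℝ => z2 + t * Complex.I) (𝓝 0) (𝓝 (z2 + (0:ℝ) * Complex.I)) := by
      apply Continuous.tendsto; fun_prop
    simp only [Complex.ofReal_zero, zero_mul, add_zero] at this
    exact this.mono_left nhdsWithin_le_nhds
  obtain ⟨t, ht1, ht2⟩ := ((h4.eventually h3).and self_mem_nhdsWithin).exists
  have ht0 : (0:ℝ) < t := ht2
  have him : (z2 + t * Complex.I).im = z2.im + t := by simp
  have hmem : z2 + t * Complex.I ∈ K' := by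
    refine ⟨⟨?_, ?_⟩, ?_⟩
    · rw [him]; linarith [hz2.1.1]
    · rw [ht1]; exact hz2.1.2
    · rw [ht1]; exact hz2.2
  have h5 : (z2 + t * Complex.I).im ≤ z2.im := hmax2 hmem
  rw [him] at h5
  linarith

open ComplexConjugate in
lemma LocRe.comp_conj {W : ℂ → ℝ} {z : ℂ} (h : LocRe W (conj z)) :
    LocRe (fun w => W (conj w)) z := by
  obtain ⟨r, hr, G, hG, hW⟩ := h
  refine ⟨r, hr, conj ∘ G ∘ conj, ?_, ?_⟩
  · intro w hw
    have hw' : conj w ∈ ball (conj z) r := by
      rw [mem_ball, Complex.dist_conj_conj]; exact hw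
    have h1 := (hG.differentiableAt (isOpen_ball.mem_nhds hw')).conj_conj
    rw [Complex.conj_conj] at h1
    exact h1.differentiableWithinAt
  · intro w hw
    have hw' : conj w ∈ ball (conj z) r := by
      rw [mem_ball, Complex.dist_conj_conj]; exact hw
    simp only [Function.comp, Complex.conj_re]
    exact hW _ hw'

lemma LocRe.add {W V : ℂ → ℝ} {z : ℂ} (hW : LocRe W z) (hV : LocRe V z) :
    LocRe (fun w => W w + V w) z := by
  obtain ⟨r, hr, G, hG, hW⟩ := hW
  obtain ⟨s, hs, F, hF, hV⟩ := hV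
  refine ⟨min r s, lt_min hr hs, fun w => G w + F w, ?_, ?_⟩
  · exact (hG.mono (ball_subset_ball (min_le_left _ _))).add
      (hF.mono (ball_subset_ball (min_le_right _ _)))
  · intro w hw
    beta_reduce
    rw [hW w (ball_subset_ball (min_le_left _ _) hw), hV w (ball_subset_ball (min_le_right _ _) hw)]
    simp

lemma LocRe.const_mul {W : ℂ → ℝ} {z : ℂ} (hW : LocRe W z) (c : ℝ) :
    LocRe (fun w => c * W w) z := by
  obtain ⟨r, hr, G, hG, hW⟩ := hW
  refine ⟨r, hr, fun w => (c : ℂ) * G w, hG.const_mul _, ?_⟩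
  intro w hw
  beta_reduce
  rw [hW w hw]
  simp

lemma LocRe.sub {W V : ℂ → ℝ} {z : ℂ} (hW : LocRe W z) (hV : LocRe V z) :
    LocRe (fun w => W w - V w) z := by
  have := hW.add (hV.const_mul (-1))
  simpa [sub_eq_add_neg] using this

lemma LocRe.of_differentiableOn {G : ℂ → ℂ} {U : Set ℂ} (hU : IsOpen U)
    (hG : DifferentiableOn ℂ G U) {z : ℂ} (hz : z ∈ U) : LocRe (fun w => (G w).re) z := by
  obtain ⟨r, hr, hrU⟩ := Metric.isOpen_iff.mp hU z hz
  exact ⟨r, hr, G, hG.mono hrU, fun w _ => rfl⟩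

lemma isOpen_uhp : IsOpen {z : ℂ | 0 < z.im} := isOpen_lt continuous_const Complex.continuous_im

/-- the barrier of an interval of centre `x` and half length `h` -/
noncomputable def bar (x h : ℝ) (z : ℂ) : ℝ :=
  2 * h * (z.im + h) / ((z.re - x) ^ 2 + (z.im + h) ^ 2)

lemma bar_nonneg {x h : ℝ} (hh : 0 < h) {z : ℂ} (hz : 0 < z.im) : 0 ≤ bar x h z := by
  unfold bar
  positivity

lemma bar_le {x h : ℝ} (hh : 0 < h) {z : ℂ} (hz : 0 < z.im) : bar x h z ≤ 2 * h / z.im := by
  unfold bar
  rw [div_le_div_iff₀ (by positivity) hz]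
  nlinarith [sq_nonneg (z.re - x), mul_pos hh hz, mul_pos hh hh, mul_pos hz hz]

lemma bar_locRe {x h : ℝ} (hh : 0 < h) {z : ℂ} (hz : 0 < z.im) : LocRe (bar x h) z := by
  have h1 : ∀ w : ℂ, 0 < w.im → w - x + h * Complex.I ≠ 0 := by
    intro w hw h0
    have := congrArg Complex.im h0
    simp at this
    linarith
  have h2 : DifferentiableOn ℂ (fun w : ℂ => 2 * h * Complex.I / (w - x + h * Complex.I))
      {z : ℂ | 0 < z.im} := by
    apply DifferentiableOn.div (by fun_prop) (by fun_prop)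
    intro w hw
    exact h1 w hw
  obtain ⟨r, hr, G, hG, hW⟩ := LocRe.of_differentiableOn isOpen_uhp h2 hz
  obtain ⟨s, hs, hsU⟩ := Metric.isOpen_iff.mp isOpen_uhp z hz
  refine ⟨min r s, lt_min hr hs, G, hG.mono (ball_subset_ball (min_le_left _ _)), ?_⟩
  intro w hw
  rw [← hW w (ball_subset_ball (min_le_left _ _) hw)]
  have hwim : 0 < w.im := hsU (ball_subset_ball (min_le_right _ _) hw)
  unfold bar
  have h3 : ((w.re - x) ^ 2 + (w.im + h) ^ 2) ≠ 0 := by positivity
  beta_reduce
  rw [Complex.div_re]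
  have h4 : Complex.normSq (w - x + h * Complex.I) = (w.re - x) ^ 2 + (w.im + h) ^ 2 := by
    rw [Complex.normSq_apply]
    simp
    ring
  rw [h4]
  simp

lemma log_locRe {z : ℂ} (hz : 0 < z.im) : LocRe (fun w => Real.log ‖w + Complex.I‖) z := by
  have h2 : DifferentiableOn ℂ (fun w : ℂ => Complex.log (w + Complex.I)) {z : ℂ | 0 < z.im} := by
    apply DifferentiableOn.clog (by fun_prop)
    intro w hw
    right
    have : 0 < w.im := hw
    simp
    linarith
  have h3 := LocRe.of_differentiableOn isOpen_uhp h2 hz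
  simpa [Complex.log_re] using h3

open ComplexConjugate in
/-- the main estimate -/
lemma main_estimate {E : Set ℂ} (hE : IsClosed E) (hreal : ∀ z ∈ E, z.im = 0)
    (hcov : ∀ δ > 0, ∃ (s : Finset ℝ) (h : ℝ), 0 < h ∧ (∀ z ∈ E, ∃ x ∈ s, |z.re - x| ≤ h) ∧
      s.card * h ≤ δ)
    {f : ℂ → ℂ} (hf : DifferentiableOn ℂ f Eᶜ) {u : ℂ → ℝ} (hu : ∀ z ∈ Eᶜ, LocRe u z)
    (hfu : ∀ z ∈ Eᶜ, ‖f z‖ ^ 2 ≤ u z) {c : ℂ} (hc : ‖c‖ = 1) {z : ℂ} (hz : 0 < z.im) :
    (c * f z).re ≤ (c * f (conj z)).re := by
  have hΩ : IsOpen Eᶜ := hE.isOpen_compl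
  have hup : ∀ w : ℂ, 0 < w.im → w ∈ Eᶜ := fun w hw hE => by
    have := hreal w hE; linarith
  have hlow : ∀ w : ℂ, 0 < w.im → conj w ∈ Eᶜ := fun w hw hE => by
    have := hreal _ hE
    rw [Complex.conj_im] at this; linarith
  have hu0 : ∀ w ∈ Eᶜ, 0 ≤ u w := fun w hw => (sq_nonneg _).trans (hfu w hw)
  -- key: for every η
  suffices hkey : ∀ η > 0, (c * f z).re - (c * f (conj z)).re ≤ η * (u z + u (conj z) + 3) by
    by_contra hcon
    push Not at hcon
    have hU : 0 < u z + u (conj z) + 3 := by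
      have := hu0 z (hup z hz)
      have := hu0 _ (hlow z hz)
      linarith
    have h1 := hkey (((c * f z).re - (c * f (conj z)).re) / (2 * (u z + u (conj z) + 3)))
      (div_pos (by linarith) (by linarith))
    have h2 : ((c * f z).re - (c * f (conj z)).re) / (2 * (u z + u (conj z) + 3)) *
        (u z + u (conj z) + 3) = ((c * f z).re - (c * f (conj z)).re) / 2 := by
      field_simp
    rw [h2] at h1
    linarith
  intro η hη
  set ℓ := Real.log ‖z + Complex.I‖ with hℓ
  have hnorm : ∀ w : ℂ, 0 < w.im → 1 ≤ ‖w + Complex.I‖ := by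
    intro w hw
    have h1 : |(w + Complex.I).im| ≤ ‖w + Complex.I‖ := Complex.abs_im_le_norm _
    simp only [Complex.add_im, Complex.I_im] at h1
    rw [abs_of_pos (by linarith)] at h1
    linarith
  have hlog0 : ∀ w : ℂ, 0 < w.im → 0 ≤ Real.log ‖w + Complex.I‖ := fun w hw =>
    Real.log_nonneg (hnorm w hw)
  have hℓ0 : 0 ≤ ℓ := hlog0 z hz
  set ε' := η / (1 + ℓ) with hε'
  have hε'0 : 0 < ε' := by positivity
  obtain ⟨s, h, hh, hs1, hs2⟩ := hcov (η ^ 2 * z.im) (by positivity)
  set W : ℂ → ℝ := fun w => ((((c * f w).re - (c * f (conj w)).re) - η * (u w + u (conj w)))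
    - (1 / η) * ∑ x ∈ s, bar x h w) - ε' * Real.log ‖w + Complex.I‖ with hW
  have hcre : ∀ w : ℂ, |(c * f w).re| ≤ ‖f w‖ := by
    intro w
    refine (Complex.abs_re_le_norm _).trans ?_
    rw [norm_mul, hc, one_mul]
  have hfη : ∀ w ∈ Eᶜ, ‖f w‖ ≤ η * u w + 1 / (4 * η) := by
    intro w hw
    have h1 := hfu w hw
    have h2 : ‖f w‖ ≤ η * ‖f w‖ ^ 2 + 1 / (4 * η) := by
      have h3 : η * ‖f w‖ ^ 2 + 1 / (4 * η) - ‖f w‖ = η * (‖f w‖ - 1 / (2 * η)) ^ 2 := by
        field_simp; ring
      have h4 : 0 ≤ η * (‖f w‖ - 1 / (2 * η)) ^ 2 := by positivity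
      linarith
    have h5 := mul_le_mul_of_nonneg_left h1 hη.le
    linarith
  have hD : ∀ w : ℂ, 0 < w.im → ((c * f w).re - (c * f (conj w)).re) - η * (u w + u (conj w)) ≤
      1 / (2 * η) := by
    intro w hw
    have h1 := abs_le.mp (hcre w)
    have h2 := abs_le.mp (hcre (conj w))
    have h3 := hfη w (hup w hw)
    have h4 := hfη _ (hlow w hw)
    have h5 : 1 / (2 * η) = 1 / (4 * η) + 1 / (4 * η) := by field_simp; ring
    rw [h5]
    linarith
  have hbar0 : ∀ w : ℂ, 0 < w.im → 0 ≤ ∑ x ∈ s, bar x h w := fun w hw =>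
    Finset.sum_nonneg (fun x _ => bar_nonneg hh hw)
  have hsum_loc : ∀ w : ℂ, 0 < w.im → LocRe (fun w => ∑ x ∈ s, bar x h w) w := by
    intro w hw
    have : ∀ t : Finset ℝ, LocRe (fun w => ∑ x ∈ t, bar x h w) w := by
      intro t
      classical
      induction t using Finset.induction_on with
      | empty =>
        simp only [Finset.sum_empty]
        exact ⟨1, one_pos, fun _ => 0, differentiableOn_const _, fun _ _ => by simp⟩
      | insert x t hxt ih =>
        simp only [Finset.sum_insert hxt]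
        exact (bar_locRe hh hw).add ih
    exact this s
  have hWle : ∀ w : ℂ, 0 < w.im → W w ≤ 0 := by
    apply halfplane_max W
    · intro w hw
      have l1 : LocRe (fun w => (c * f w).re) w :=
        LocRe.of_differentiableOn hΩ (hf.const_mul c) (hup w hw)
      have l2 : LocRe (fun w => (c * f (conj w)).re) w :=
        LocRe.comp_conj (W := fun w => (c * f w).re)
          (LocRe.of_differentiableOn hΩ (hf.const_mul c) (hlow w hw))
      have l3 : LocRe (fun w => u w + u (conj w)) w :=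
        (hu w (hup w hw)).add (LocRe.comp_conj (hu _ (hlow w hw)))
      exact ((((l1.sub l2).sub (l3.const_mul η)).sub ((hsum_loc w hw).const_mul (1 / η))).sub
        ((log_locRe hw).const_mul ε'))
    · intro x ε hε
      by_cases hx : (x : ℂ) ∈ E
      · obtain ⟨y, hy, hxy⟩ := hs1 _ hx
        have hcontb : ContinuousAt (bar y h) (x : ℂ) := by
          unfold bar
          apply ContinuousAt.div (by fun_prop) (by fun_prop)
          have : (0:ℝ) < ((x:ℂ).im + h) ^ 2 := by
            rw [Complex.ofReal_im, zero_add]; positivity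
          positivity
        have hb1 : 1 / 2 < bar y h (x : ℂ) := by
          unfold bar
          simp only [Complex.ofReal_re, Complex.ofReal_im, zero_add]
          rw [Complex.ofReal_re] at hxy
          have h3 : (x - y) ^ 2 ≤ h ^ 2 := by
            rw [← sq_abs]
            exact pow_le_pow_left₀ (abs_nonneg _) hxy 2
          rw [lt_div_iff₀ (by positivity)]
          nlinarith [mul_pos hh hh]
        have h4 := hcontb.eventually_const_lt hb1
        filter_upwards [nhdsWithin_le_nhds h4, self_mem_nhdsWithin] with w hw hwim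
        have hwim : 0 < w.im := hwim
        have h5 : bar y h w ≤ ∑ x ∈ s, bar x h w :=
          Finset.single_le_sum (f := fun x => bar x h w) (fun x _ => bar_nonneg hh hwim) hy
        have h6 := hD w hwim
        have h7 : (1 / η) * (1 / 2) ≤ (1 / η) * ∑ x ∈ s, bar x h w := by
          apply mul_le_mul_of_nonneg_left _ (by positivity)
          linarith
        have h8 : 1 / (2 * η) = (1 / η) * (1 / 2) := by field_simp
        have h9 := mul_nonneg hε'0.le (hlog0 w hwim)
        simp only [hW]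
        linarith
      · have hxΩ : (x : ℂ) ∈ Eᶜ := hx
        have hfc : ContinuousAt f (x : ℂ) :=
          (hf.differentiableAt (hΩ.mem_nhds hxΩ)).continuousAt
        have hcc : ContinuousAt (fun w => (c * f w).re - (c * f (conj w)).re) (x : ℂ) := by
          have h1 : ContinuousAt (fun w => (c * f w).re) (x : ℂ) :=
            Complex.continuous_re.continuousAt.comp (continuousAt_const.mul hfc)
          have h2 : ContinuousAt (fun w => (c * f (conj w)).re) (x : ℂ) := by
            have h3 : ContinuousAt (fun w => f (conj w)) (x : ℂ) := by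
              apply ContinuousAt.comp (g := f) (f := conj)
              · rw [Complex.conj_ofReal]; exact hfc
              · exact Complex.continuous_conj.continuousAt
            exact Complex.continuous_re.continuousAt.comp (continuousAt_const.mul h3)
          exact h1.sub h2
        have h0 : (fun w => (c * f w).re - (c * f (conj w)).re) (x : ℂ) < ε := by
          simp only [Complex.conj_ofReal, sub_self]
          exact hε
        have h4 := hcc.eventually_lt_const h0
        filter_upwards [nhdsWithin_le_nhds h4, self_mem_nhdsWithin] with w hw hwim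
        have hwim : 0 < w.im := hwim
        have h9 := mul_nonneg hε'0.le (hlog0 w hwim)
        have h10 := mul_nonneg (by positivity : 0 ≤ 1 / η) (hbar0 w hwim)
        have h11 := mul_nonneg hη.le (add_nonneg (hu0 w (hup w hwim)) (hu0 _ (hlow w hwim)))
        simp only [hW]
        linarith
    · refine ⟨Real.exp (1 / (2 * η * ε')) + 1, fun w hw hwR => ?_⟩
      have h1 : Real.exp (1 / (2 * η * ε')) ≤ ‖w + Complex.I‖ := by
        have : ‖w‖ ≤ ‖w + Complex.I‖ + ‖Complex.I‖ := by
          have := norm_sub_le (w + Complex.I) Complex.I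
          simpa using this
        rw [Complex.norm_I] at this
        linarith
      have h2 : 1 / (2 * η * ε') ≤ Real.log ‖w + Complex.I‖ := by
        rw [Real.le_log_iff_exp_le (by linarith [hnorm w hw])]
        exact h1
      have h3 : 1 / (2 * η) ≤ ε' * Real.log ‖w + Complex.I‖ := by
        calc 1 / (2 * η) = ε' * (1 / (2 * η * ε')) := by field_simp
          _ ≤ _ := mul_le_mul_of_nonneg_left h2 hε'0.le
      have h6 := hD w hw
      have h10 := mul_nonneg (by positivity : 0 ≤ 1 / η) (hbar0 w hw)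
      simp only [hW]
      linarith
  have h1 := hWle z hz
  have h2 : (1 / η) * ∑ x ∈ s, bar x h z ≤ 2 * η := by
    have h3 : ∑ x ∈ s, bar x h z ≤ s.card * (2 * h / z.im) := by
      have := Finset.sum_le_card_nsmul s (fun x => bar x h z) (2 * h / z.im)
        (fun x _ => bar_le hh hz)
      simpa [nsmul_eq_mul] using this
    have h4 : s.card * (2 * h / z.im) ≤ 2 * η ^ 2 := by
      have h5 : s.card * (2 * h / z.im) = (2 * (s.card * h)) / z.im := by ring
      rw [h5, div_le_iff₀ hz]
      linarith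
    calc (1 / η) * ∑ x ∈ s, bar x h z ≤ (1 / η) * (2 * η ^ 2) :=
          mul_le_mul_of_nonneg_left (h3.trans h4) (by positivity)
      _ = 2 * η := by field_simp
  have h3 : ε' * ℓ ≤ η := by
    rw [hε', div_mul_eq_mul_div, div_le_iff₀ (by positivity)]
    nlinarith
  simp only [hW] at h1
  nlinarith

open ComplexConjugate in
lemma constant_of_null {E : Set ℂ} (hE : IsClosed E) (hreal : ∀ z ∈ E, z.im = 0)
    (hcov : ∀ δ > 0, ∃ (s : Finset ℝ) (h : ℝ), 0 < h ∧ (∀ z ∈ E, ∃ x ∈ s, |z.re - x| ≤ h) ∧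
      s.card * h ≤ δ) (hconn : IsPreconnected Eᶜ)
    {f : ℂ → ℂ} (hf : DifferentiableOn ℂ f Eᶜ) {u : ℂ → ℝ} (hu : ∀ z ∈ Eᶜ, LocRe u z)
    (hfu : ∀ z ∈ Eᶜ, ‖f z‖ ^ 2 ≤ u z) : ∃ k : ℂ, ∀ z ∈ Eᶜ, f z = k := by
  have hΩ : IsOpen Eᶜ := hE.isOpen_compl
  have hup : ∀ w : ℂ, 0 < w.im → w ∈ Eᶜ := fun w hw hE => by
    have := hreal w hE; linarith
  have hlow : ∀ w : ℂ, 0 < w.im → conj w ∈ Eᶜ := fun w hw hE => by
    have := hreal _ hE
    rw [Complex.conj_im] at this; linarith
  have hre : ∀ z : ℂ, 0 < z.im → (f z).re = (f (conj z)).re := by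
    intro z hz
    have h1 := main_estimate hE hreal hcov hf hu hfu (c := 1) (by simp) hz
    have h2 := main_estimate hE hreal hcov hf hu hfu (c := -1) (by simp) hz
    simp only [one_mul, neg_mul, Complex.neg_re] at h1 h2
    linarith
  have him : ∀ z : ℂ, 0 < z.im → (f z).im = (f (conj z)).im := by
    intro z hz
    have h1 := main_estimate hE hreal hcov hf hu hfu (c := Complex.I) (by simp) hz
    have h2 := main_estimate hE hreal hcov hf hu hfu (c := -Complex.I) (by simp) hz
    simp only [neg_mul, Complex.neg_re, Complex.I_mul_re] at h1 h2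
    linarith
  have hUconn : IsConnected {z : ℂ | 0 < z.im} := by
    refine ⟨⟨Complex.I, by simp⟩, ?_⟩
    exact (convex_halfSpace_im_gt 0).isPreconnected
  have hfd : DifferentiableOn ℂ f {z : ℂ | 0 < z.im} := hf.mono (fun w hw => hup w hw)
  have hgd : DifferentiableOn ℂ (conj ∘ f ∘ conj) {z : ℂ | 0 < z.im} := by
    intro w hw
    have h1 := (hf.differentiableAt (hΩ.mem_nhds (hlow w hw))).conj_conj
    rw [Complex.conj_conj] at h1
    exact h1.differentiableWithinAt
  obtain ⟨k1, hk1⟩ := AnalyticOnNhd.eq_const_of_re_eq_const (c₀ := 0)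
    ((hfd.sub hgd).analyticOnNhd isOpen_uhp) (by
      intro w hw
      simp only [Pi.sub_apply, Function.comp, Complex.sub_re, Complex.conj_re]
      rw [hre w hw, sub_self]) isOpen_uhp hUconn
  obtain ⟨k2, hk2⟩ := AnalyticOnNhd.eq_const_of_im_eq_const (c₀ := 0)
    ((hfd.add hgd).analyticOnNhd isOpen_uhp) (by
      intro w hw
      simp only [Pi.add_apply, Function.comp, Complex.add_im, Complex.conj_im]
      rw [him w hw]; ring) isOpen_uhp hUconn
  refine ⟨(k1 + k2) / 2, ?_⟩
  have hconst : ∀ w : ℂ, 0 < w.im → f w = (k1 + k2) / 2 := by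
    intro w hw
    have h1 := hk1 w hw
    have h2 := hk2 w hw
    simp only [Pi.sub_apply, Pi.add_apply] at h1 h2
    rw [← h1, ← h2]; ring
  have han : AnalyticOnNhd ℂ f Eᶜ := hf.analyticOnNhd hΩ
  have han2 : AnalyticOnNhd ℂ (fun _ : ℂ => (k1 + k2) / 2) Eᶜ := analyticOnNhd_const
  have hI : (Complex.I) ∈ Eᶜ := hup _ (by simp)
  have := han.eqOn_of_preconnected_of_eventuallyEq han2 hconn hI (by
    filter_upwards [isOpen_uhp.mem_nhds (show Complex.I ∈ {z : ℂ | 0 < z.im} by simp)] with w hw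
    exact hconst w hw)
  intro z hz
  exact this hz

/-! ### The Cantor set and its coin tossing measure -/

/-- the term of the digit expansion -/
noncomputable def ct (b : ℕ → Bool) (k : ℕ) : ℝ := if b k then 2 * (1 / 3 : ℝ) ^ (k + 1) else 0

/-- the point of the Cantor set with given digits -/
noncomputable def cx (b : ℕ → Bool) : ℝ := ∑' k, ct b k

lemma ct_nonneg (b : ℕ → Bool) (k : ℕ) : 0 ≤ ct b k := by
  unfold ct; split_ifs <;> positivity

lemma ct_le (b : ℕ → Bool) (k : ℕ) : ct b k ≤ 2 * (1 / 3 : ℝ) ^ (k + 1) := by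
  unfold ct
  split_ifs
  · exact le_rfl
  · positivity

lemma hasSum_bound (n : ℕ) : HasSum (fun k : ℕ => 2 * (1 / 3 : ℝ) ^ (k + n + 1)) ((1 / 3) ^ n) := by
  have h1 := (hasSum_geometric_of_lt_one (by norm_num : (0:ℝ) ≤ 1 / 3) (by norm_num)).mul_left
    (2 * (1 / 3 : ℝ) ^ (n + 1))
  have h2 : 2 * (1 / 3 : ℝ) ^ (n + 1) * (1 - 1 / 3)⁻¹ = (1 / 3) ^ n := by
    rw [pow_succ]; ring
  rw [h2] at h1
  have h3 : (fun k : ℕ => 2 * (1 / 3 : ℝ) ^ (k + n + 1)) =
      fun k : ℕ => 2 * (1 / 3 : ℝ) ^ (n + 1) * (1 / 3) ^ k := by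
    ext k; rw [show k + n + 1 = (n + 1) + k by ring, pow_add]; ring
  rw [h3]
  exact h1

lemma summable_ct (b : ℕ → Bool) : Summable (ct b) := by
  have h := (hasSum_bound 0).summable
  simp only [add_zero] at h
  exact Summable.of_nonneg_of_le (ct_nonneg b) (ct_le b) h

lemma cx_split (b : ℕ → Bool) (n : ℕ) :
    cx b = ∑ k ∈ Finset.range n, ct b k + ∑' k, ct b (k + n) :=
  ((summable_ct b).sum_add_tsum_nat_add n).symm

lemma tail_nonneg (b : ℕ → Bool) (n : ℕ) : 0 ≤ ∑' k, ct b (k + n) :=
  tsum_nonneg (fun k => ct_nonneg b _)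

lemma tail_le (b : ℕ → Bool) (n : ℕ) : ∑' k, ct b (k + n) ≤ (1 / 3) ^ n := by
  rw [← (hasSum_bound n).tsum_eq]
  exact Summable.tsum_le_tsum (fun k => ct_le b _)
    ((summable_nat_add_iff n).mpr (summable_ct b)) (hasSum_bound n).summable

lemma cx_mem (b : ℕ → Bool) : 0 ≤ cx b ∧ cx b ≤ 1 := by
  have h := cx_split b 0
  have h1 := tail_nonneg b 0
  have h2 := tail_le b 0
  simp only [Finset.range_zero, Finset.sum_empty, zero_add, pow_zero] at h h1 h2
  constructor <;> linarith

lemma continuous_cx : Continuous cx := by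
  unfold cx
  have h := (hasSum_bound 0).summable
  simp only [add_zero] at h
  refine continuous_tsum (u := fun k => 2 * (1 / 3 : ℝ) ^ (k + 1)) ?_ h ?_
  · intro k
    exact (continuous_of_discreteTopology (f := fun c : Bool =>
      if c then 2 * (1 / 3 : ℝ) ^ (k + 1) else 0)).comp (continuous_apply k)
  · intro k b
    rw [Real.norm_eq_abs, abs_of_nonneg (ct_nonneg b k)]
    exact ct_le b k

lemma cx_dist {b b' : ℕ → Bool} {n : ℕ} (h : ∀ i < n, b i = b' i) (hn : b n ≠ b' n) :
    (1 / 3 : ℝ) ^ (n + 1) ≤ |cx b - cx b'| := by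
  wlog hb : b n = true generalizing b b' with H
  · have hb' : b' n = true := by
      cases h1 : b n <;> cases h2 : b' n <;> simp_all
    rw [abs_sub_comm]
    exact H (fun i hi => (h i hi).symm) hn.symm hb'
  have hb' : b' n = false := by
    cases h2 : b' n <;> simp_all
  have e1 := cx_split b (n + 1)
  have e2 := cx_split b' (n + 1)
  rw [Finset.sum_range_succ] at e1 e2
  have e3 : ∑ k ∈ Finset.range n, ct b k = ∑ k ∈ Finset.range n, ct b' k := by
    apply Finset.sum_congr rfl
    intro k hk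
    unfold ct
    rw [h k (Finset.mem_range.mp hk)]
  have e4 : ct b n = 2 * (1 / 3 : ℝ) ^ (n + 1) := by unfold ct; rw [hb]; simp
  have e5 : ct b' n = 0 := by unfold ct; rw [hb']; simp
  have t1 := tail_nonneg b (n + 1)
  have t2 := tail_le b' (n + 1)
  have : (1 / 3 : ℝ) ^ (n + 1) ≤ cx b - cx b' := by
    rw [e1, e2, e3, e4, e5]
    linarith
  exact this.trans (le_abs_self _)

lemma cx_injective : Function.Injective cx := by
  intro b b' h
  by_contra hne
  have hex : ∃ n, b n ≠ b' n := by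
    by_contra h2
    push Not at h2
    exact hne (funext h2)
  classical
  have h1 := cx_dist (b := b) (b' := b') (n := Nat.find hex)
    (fun i hi => not_not.mp (Nat.find_min hex hi)) (Nat.find_spec hex)
  rw [h, sub_self, abs_zero] at h1
  have : (0:ℝ) < (1 / 3) ^ (Nat.find hex + 1) := by positivity
  linarith

/-- fair coin -/
noncomputable def coin : Measure Bool := (2 : ENNReal)⁻¹ • Measure.count

lemma coin_singleton (c : Bool) : coin {c} = 2⁻¹ := by
  unfold coin
  rw [Measure.smul_apply, Measure.count_singleton]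
  simp

instance : IsProbabilityMeasure coin := by
  constructor
  unfold coin
  rw [Measure.smul_apply, Measure.count_univ]
  simp
  exact ENNReal.inv_mul_cancel (by norm_num) (by norm_num)

/-- coin tossing measure -/
noncomputable def PP : Measure (ℕ → Bool) := Measure.infinitePi (fun _ : ℕ => coin)

instance : IsProbabilityMeasure PP := by unfold PP; infer_instance

lemma PP_cyl (b : ℕ → Bool) (n : ℕ) : PP {b' | ∀ i < n, b i = b' i} = (2⁻¹) ^ n := by
  have h1 : {b' : ℕ → Bool | ∀ i < n, b i = b' i} =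
      Set.pi (Finset.range n : Set ℕ) (fun i => {b i}) := by
    ext b'
    simp [Set.mem_pi, eq_comm]
  rw [h1]
  unfold PP
  rw [Measure.infinitePi_pi (fun _ : ℕ => coin) (fun i _ => measurableSet_singleton _)]
  simp [coin_singleton]

/-- the agreement sets -/
def AA (n : ℕ) : Set ((ℕ → Bool) × (ℕ → Bool)) := {q | ∀ i < n, q.1 i = q.2 i}

lemma measurableSet_AA (n : ℕ) : MeasurableSet (AA n) := by
  have : AA n = ⋂ i, ⋂ (_ : i < n), {q : (ℕ → Bool) × (ℕ → Bool) | q.1 i = q.2 i} := by
    ext q; simp [AA]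
  rw [this]
  apply MeasurableSet.iInter
  intro i
  apply MeasurableSet.iInter
  intro _
  exact measurableSet_eq_fun (by fun_prop) (by fun_prop)

lemma PP_AA (n : ℕ) : (PP.prod PP) (AA n) = (2⁻¹) ^ n := by
  rw [Measure.prod_apply (measurableSet_AA n)]
  have : ∀ b, PP (Prod.mk b ⁻¹' AA n) = (2⁻¹) ^ n := by
    intro b
    rw [← PP_cyl b n]
    rfl
  simp only [this]
  simp

/-- the embedding into the plane -/
noncomputable def cc (b : ℕ → Bool) : ℂ := (cx b : ℂ)

lemma continuous_cc : Continuous cc := Complex.continuous_ofReal.comp continuous_cx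

/-- the Cantor set -/
def CE : Set ℂ := range cc

/-- the Cantor measure -/
noncomputable def cmu : Measure ℂ := PP.map cc

lemma isCompact_CE : IsCompact CE := isCompact_range continuous_cc

instance : IsProbabilityMeasure cmu :=
  Measure.isProbabilityMeasure_map continuous_cc.measurable.aemeasurable

lemma cmu_compl : cmu CEᶜ = 0 := by
  unfold cmu
  rw [Measure.map_apply continuous_cc.measurable isCompact_CE.measurableSet.compl]
  have : cc ⁻¹' CEᶜ = ∅ := by
    ext b; simp [CE]
  rw [this, measure_empty]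

instance : NullSingletonClass cmu := by
  constructor
  intro x
  unfold cmu
  rw [Measure.map_apply continuous_cc.measurable (measurableSet_singleton x)]
  by_cases hx : (cc ⁻¹' {x}).Nonempty
  · obtain ⟨b, hb⟩ := hx
    have h1 : ∀ n, PP (cc ⁻¹' {x}) ≤ (2⁻¹) ^ n := by
      intro n
      rw [← PP_cyl b n]
      apply measure_mono
      intro b' hb'
      have : cc b' = cc b := by
        rw [mem_preimage, mem_singleton_iff] at hb hb'
        rw [hb, hb']
      have h2 : b' = b := cx_injective (Complex.ofReal_injective this)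
      intro i _
      rw [h2]
    have h2 : Tendsto (fun n : ℕ => (2⁻¹ : ENNReal) ^ n) atTop (𝓝 0) :=
      ENNReal.tendsto_pow_atTop_nhds_zero_of_lt_one (by
        rw [ENNReal.inv_lt_one]; norm_num)
    exact le_antisymm (ge_of_tendsto' h2 h1) bot_le
  · rw [not_nonempty_iff_eq_empty.mp hx, measure_empty]

lemma log_bound (q : (ℕ → Bool) × (ℕ → Bool)) :
    ‖Real.log ‖cc q.1 - cc q.2‖‖ₑ ≤ ∑' n, (AA n).indicator (fun _ => ENNReal.ofReal (Real.log 3)) q := by
  have hnorm : ‖cc q.1 - cc q.2‖ = |cx q.1 - cx q.2| := by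
    unfold cc
    rw [← Complex.ofReal_sub, Complex.norm_real, Real.norm_eq_abs]
  rw [hnorm]
  by_cases hq : q.1 = q.2
  · rw [hq]; simp
  classical
  have hex : ∃ n, q.1 n ≠ q.2 n := by
    by_contra h2
    push Not at h2
    exact hq (funext h2)
  set N := Nat.find hex with hN
  have hmin : ∀ i < N, q.1 i = q.2 i := fun i hi => not_not.mp (Nat.find_min hex hi)
  have h1 := cx_dist hmin (Nat.find_spec hex)
  have h2 : |cx q.1 - cx q.2| ≤ 1 := by
    rw [abs_le]
    have := cx_mem q.1
    have := cx_mem q.2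
    constructor <;> linarith
  have hpos : 0 < |cx q.1 - cx q.2| := lt_of_lt_of_le (by positivity) h1
  have h3 : |(Real.log |cx q.1 - cx q.2|)| ≤ (N + 1) * Real.log 3 := by
    rw [abs_of_nonpos (Real.log_nonpos hpos.le h2)]
    have h4 := Real.log_le_log (by positivity) h1
    rw [Real.log_pow, one_div, Real.log_inv] at h4
    push_cast at h4
    linarith
  have hl3 : 0 ≤ Real.log 3 := Real.log_nonneg (by norm_num)
  calc ‖Real.log |cx q.1 - cx q.2|‖ₑ = ENNReal.ofReal |(Real.log |cx q.1 - cx q.2|)| := by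
        rw [← Real.norm_eq_abs (Real.log _), ofReal_norm]
    _ ≤ ENNReal.ofReal ((N + 1) * Real.log 3) := ENNReal.ofReal_le_ofReal h3
    _ = ∑ n ∈ Finset.range (N + 1), ENNReal.ofReal (Real.log 3) := by
        rw [Finset.sum_const, Finset.card_range, nsmul_eq_mul, ENNReal.ofReal_mul (by positivity)]
        congr 1
        rw [show ((N:ℝ) + 1) = ((N + 1 : ℕ) : ℝ) by push_cast; ring, ENNReal.ofReal_natCast]
    _ = ∑ n ∈ Finset.range (N + 1), (AA n).indicator (fun _ => ENNReal.ofReal (Real.log 3)) q := by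
        apply Finset.sum_congr rfl
        intro n hn
        rw [Finset.mem_range] at hn
        rw [indicator_of_mem]
        intro i hi
        exact hmin i (by omega)
    _ ≤ _ := ENNReal.sum_le_tsum _

lemma integrable_log : Integrable (fun p : ℂ × ℂ => Real.log ‖p.1 - p.2‖) (cmu.prod cmu) := by
  have hmeas : Measurable (fun p : ℂ × ℂ => Real.log ‖p.1 - p.2‖) := by fun_prop
  unfold cmu
  rw [Measure.map_prod_map PP PP continuous_cc.measurable continuous_cc.measurable]
  rw [integrable_map_measure hmeas.aestronglyMeasurable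
    (continuous_cc.measurable.prodMap continuous_cc.measurable).aemeasurable]
  refine ⟨(hmeas.comp (continuous_cc.measurable.prodMap
    continuous_cc.measurable)).aestronglyMeasurable, ?_⟩
  unfold HasFiniteIntegral
  calc _ ≤ ∫⁻ q, ∑' n, (AA n).indicator (fun _ => ENNReal.ofReal (Real.log 3)) q ∂(PP.prod PP) :=
        lintegral_mono (fun q => log_bound q)
    _ = ∑' n, ∫⁻ q, (AA n).indicator (fun _ => ENNReal.ofReal (Real.log 3)) q ∂(PP.prod PP) := by
        rw [lintegral_tsum]
        intro n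
        exact (measurable_const.indicator (measurableSet_AA n)).aemeasurable
    _ = ∑' n, ENNReal.ofReal (Real.log 3) * (2⁻¹) ^ n := by
        congr 1
        ext n
        rw [lintegral_indicator_const (measurableSet_AA n), PP_AA]
    _ = ENNReal.ofReal (Real.log 3) * (1 - 2⁻¹)⁻¹ := by
        rw [ENNReal.tsum_mul_left, ENNReal.tsum_geometric]
    _ < ⊤ := by
        apply ENNReal.mul_lt_top ENNReal.ofReal_lt_top
        rw [ENNReal.one_sub_inv_two, inv_inv]
        norm_num

lemma CE_real : ∀ z ∈ CE, z.im = 0 := by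
  rintro z ⟨b, rfl⟩
  simp [cc]

lemma CE_cover : ∀ δ > 0, ∃ (s : Finset ℝ) (h : ℝ), 0 < h ∧
    (∀ z ∈ CE, ∃ x ∈ s, |z.re - x| ≤ h) ∧ s.card * h ≤ δ := by
  classical
  intro δ hδ
  obtain ⟨n, hn⟩ := exists_pow_lt_of_lt_one hδ (by norm_num : (2 / 3 : ℝ) < 1)
  refine ⟨Finset.image (fun c : Fin n → Bool => ∑ k : Fin n,
    if c k then 2 * (1 / 3 : ℝ) ^ ((k : ℕ) + 1) else 0) Finset.univ, (1 / 3) ^ n, by positivity,
    ?_, ?_⟩
  · rintro z ⟨b, rfl⟩
    refine ⟨∑ k : Fin n, if b k then 2 * (1 / 3 : ℝ) ^ ((k : ℕ) + 1) else 0, ?_, ?_⟩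
    · rw [Finset.mem_image]
      exact ⟨fun k => b k, Finset.mem_univ _, rfl⟩
    · have h1 : ∑ k : Fin n, (if b k then 2 * (1 / 3 : ℝ) ^ ((k : ℕ) + 1) else 0) =
          ∑ k ∈ Finset.range n, ct b k := by
        rw [Finset.sum_range]
        rfl
      rw [h1]
      have h2 : (cc b).re = cx b := by simp [cc]
      rw [h2, cx_split b n, add_sub_cancel_left, abs_of_nonneg (tail_nonneg b n)]
      exact tail_le b n
  · have h1 : ((Finset.image (fun c : Fin n → Bool => ∑ k : Fin n,
        if c k then 2 * (1 / 3 : ℝ) ^ ((k : ℕ) + 1) else 0) Finset.univ).card : ℝ) ≤ 2 ^ n := by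
      have := Finset.card_image_le (s := (Finset.univ : Finset (Fin n → Bool)))
        (f := fun c : Fin n → Bool => ∑ k : Fin n,
          if c k then 2 * (1 / 3 : ℝ) ^ ((k : ℕ) + 1) else 0)
      rw [Finset.card_univ, Fintype.card_fun, Fintype.card_bool, Fintype.card_fin] at this
      exact_mod_cast this
    calc _ ≤ (2:ℝ) ^ n * (1 / 3) ^ n := mul_le_mul_of_nonneg_right h1 (by positivity)
      _ = (2 / 3) ^ n := by rw [← mul_pow]; norm_num
      _ ≤ δ := hn.le

lemma CE_conn : IsConnected CEᶜ := by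
  have hup : {z : ℂ | 0 < z.im} ⊆ {z : ℂ | 0 ≤ z.im} ∩ CEᶜ := fun z hz =>
    ⟨(show (0:ℝ) ≤ z.im from le_of_lt hz),
      fun hE => by have := CE_real z hE; have : 0 < z.im := hz; linarith⟩
  have hlow : {z : ℂ | z.im < 0} ⊆ {z : ℂ | z.im ≤ 0} ∩ CEᶜ := fun z hz =>
    ⟨(show z.im ≤ (0:ℝ) from le_of_lt hz),
      fun hE => by have := CE_real z hE; have : z.im < 0 := hz; linarith⟩
  have h1 : IsPreconnected ({z : ℂ | 0 ≤ z.im} ∩ CEᶜ) := by
    apply (convex_halfSpace_im_gt 0).isPreconnected.subset_closure hup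
    rw [Complex.closure_setOfPred_lt_im]
    exact inter_subset_left
  have h2 : IsPreconnected ({z : ℂ | z.im ≤ 0} ∩ CEᶜ) := by
    apply (convex_halfSpace_im_lt 0).isPreconnected.subset_closure hlow
    rw [Complex.closure_setOfPred_im_lt]
    exact inter_subset_left
  have h3 : (2 : ℂ) ∈ CEᶜ := by
    rintro ⟨b, hb⟩
    have h4 := cx_mem b
    have h5 : cx b = 2 := by
      have := congrArg Complex.re hb
      simpa [cc] using this
    linarith
  have h4 : CEᶜ = ({z : ℂ | 0 ≤ z.im} ∩ CEᶜ) ∪ ({z : ℂ | z.im ≤ 0} ∩ CEᶜ) := by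
    ext z
    constructor
    · intro hz
      rcases le_total 0 z.im with h | h
      · exact Or.inl ⟨h, hz⟩
      · exact Or.inr ⟨h, hz⟩
    · rintro (h | h) <;> exact h.2
  refine ⟨⟨2, h3⟩, ?_⟩
  rw [h4]
  exact h1.union 2 ⟨by simp, h3⟩ ⟨by simp, h3⟩ h2

end Pool.Agent.Helper311.HardyNull
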