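import Mathlib

open Set Filter Topology Metric MeasureTheory

namespace Pool.Agent.Helper311.Plessner

/-- The Stolz angle at `P` with constants `C`, `δ`. -/
def stolzAngle (P : ℂ) (C δ : ℝ) : Set ℂ := {z | ‖z‖ < 1 ∧ ‖z - P‖ < C * (1 - ‖z‖) ∧ ‖z - P‖ < δ}

/-- `f` has a finite limit at `P` within `S`. -/
def HasFiniteLimitIn (f : ℂ → ℂ) (P : ℂ) (S : Set ℂ) : Prop := ∃ L : ℂ, Tendsto f (𝓝[S] P) (𝓝 L)

/-- `P` is of type (a) for `f`. -/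
def TypeA (f : ℂ → ℂ) (P : ℂ) : Prop :=
  ∀ C > 1, ∀ δ > 0, HasFiniteLimitIn f P (stolzAngle P C δ)

/-- The set `V(f,P,S)` of the values taken infinitely often as `z → P` within `S`. -/
def valuesIO (f : ℂ → ℂ) (P : ℂ) (S : Set ℂ) : Set ℂ :=
  {w | ∃ z : ℕ → ℂ, Function.Injective z ∧ (∀ k, z k ∈ S ∧ f (z k) = w) ∧ Tendsto z atTop (𝓝 P)}

end Pool.Agent.Helper311.Plessner
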