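import Mathlib
import Pool.Agent.Helper311.PlessnerDefs

open Set Filter Topology Metric MeasureTheory

namespace Pool.Agent.Helper311.Plessner

/-- average over a period -/
noncomputable def av (g : ℝ → ℝ) : ℝ := (2 * Real.pi)⁻¹ * ∫ θ in (0:ℝ)..(2 * Real.pi), g θ

lemma av_mono {f g : ℝ → ℝ} (hf : Continuous f) (hg : Continuous g) (h : ∀ x, f x ≤ g x) :
    av f ≤ av g := by
  unfold av
  apply mul_le_mul_of_nonneg_left _ (by positivity)
  exact intervalIntegral.integral_mono (by positivity) (hf.intervalIntegrable _ _)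
    (hg.intervalIntegrable _ _) h

lemma av_const (c : ℝ) : av (fun _ => c) = c := by
  unfold av
  rw [intervalIntegral.integral_const, smul_eq_mul, sub_zero]
  field_simp

lemma av_add {f g : ℝ → ℝ} (hf : Continuous f) (hg : Continuous g) :
    av (fun x => f x + g x) = av f + av g := by
  unfold av
  rw [intervalIntegral.integral_add (hf.intervalIntegrable _ _) (hg.intervalIntegrable _ _)]
  ring

lemma av_sub {f g : ℝ → ℝ} (hf : Continuous f) (hg : Continuous g) :
    av (fun x => f x - g x) = av f - av g := by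
  unfold av
  rw [intervalIntegral.integral_sub (hf.intervalIntegrable _ _) (hg.intervalIntegrable _ _)]
  ring

lemma av_const_mul {f : ℝ → ℝ} (c : ℝ) : av (fun x => c * f x) = c * av f := by
  unfold av
  rw [intervalIntegral.integral_const_mul]
  ring

lemma av_mul_const {f : ℝ → ℝ} (c : ℝ) : av (fun x => f x * c) = av f * c := by
  unfold av
  rw [intervalIntegral.integral_mul_const]
  ring

lemma abs_av_le {f : ℝ → ℝ} {C : ℝ} (h : ∀ x ∈ Icc 0 (2 * Real.pi), |f x| ≤ C) : |av f| ≤ C := by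
  unfold av
  have h1 : ‖∫ θ in (0:ℝ)..(2 * Real.pi), f θ‖ ≤ C * |2 * Real.pi - 0| := by
    apply intervalIntegral.norm_integral_le_of_norm_le_const
    intro x hx
    rw [uIoc_of_le (by positivity)] at hx
    exact h x ⟨hx.1.le, hx.2⟩
  rw [abs_mul, abs_of_pos (by positivity : (0:ℝ) < (2 * Real.pi)⁻¹)]
  rw [Real.norm_eq_abs, sub_zero, abs_of_pos (by positivity : (0:ℝ) < 2 * Real.pi)] at h1
  calc (2 * Real.pi)⁻¹ * |∫ θ in (0:ℝ)..(2 * Real.pi), f θ|
      ≤ (2 * Real.pi)⁻¹ * (C * (2 * Real.pi)) := mul_le_mul_of_nonneg_left h1 (by positivity)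
    _ = C := by field_simp

lemma av_shift {g : ℝ → ℝ} (hg : Function.Periodic g (2 * Real.pi)) (c : ℝ) :
    av (fun x => g (x + c)) = av g := by
  unfold av
  rw [intervalIntegral.integral_comp_add_right]
  have := hg.intervalIntegral_add_eq c 0
  rw [zero_add] at this
  rw [zero_add, add_comm (2 * Real.pi) c, this]

lemma av_av_swap {H : ℝ → ℝ → ℝ} (hH : Continuous (Function.uncurry H)) :
    av (fun x => av (fun y => H x y)) = av (fun y => av (fun x => H x y)) := by
  unfold av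
  simp only [intervalIntegral.integral_const_mul]
  rw [intervalIntegral_intervalIntegral_swap]
  apply (hH.continuousOn.integrableOn_compact
    ((isCompact_Icc (a := (0:ℝ)) (b := 2 * Real.pi)).prod
      (isCompact_Icc (a := (0:ℝ)) (b := 2 * Real.pi)))).mono_set
  rw [uIoc_of_le (by positivity)]
  exact Set.prod_mono Ioc_subset_Icc_self Ioc_subset_Icc_self

lemma continuous_av {H : ℝ → ℝ → ℝ} (hH : Continuous (Function.uncurry H)) :
    Continuous (fun x => av (fun y => H x y)) := by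
  unfold av
  apply Continuous.mul continuous_const
  exact intervalIntegral.continuous_parametric_intervalIntegral_of_continuous' hH _ _

lemma fejer {B : Set ℂ} (hB : IsCompact B) (H : ℂ → ℝ → ℝ → ℝ)
    (hH : Continuous (fun p : ℂ × ℝ × ℝ => H p.1 p.2.1 p.2.2))
    (h1 : ∀ w φ, Function.Periodic (fun θ => H w θ φ) (2 * Real.pi))
    (h2 : ∀ w θ, Function.Periodic (fun φ => H w θ φ) (2 * Real.pi))
    {η : ℝ} (hη : 0 < η) :
    ∀ᶠ N : ℕ in atTop, ∀ w ∈ B,
      |av (fun θ => H w θ (N * θ)) - av (fun θ => av (fun φ => H w θ φ))| ≤ η := by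
  have hK : IsCompact (B ×ˢ (Icc (0:ℝ) (4 * Real.pi) ×ˢ Icc (0:ℝ) (2 * Real.pi))) :=
    hB.prod (isCompact_Icc.prod isCompact_Icc)
  have hU := hK.uniformContinuousOn_of_continuous hH.continuousOn
  rw [Metric.uniformContinuousOn_iff] at hU
  obtain ⟨δ, hδ, hU⟩ := hU η hη
  -- extension in the second variable
  have hU' : ∀ w ∈ B, ∀ θ ∈ Icc (0:ℝ) (4 * Real.pi), ∀ θ' ∈ Icc (0:ℝ) (4 * Real.pi),
      |θ - θ'| < δ → ∀ φ, |H w θ φ - H w θ' φ| ≤ η := by
    intro w hw θ hθ θ' hθ' hd φ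
    have hp : (0:ℝ) < 2 * Real.pi := by positivity
    set y := toIcoMod hp 0 φ with hy
    have hy0 : y ∈ Ico (0:ℝ) (0 + 2 * Real.pi) := toIcoMod_mem_Ico hp 0 φ
    have hyφ : ∀ t, H w t φ = H w t y := by
      intro t
      have := (h2 w t).sub_zsmul_eq (x := φ) (toIcoDiv hp 0 φ)
      have h3 : y = φ - toIcoDiv hp 0 φ • (2 * Real.pi) := by
        rw [hy]; exact (self_sub_toIcoDiv_zsmul hp 0 φ).symm
      rw [h3]; exact this.symm
    rw [hyφ θ, hyφ θ']
    have h4 := hU (w, θ, y) ⟨hw, hθ, ⟨hy0.1, by linarith [hy0.2]⟩⟩ (w, θ', y)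
      ⟨hw, hθ', ⟨hy0.1, by linarith [hy0.2]⟩⟩ (by
        simp only [Prod.dist_eq, dist_self, Real.dist_eq]
        simp [hd])
    rw [Real.dist_eq] at h4
    exact h4.le
  have hpi := Real.pi_pos
  have hev : ∀ᶠ N : ℕ in atTop, 2 * Real.pi / δ < N := by
    exact tendsto_natCast_atTop_atTop.eventually_gt_atTop _
  filter_upwards [hev, eventually_ge_atTop 1] with N hN hN1 w hw
  have hN0 : (0:ℝ) < N := by exact_mod_cast hN1
  have hcG : Continuous (fun p : ℝ × ℝ => H w (p.2 + p.1 / N) (N * p.2 + p.1)) :=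
    hH.comp (f := fun p : ℝ × ℝ => (w, p.2 + p.1 / N, N * p.2 + p.1)) (by fun_prop)
  have hcG' : Continuous (fun p : ℝ × ℝ => H w p.2 (N * p.2 + p.1)) :=
    hH.comp (f := fun p : ℝ × ℝ => (w, p.2, N * p.2 + p.1)) (by fun_prop)
  have hcG'' : Continuous (fun p : ℝ × ℝ => H w p.1 (N * p.1 + p.2)) :=
    hH.comp (f := fun p : ℝ × ℝ => (w, p.1, N * p.1 + p.2)) (by fun_prop)
  have hGper : Function.Periodic (fun θ => H w θ (N * θ)) (2 * Real.pi) := by
    intro θ
    have e1 := h1 w (N * (θ + 2 * Real.pi)) θ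
    have e2 := (h2 w θ).nat_mul N (N * θ)
    simp only at e1 e2 ⊢
    rw [e1, mul_add]
    exact e2
  have hA : av (fun θ => H w θ (N * θ)) =
      av (fun φ => av (fun θ => H w (θ + φ / N) (N * θ + φ))) := by
    have : ∀ φ : ℝ, av (fun θ => H w (θ + φ / N) (N * θ + φ)) = av (fun θ => H w θ (N * θ)) := by
      intro φ
      rw [← av_shift hGper (φ / N)]
      congr 1
      ext θ
      congr 1
      field_simp
    simp only [this]
    rw [av_const]
  have hC : av (fun θ => av (fun φ => H w θ φ)) =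
      av (fun φ => av (fun θ => H w θ (N * θ + φ))) := by
    rw [← av_av_swap (H := fun θ φ => H w θ (N * θ + φ)) hcG'']
    congr 1
    ext θ
    rw [← av_shift (h2 w θ) (N * θ)]
    congr 1
    ext φ
    rw [add_comm]
  rw [hA, hC, ← av_sub (continuous_av (H := fun φ θ => H w (θ + φ / N) (N * θ + φ)) hcG)
    (continuous_av (H := fun φ θ => H w θ (N * θ + φ)) hcG')]
  apply abs_av_le
  intro φ hφ
  rw [← av_sub (f := fun θ => H w (θ + φ / N) (N * θ + φ)) (g := fun θ => H w θ (N * θ + φ))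
    (hcG.comp (Continuous.prodMk_right φ)) (hcG'.comp (Continuous.prodMk_right φ))]
  apply abs_av_le
  intro θ hθ
  have hφN : φ / N ≤ 2 * Real.pi / N := by gcongr; exact hφ.2
  have hN2 : 2 * Real.pi / N < δ := by
    rw [div_lt_iff₀ hN0]
    rw [div_lt_iff₀ hδ] at hN
    linarith
  have hφN0 : 0 ≤ φ / N := div_nonneg hφ.1 hN0.le
  have hN3 : 2 * Real.pi / N ≤ 2 * Real.pi := by
    apply div_le_self (by positivity)
    exact_mod_cast hN1
  apply hU' w hw
  · constructor <;> linarith [hθ.1, hθ.2]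
  · constructor <;> linarith [hθ.1, hθ.2]
  · rw [add_sub_cancel_left, abs_of_nonneg hφN0]
    linarith

/-- the sequence lemma -/
lemma exists_seq (P : ℕ → (ℕ → ℕ) → ℕ → Prop)
    (hloc : ∀ k n n' N, (∀ j < k, n j = n' j) → P k n N → P k n' N)
    (hex : ∀ k n, ∃ N, P k n N) : ∃ n : ℕ → ℕ, ∀ k, P k n (n k) := by
  classical
  choose c hc using hex
  let F : ℕ → ℕ → ℕ := fun k => Nat.rec (fun _ => 0) (fun k Fk => Function.update Fk k (c k Fk)) k
  have hF : ∀ k, F (k + 1) = Function.update (F k) k (c k (F k)) := fun k => rfl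
  have hst : ∀ k m, k < m → F m k = F (k + 1) k := by
    intro k m hkm
    induction m with
    | zero => omega
    | succ m ih =>
      rcases Nat.lt_succ_iff_lt_or_eq.mp hkm with h | h
      · rw [hF, Function.update_of_ne (by omega), ih h]
      · rw [h]
  refine ⟨fun k => F (k + 1) k, fun k => ?_⟩
  have h1 := hc k (F k)
  have h2 : F (k + 1) k = c k (F k) := by rw [hF]; simp
  change P k _ (F (k + 1) k)
  rw [h2]
  exact hloc k (F k) _ _ (fun j hj => hst j k hj) h1

/-! ### Circle averages of the test functions -/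

/-- truncated logarithmic potential -/
noncomputable def hh (ε : ℝ) (x : ℂ) : ℝ := Real.log (max ‖x‖ ε)

lemma continuous_hh {ε : ℝ} (hε : 0 < ε) : Continuous (hh ε) := by
  unfold hh
  exact Continuous.log (by fun_prop) (fun x => (lt_of_lt_of_le hε (le_max_right _ _)).ne')

lemma hh_submean {ε : ℝ} (hε : 0 < ε) (x : ℂ) : hh ε x ≤ av (fun φ => hh ε (circleMap x ε φ)) := by
  have h1 := circleAverage_log_norm_sub_const_eq_log_radius_add_posLog (a := 0) (c := x) hε.ne'
  have h2 : Real.log ε + Real.posLog (ε⁻¹ * ‖x - 0‖) = hh ε x := by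
    unfold hh
    rw [sub_zero]
    rcases le_total ε ‖x‖ with h | h
    · rw [max_eq_left h, Real.posLog_eq_log]
      · have hx : 0 < ‖x‖ := hε.trans_le h
        rw [Real.log_mul (by positivity) (by positivity), Real.log_inv]
        ring
      · rw [abs_of_nonneg (by positivity), ← div_eq_inv_mul, le_div_iff₀ hε, one_mul]
        exact h
    · rw [max_eq_right h, Real.posLog_eq_zero_iff _ |>.mpr, add_zero]
      rw [abs_of_nonneg (by positivity), ← div_eq_inv_mul, div_le_iff₀ hε, one_mul]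
      exact h
  rw [← h2, ← h1, Real.circleAverage_def, smul_eq_mul]
  unfold av
  apply mul_le_mul_of_nonneg_left _ (by positivity)
  apply intervalIntegral.integral_mono_ae (by positivity)
  · exact circleIntegrable_log_norm_sub_const (a := 0) (c := x) ε
  · exact ((continuous_hh hε).comp (continuous_circleMap x ε)).intervalIntegrable _ _
  · have h3 : (circleMap x ε ⁻¹' {0}).Countable := (countable_singleton _).preimage_circleMap x hε.ne'
    have h4 := h3.measure_zero volume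
    rw [Filter.EventuallyLE, ae_iff]
    refine measure_mono_null ?_ h4
    intro φ hφ
    simp only [mem_preimage, mem_singleton_iff]
    by_contra h5
    apply hφ
    simp only [sub_zero]
    unfold hh
    exact Real.log_le_log (norm_pos_iff.mpr h5) (le_max_left _ _)

lemma av_cos : av (fun φ => Real.cos φ) = 0 := by
  unfold av; simp

lemma av_sin : av (fun φ => Real.sin φ) = 0 := by
  unfold av; simp

lemma circleMap_re (x : ℂ) (a φ : ℝ) : (circleMap x a φ).re = x.re + a * Real.cos φ := by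
  simp [circleMap, Complex.exp_ofReal_mul_I_re, Complex.exp_ofReal_mul_I_im]

lemma circleMap_im (x : ℂ) (a φ : ℝ) : (circleMap x a φ).im = x.im + a * Real.sin φ := by
  simp [circleMap, Complex.exp_ofReal_mul_I_re, Complex.exp_ofReal_mul_I_im]

lemma av_normSq (x : ℂ) (a : ℝ) : av (fun φ => ‖circleMap x a φ‖ ^ 2) = ‖x‖ ^ 2 + a ^ 2 := by
  have h1 : (fun φ => ‖circleMap x a φ‖ ^ 2) =
      fun φ => ((‖x‖ ^ 2 + a ^ 2) + (2 * a * x.re) * Real.cos φ) + (2 * a * x.im) * Real.sin φ := by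
    ext φ
    rw [← Complex.normSq_eq_norm_sq, ← Complex.normSq_eq_norm_sq, Complex.normSq_apply,
      Complex.normSq_apply, circleMap_re, circleMap_im]
    have := Real.sin_sq_add_cos_sq φ
    linear_combination (a ^ 2) * this
  rw [h1, av_add (by fun_prop) (by fun_prop), av_add (by fun_prop) (by fun_prop), av_const,
    av_const_mul, av_const_mul, av_cos, av_sin]
  ring

/-- the factor for the characteristic function -/
noncomputable def JJ (a : ℝ) : ℝ := av (fun φ => Real.cos (a * Real.cos φ))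

lemma av_cos_circleMap (x : ℂ) (a : ℝ) :
    av (fun φ => Real.cos (circleMap x a φ).re) = JJ a * Real.cos x.re := by
  have h0 : av (fun φ => Real.sin (a * Real.cos φ)) = 0 := by
    have h1 := av_shift (g := fun φ => Real.sin (a * Real.cos φ)) (by
      intro φ; simp) Real.pi
    have h2 : (fun φ => Real.sin (a * Real.cos (φ + Real.pi))) =
        fun φ => (-1) * Real.sin (a * Real.cos φ) := by
      ext φ
      rw [Real.cos_add_pi, mul_neg, Real.sin_neg]; ring
    rw [h2, av_const_mul] at h1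
    linarith
  have h3 : (fun φ => Real.cos (circleMap x a φ).re) = fun φ =>
      Real.cos x.re * Real.cos (a * Real.cos φ) - Real.sin x.re * Real.sin (a * Real.cos φ) := by
    ext φ
    rw [circleMap_re, Real.cos_add]
  rw [h3, av_sub (by fun_prop) (by fun_prop), av_const_mul, av_const_mul, h0]
  unfold JJ
  ring

lemma JJ_nonneg {a : ℝ} (h0 : 0 ≤ a) (h1 : a ≤ 1) : 0 ≤ JJ a := by
  rw [← av_const 0]
  unfold JJ
  apply av_mono (by fun_prop) (by fun_prop)
  intro φ
  have h2 : |a * Real.cos φ| ≤ 1 := by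
    rw [abs_mul, abs_of_nonneg h0]
    exact mul_le_one₀ h1 (abs_nonneg _) (Real.abs_cos_le_one φ)
  have h3 := abs_le.mp h2
  have := Real.pi_gt_three
  exact Real.cos_nonneg_of_neg_pi_div_two_le_of_le (by linarith) (by linarith)

lemma JJ_le {a : ℝ} (h0 : 0 ≤ a) (h1 : a ≤ 1) : JJ a ≤ 1 - a ^ 2 / 10 := by
  have h4 : JJ a ≤ av (fun φ => 1 + (- (2 / Real.pi ^ 2 * a ^ 2)) * (Real.cos φ) ^ 2) := by
    unfold JJ
    apply av_mono (by fun_prop) (by fun_prop)
    intro φ
    have h2 : |a * Real.cos φ| ≤ 1 := by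
      rw [abs_mul, abs_of_nonneg h0]
      exact mul_le_one₀ h1 (abs_nonneg _) (Real.abs_cos_le_one φ)
    have h3 := Real.cos_le_one_sub_mul_cos_sq (x := a * Real.cos φ)
      (h2.trans (by linarith [Real.pi_gt_three]))
    calc Real.cos (a * Real.cos φ) ≤ _ := h3
      _ = _ := by ring
  rw [av_add (by fun_prop) (by fun_prop), av_const, av_const_mul] at h4
  have h5 : av (fun φ => (Real.cos φ) ^ 2) = 1 / 2 := by
    have h6 : av (fun φ => (Real.cos φ) ^ 2) = av (fun φ => (Real.sin φ) ^ 2) := by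
      have := av_shift (g := fun φ => (Real.cos φ) ^ 2) (by intro φ; simp) (Real.pi / 2)
      rw [← this]
      congr 1
      ext φ
      rw [Real.cos_add_pi_div_two]; ring
    have h7 : av (fun φ => (Real.cos φ) ^ 2) + av (fun φ => (Real.sin φ) ^ 2) = 1 := by
      rw [← av_add (by fun_prop) (by fun_prop), ← av_const 1]
      congr 1
      ext φ
      exact Real.cos_sq_add_sin_sq φ
    linarith
  rw [h5] at h4
  have h8 : Real.pi ^ 2 ≤ 10 := by
    have h9 := Real.pi_lt_d2
    have h10 := Real.pi_pos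
    nlinarith
  have h11 : a ^ 2 / 10 ≤ 2 / Real.pi ^ 2 * a ^ 2 * (1 / 2) := by
    rw [show 2 / Real.pi ^ 2 * a ^ 2 * (1 / 2) = a ^ 2 / Real.pi ^ 2 by ring]
    exact div_le_div_of_nonneg_left (sq_nonneg a) (by positivity) h8
  linarith

/-! ### The walk -/

/-- partial sums of the lacunary series on the unit circle -/
noncomputable def SS (a : ℕ → ℝ) (n : ℕ → ℕ) : ℕ → ℝ → ℂ
  | 0, _ => 0
  | k + 1, θ => circleMap (SS a n k θ) (a k) (n k * θ)

lemma SS_succ (a : ℕ → ℝ) (n : ℕ → ℕ) (k : ℕ) (θ : ℝ) :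
    SS a n (k + 1) θ = circleMap (SS a n k θ) (a k) (n k * θ) := rfl

lemma continuous_SS (a : ℕ → ℝ) (n : ℕ → ℕ) (k : ℕ) : Continuous (SS a n k) := by
  induction k with
  | zero => exact continuous_const
  | succ k ih =>
    have : SS a n (k + 1) = fun θ => SS a n k θ + (a k) * Complex.exp ((n k * θ : ℝ) * Complex.I) := by
      ext θ; rfl
    rw [this]
    fun_prop

lemma periodic_SS (a : ℕ → ℝ) (n : ℕ → ℕ) (k : ℕ) :
    Function.Periodic (SS a n k) (2 * Real.pi) := by
  induction k with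
  | zero => intro θ; rfl
  | succ k ih =>
    intro θ
    rw [SS_succ, SS_succ, ih θ, mul_add]
    exact (periodic_circleMap _ _).nat_mul (n k) _

lemma SS_congr (a : ℕ → ℝ) {n n' : ℕ → ℕ} {k : ℕ} (h : ∀ j < k, n j = n' j) :
    SS a n k = SS a n' k := by
  induction k with
  | zero => rfl
  | succ k ih =>
    ext θ
    rw [SS_succ, SS_succ, ih (fun j hj => h j (by omega)), h k (by omega)]

/-- cut-off: `0` on the ball of radius `2ε`, `1` outside the ball of radius `4ε`. -/
noncomputable def xi (ε : ℝ) (x : ℂ) : ℝ := 1 - max 0 (min 1 (2 - ‖x‖ / (2 * ε)))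

lemma continuous_xi (ε : ℝ) : Continuous (xi ε) := by
  unfold xi
  fun_prop

lemma xi_nonneg (ε : ℝ) (x : ℂ) : 0 ≤ xi ε x := by
  unfold xi
  have : max 0 (min 1 (2 - ‖x‖ / (2 * ε))) ≤ 1 := max_le (by norm_num) (min_le_left _ _)
  linarith

lemma xi_le_one (ε : ℝ) (x : ℂ) : xi ε x ≤ 1 := by
  unfold xi
  have : 0 ≤ max 0 (min 1 (2 - ‖x‖ / (2 * ε))) := le_max_left _ _
  linarith

lemma xi_eq_zero {ε : ℝ} (hε : 0 < ε) {x : ℂ} (h : ‖x‖ ≤ 2 * ε) : xi ε x = 0 := by
  unfold xi
  have h1 : ‖x‖ / (2 * ε) ≤ 1 := by rw [div_le_one (by positivity)]; exact h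
  rw [min_eq_left (by linarith), max_eq_right (by norm_num)]
  norm_num

lemma xi_eq_one {ε : ℝ} (hε : 0 < ε) {x : ℂ} (h : 4 * ε ≤ ‖x‖) : xi ε x = 1 := by
  unfold xi
  have h1 : 2 ≤ ‖x‖ / (2 * ε) := by rw [le_div_iff₀ (by positivity)]; linarith
  rw [max_eq_left]
  · norm_num
  · exact (min_le_right _ _).trans (by linarith)

/-- survival weight -/
noncomputable def QQ (a : ℕ → ℝ) (n : ℕ → ℕ) (ε : ℝ) (s e : ℕ) (θ : ℝ) (w : ℂ) : ℝ :=
  ∏ i ∈ Finset.Ico s e, xi ε (SS a n i θ - w)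

lemma continuous_QQ (a : ℕ → ℝ) (n : ℕ → ℕ) (ε : ℝ) (s e : ℕ) :
    Continuous (fun p : ℝ × ℂ => QQ a n ε s e p.1 p.2) := by
  unfold QQ
  apply continuous_finsetProd
  intro i _
  apply (continuous_xi ε).comp
  exact ((continuous_SS a n i).comp continuous_fst).sub continuous_snd

lemma QQ_nonneg (a : ℕ → ℝ) (n : ℕ → ℕ) (ε : ℝ) (s e : ℕ) (θ : ℝ) (w : ℂ) :
    0 ≤ QQ a n ε s e θ w := Finset.prod_nonneg (fun _ _ => xi_nonneg _ _)

lemma QQ_le_one (a : ℕ → ℝ) (n : ℕ → ℕ) (ε : ℝ) (s e : ℕ) (θ : ℝ) (w : ℂ) :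
    QQ a n ε s e θ w ≤ 1 := Finset.prod_le_one (fun _ _ => xi_nonneg _ _) (fun _ _ => xi_le_one _ _)

lemma QQ_succ (a : ℕ → ℝ) (n : ℕ → ℕ) (ε : ℝ) {s e : ℕ} (h : s ≤ e) (θ : ℝ) (w : ℂ) :
    QQ a n ε s (e + 1) θ w = QQ a n ε s e θ w * xi ε (SS a n e θ - w) := by
  unfold QQ
  rw [Finset.prod_Ico_succ_top h]

lemma QQ_congr (a : ℕ → ℝ) {n n' : ℕ → ℕ} (ε : ℝ) {s e : ℕ} (h : ∀ j < e, n j = n' j) (θ : ℝ)
    (w : ℂ) : QQ a n ε s (e + 1) θ w = QQ a n' ε s (e + 1) θ w := by
  unfold QQ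
  apply Finset.prod_congr rfl
  intro i hi
  rw [Finset.mem_Ico] at hi
  rw [SS_congr a (n := n) (n' := n') (k := i) (fun j hj => h j (by omega))]

/-- conditions on the choice of the exponent `n k = N` -/
structure Cond (a : ℕ → ℝ) (b : ℕ → ℕ) (R : ℕ → ℝ) (G : ℕ → ℝ) (k : ℕ) (n : ℕ → ℕ) (N : ℕ) :
    Prop where
  pot : ∀ w ∈ closedBall (0:ℂ) (R k),
    av (fun θ => QQ a n (a k) (b k) (k + 1) θ w * hh (a k) (SS a n k θ - w)) - (1 / 2) ^ (k + 1) ≤
    av (fun θ => QQ a n (a k) (b k) (k + 1) θ w *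
      hh (a k) (circleMap (SS a n k θ) (a k) (N * θ) - w))
  sq : av (fun θ => ‖circleMap (SS a n k θ) (a k) (N * θ)‖ ^ 2) ≤
    av (fun θ => ‖SS a n k θ‖ ^ 2) + (a k) ^ 2 + (1 / 2) ^ (k + 1)
  cos : |av (fun θ => Real.cos (circleMap (SS a n k θ) (a k) (N * θ) - SS a n (b k) θ).re)| ≤
    (1 - (a k) ^ 2 / 10) * |av (fun θ => Real.cos (SS a n k θ - SS a n (b k) θ).re)|
      + (1 / 2) ^ (k + 1)
  pos : 1 ≤ N
  growth : ∀ j < k, G k * n j ≤ N

lemma Cond.congr {a : ℕ → ℝ} {b : ℕ → ℕ} (hb : ∀ k, b k ≤ k) {R G : ℕ → ℝ} {k : ℕ}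
    {n n' : ℕ → ℕ} {N : ℕ} (h : ∀ j < k, n j = n' j) (hc : Cond a b R G k n N) :
    Cond a b R G k n' N := by
  have e1 : SS a n k = SS a n' k := SS_congr a h
  have e2 : SS a n (b k) = SS a n' (b k) := SS_congr a (fun j hj => h j (hj.trans_le (hb k)))
  refine ⟨?_, ?_, ?_, hc.pos, ?_⟩
  · intro w hw
    have := hc.pot w hw
    simp only [e1, QQ_congr a (a k) (s := b k) h] at this
    exact this
  · have := hc.sq
    simp only [e1] at this
    exact this
  · have := hc.cos
    simp only [e1, e2] at this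
    exact this
  · intro j hj
    rw [← h j hj]
    exact hc.growth j hj

lemma circleMap_sub (x w : ℂ) (a φ : ℝ) : circleMap x a φ - w = circleMap (x - w) a φ := by
  unfold circleMap; ring

lemma continuous_circleMap' : Continuous (fun p : ℂ × ℝ × ℝ => circleMap p.1 p.2.1 p.2.2) := by
  unfold circleMap
  fun_prop

lemma exists_Cond {a : ℕ → ℝ} (ha : ∀ k, 0 < a k) (ha1 : ∀ k, a k ≤ 1) (b : ℕ → ℕ)
    (hb : ∀ k, b k ≤ k) (R G : ℕ → ℝ) (k : ℕ) (n : ℕ → ℕ) : ∃ N, Cond a b R G k n N := by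
  have hη : (0:ℝ) < (1 / 2) ^ (k + 1) := by positivity
  have hS : Continuous (SS a n k) := continuous_SS a n k
  have hSb : Continuous (SS a n (b k)) := continuous_SS a n (b k)
  have hcm : ∀ x : ℂ, Continuous (fun φ : ℝ => circleMap x (a k) φ) :=
    fun x => continuous_circleMap x (a k)
  -- potential
  have h1 := fejer (isCompact_closedBall (0:ℂ) (R k))
    (fun w θ φ => QQ a n (a k) (b k) (k + 1) θ w * hh (a k) (circleMap (SS a n k θ) (a k) φ - w))
    (by
      apply Continuous.mul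
      · exact (continuous_QQ a n (a k) (b k) (k + 1)).comp
          (f := fun p : ℂ × ℝ × ℝ => (p.2.1, p.1)) (by fun_prop)
      · apply (continuous_hh (ha k)).comp
        apply Continuous.sub _ continuous_fst
        exact continuous_circleMap'.comp
          (f := fun p : ℂ × ℝ × ℝ => (SS a n k p.2.1, a k, p.2.2)) (by fun_prop))
    (by
      intro w φ θ
      have e1 : QQ a n (a k) (b k) (k + 1) (θ + 2 * Real.pi) w = QQ a n (a k) (b k) (k + 1) θ w := by
        unfold QQ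
        apply Finset.prod_congr rfl
        intro i _
        rw [periodic_SS a n i θ]
      simp only [e1, periodic_SS a n k θ])
    (by
      intro w θ φ
      simp only
      rw [periodic_circleMap _ _ φ]) hη
  have h2 := fejer (isCompact_closedBall (0:ℂ) 1)
    (fun _ θ φ => ‖circleMap (SS a n k θ) (a k) φ‖ ^ 2)
    (by
      apply Continuous.pow
      apply Continuous.norm
      exact continuous_circleMap'.comp
          (f := fun p : ℂ × ℝ × ℝ => (SS a n k p.2.1, a k, p.2.2)) (by fun_prop))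
    (by
      intro w φ θ
      simp only [periodic_SS a n k θ])
    (by
      intro w θ φ
      simp only
      rw [periodic_circleMap _ _ φ]) hη
  have h3 := fejer (isCompact_closedBall (0:ℂ) 1)
    (fun _ θ φ => Real.cos (circleMap (SS a n k θ) (a k) φ - SS a n (b k) θ).re)
    (by
      apply Real.continuous_cos.comp
      apply Complex.continuous_re.comp
      apply Continuous.sub
      · exact continuous_circleMap'.comp
          (f := fun p : ℂ × ℝ × ℝ => (SS a n k p.2.1, a k, p.2.2)) (by fun_prop)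
      · fun_prop)
    (by
      intro w φ θ
      simp only [periodic_SS a n k θ, periodic_SS a n (b k) θ])
    (by
      intro w θ φ
      simp only
      rw [periodic_circleMap _ _ φ]) hη
  have h5 : ∀ᶠ N : ℕ in atTop, ∀ j < k, G k * n j ≤ N := by
    have h6 : ∀ᶠ N : ℕ in atTop, ∀ j ∈ Finset.range k, G k * n j ≤ N :=
      (Filter.eventually_all_finset _).mpr
        (fun j _ => tendsto_natCast_atTop_atTop.eventually_ge_atTop _)
    filter_upwards [h6] with N hN j hj
    exact hN j (Finset.mem_range.mpr hj)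
  obtain ⟨N, hN1, hN2, hN3, hN4, hN5⟩ :=
    (h1.and (h2.and (h3.and ((eventually_ge_atTop 1).and h5)))).exists
  refine ⟨N, ?_, ?_, ?_, hN4, hN5⟩
  · intro w hw
    have h6 := (abs_le.mp (hN1 w hw)).1
    have h7 : av (fun θ => QQ a n (a k) (b k) (k + 1) θ w * hh (a k) (SS a n k θ - w)) ≤
        av (fun θ => av (fun φ => QQ a n (a k) (b k) (k + 1) θ w *
          hh (a k) (circleMap (SS a n k θ) (a k) φ - w))) := by
      apply av_mono
      · apply Continuous.mul
        · exact (continuous_QQ a n (a k) (b k) (k + 1)).comp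
            (f := fun θ : ℝ => (θ, w)) (by fun_prop)
        · exact (continuous_hh (ha k)).comp (by fun_prop)
      · apply continuous_av (H := fun θ φ => QQ a n (a k) (b k) (k + 1) θ w *
          hh (a k) (circleMap (SS a n k θ) (a k) φ - w))
        apply Continuous.mul
        · exact (continuous_QQ a n (a k) (b k) (k + 1)).comp
            (f := fun p : ℝ × ℝ => (p.1, w)) (by fun_prop)
        · apply (continuous_hh (ha k)).comp
          apply Continuous.sub _ continuous_const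
          exact continuous_circleMap'.comp
            (f := fun p : ℝ × ℝ => (SS a n k p.1, a k, p.2)) (by fun_prop)
      · intro θ
        rw [av_const_mul]
        apply mul_le_mul_of_nonneg_left _ (QQ_nonneg _ _ _ _ _ _ _)
        simp only [circleMap_sub]
        exact hh_submean (ha k) _
    linarith
  · have h6 := (abs_le.mp (hN2 0 (by simp))).2
    simp only [av_normSq] at h6
    rw [av_add (by fun_prop) (by fun_prop), av_const] at h6
    linarith
  · have h6 := hN3 0 (by simp)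
    have h7 : (fun θ => av (fun φ => Real.cos (circleMap (SS a n k θ) (a k) φ - SS a n (b k) θ).re))
        = fun θ => JJ (a k) * Real.cos (SS a n k θ - SS a n (b k) θ).re := by
      ext θ
      simp only [circleMap_sub]
      exact av_cos_circleMap _ _
    rw [h7, av_const_mul] at h6
    set X := av (fun θ => Real.cos (circleMap (SS a n k θ) (a k) (N * θ) - SS a n (b k) θ).re)
    set Y := av (fun θ => Real.cos (SS a n k θ - SS a n (b k) θ).re)
    have h8 : |X| ≤ |JJ (a k) * Y| + (1 / 2) ^ (k + 1) := by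
      have := abs_sub_abs_le_abs_sub X (JJ (a k) * Y)
      linarith
    rw [abs_mul, abs_of_nonneg (JJ_nonneg (ha k).le (ha1 k))] at h8
    have h9 := mul_le_mul_of_nonneg_right (JJ_le (ha k).le (ha1 k)) (abs_nonneg Y)
    linarith

/-! ### Telescoping over a stage -/

lemma hh_near {ε : ℝ} (hε : 0 < ε) (x : ℂ) :
    (1 - xi ε x) * hh ε x ≤ (1 - xi ε x) * Real.log (4 * ε) := by
  rcases le_total (4 * ε) ‖x‖ with h | h
  · rw [xi_eq_one hε h]; simp
  · apply mul_le_mul_of_nonneg_left _ (by linarith [xi_le_one ε x])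
    unfold hh
    apply Real.log_le_log (lt_of_lt_of_le hε (le_max_right _ _))
    exact max_le h (by linarith)

lemma hh_le_sq {ε : ℝ} (hε : 0 < ε) (hε1 : ε ≤ 1) (x : ℂ) : hh ε x ≤ ‖x‖ ^ 2 := by
  unfold hh
  rcases le_total ‖x‖ 1 with h | h
  · have : Real.log (max ‖x‖ ε) ≤ 0 :=
      Real.log_nonpos (le_max_of_le_right hε.le) (max_le h hε1)
    nlinarith [sq_nonneg ‖x‖]
  · rw [max_eq_left (hε1.trans h)]
    have := Real.log_le_sub_one_of_pos (lt_of_lt_of_le one_pos h)
    nlinarith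

section stage

variable {a : ℕ → ℝ} {b : ℕ → ℕ} {R G : ℕ → ℝ} {n : ℕ → ℕ}

lemma continuous_hSS {ε : ℝ} (hε : 0 < ε) (k : ℕ) :
    Continuous (fun p : ℝ × ℂ => hh ε (SS a n k p.1 - p.2)) :=
  (continuous_hh hε).comp (((continuous_SS a n k).comp continuous_fst).sub continuous_snd)

lemma stage_pot (hc : ∀ k, Cond a b R G k n (n k)) {s M : ℕ} {ε r : ℝ} (hε : 0 < ε)
    (hak : ∀ k, s ≤ k → k < s + M → a k = ε ∧ b k = s ∧ R k = r) {w : ℂ}
    (hw : w ∈ closedBall (0:ℂ) r) (i : ℕ) (hi : i ≤ M) :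
    -Real.log (4 * ε) * (1 - av (fun θ => QQ a n ε s (s + i) θ w)) ≤
      av (fun θ => QQ a n ε s (s + i) θ w * hh ε (SS a n (s + i) θ - w)) -
        av (fun θ => hh ε (SS a n s θ - w)) + ((1 / 2) ^ s - (1 / 2) ^ (s + i)) := by
  have cQ : ∀ e, Continuous (fun θ => QQ a n ε s e θ w) := fun e =>
    (continuous_QQ a n ε s e).comp (f := fun θ : ℝ => (θ, w)) (by fun_prop)
  have ch : ∀ k, Continuous (fun θ => hh ε (SS a n k θ - w)) := fun k =>
    (continuous_hSS hε k).comp (f := fun θ : ℝ => (θ, w)) (by fun_prop)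
  induction i with
  | zero => simp [QQ, av_const]
  | succ i ih =>
    have ih := ih (by omega)
    obtain ⟨e1, e2, e3⟩ := hak (s + i) (by omega) (by omega)
    have h1 := (hc (s + i)).pot w (by rw [e3]; exact hw)
    rw [e1, e2] at h1
    have h2 : (fun θ => QQ a n ε s (s + i + 1) θ w *
        hh ε (circleMap (SS a n (s + i) θ) ε (n (s + i) * θ) - w)) =
        fun θ => QQ a n ε s (s + (i + 1)) θ w * hh ε (SS a n (s + (i + 1)) θ - w) := by
      ext θ
      rw [← add_assoc, SS_succ, e1]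
    rw [h2] at h1
    have h3 : av (fun θ => QQ a n ε s (s + i) θ w * hh ε (SS a n (s + i) θ - w)) +
        -Real.log (4 * ε) * (av (fun θ => QQ a n ε s (s + i) θ w)
          - av (fun θ => QQ a n ε s (s + i + 1) θ w)) ≤
        av (fun θ => QQ a n ε s (s + i + 1) θ w * hh ε (SS a n (s + i) θ - w)) := by
      rw [← av_sub (cQ _) (cQ _), ← av_const_mul,
        ← av_add (f := fun θ => QQ a n ε s (s + i) θ w * hh ε (SS a n (s + i) θ - w))
          (g := fun θ => -Real.log (4 * ε) * (QQ a n ε s (s + i) θ w - QQ a n ε s (s + i + 1) θ w))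
          ((cQ _).mul (ch _)) (continuous_const.mul ((cQ _).sub (cQ _)))]
      apply av_mono (((cQ _).mul (ch _)).add (continuous_const.mul ((cQ _).sub (cQ _))))
        ((cQ _).mul (ch _))
      intro θ
      simp only [Pi.add_apply, Pi.mul_apply, Pi.sub_apply]
      rw [QQ_succ a n ε (by omega : s ≤ s + i)]
      have h4 := mul_le_mul_of_nonneg_left (hh_near hε (SS a n (s + i) θ - w))
        (QQ_nonneg a n ε s (s + i) θ w)
      nlinarith
    have h5 : (1 / 2 : ℝ) ^ (s + (i + 1)) = (1 / 2) ^ (s + i) - (1 / 2) ^ (s + i + 1) := by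
      rw [← add_assoc, pow_succ]; ring
    rw [h5]
    rw [add_assoc] at h1 h3 ⊢
    nlinarith

lemma total_sq (hc : ∀ k, Cond a b R G k n (n k)) (k : ℕ) :
    av (fun θ => ‖SS a n k θ‖ ^ 2) ≤ ∑ j ∈ Finset.range k, (a j) ^ 2 + (1 - (1 / 2) ^ k) := by
  induction k with
  | zero => simp [SS, av_const]
  | succ k ih =>
    have h1 := (hc k).sq
    rw [Finset.sum_range_succ]
    have h2 : (fun θ => ‖SS a n (k + 1) θ‖ ^ 2) =
        fun θ => ‖circleMap (SS a n k θ) (a k) (n k * θ)‖ ^ 2 := rfl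
    rw [h2]
    have h5 : (1 / 2 : ℝ) ^ (k + 1) = (1 / 2) ^ k - (1 / 2) ^ (k + 1) := by
      rw [pow_succ]; ring
    rw [h5] at h1
    linarith

lemma stage_cos (hc : ∀ k, Cond a b R G k n (n k)) {s M : ℕ} {ε r : ℝ} (hε : 0 < ε) (hε1 : ε ≤ 1)
    (hak : ∀ k, s ≤ k → k < s + M → a k = ε ∧ b k = s ∧ R k = r) (i : ℕ) (hi : i ≤ M) :
    |av (fun θ => Real.cos (SS a n (s + i) θ - SS a n s θ).re)| ≤
      (1 - ε ^ 2 / 10) ^ i + ((1 / 2) ^ s - (1 / 2) ^ (s + i)) := by
  induction i with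
  | zero => simp [av_const]
  | succ i ih =>
    have ih := ih (by omega)
    obtain ⟨e1, e2, e3⟩ := hak (s + i) (by omega) (by omega)
    have h1 := (hc (s + i)).cos
    rw [e1, e2] at h1
    have h2 : (fun θ => Real.cos (circleMap (SS a n (s + i) θ) ε (n (s + i) * θ) - SS a n s θ).re)
        = fun θ => Real.cos (SS a n (s + (i + 1)) θ - SS a n s θ).re := by
      ext θ
      rw [← add_assoc, SS_succ, e1]
    rw [h2] at h1
    have h5 : (1 / 2 : ℝ) ^ (s + (i + 1)) = (1 / 2) ^ (s + i) - (1 / 2) ^ (s + i + 1) := by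
      rw [← add_assoc, pow_succ]; ring
    rw [h5]
    have hq0 : 0 ≤ 1 - ε ^ 2 / 10 := by nlinarith
    have hq1 : 1 - ε ^ 2 / 10 ≤ 1 := by nlinarith
    have h6 : 0 ≤ (1 / 2 : ℝ) ^ s - (1 / 2) ^ (s + i) := by
      have : (1 / 2 : ℝ) ^ (s + i) ≤ (1 / 2) ^ s :=
        pow_le_pow_of_le_one (by norm_num) (by norm_num) (by omega)
      linarith
    have h7 := mul_le_mul_of_nonneg_left ih hq0
    have h8 := mul_le_mul_of_nonneg_right hq1 h6
    rw [one_mul] at h8
    calc _ ≤ _ := h1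
      _ ≤ (1 - ε ^ 2 / 10) * ((1 - ε ^ 2 / 10) ^ i + ((1 / 2) ^ s - (1 / 2) ^ (s + i)))
          + (1 / 2) ^ (s + i + 1) := by linarith
      _ = (1 - ε ^ 2 / 10) ^ (i + 1) + (1 - ε ^ 2 / 10) * ((1 / 2) ^ s - (1 / 2) ^ (s + i))
          + (1 / 2) ^ (s + i + 1) := by ring
      _ ≤ _ := by linarith

end stage

/-! ### Integration over the plane -/

lemma integrable_g0 : Integrable (fun w : ℂ => max 0 (-Real.log ‖w‖)) := by
  rw [integrable_fun_norm_addHaar volume (f := fun r => max 0 (-Real.log r))]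
  rw [Complex.finrank_real_complex]
  have h1 : ∀ y ∈ Ioi (0:ℝ), ‖y ^ (2 - 1) • max 0 (-Real.log y)‖ ≤ indicator (Ioc (0:ℝ) 1) 1 y := by
    intro y hy
    have hy : 0 < y := hy
    simp only [Nat.add_one_sub_one, pow_one, smul_eq_mul]
    rw [Real.norm_eq_abs, abs_of_nonneg (mul_nonneg hy.le (le_max_left _ _))]
    rcases le_or_gt y 1 with h | h
    · rw [indicator_of_mem (show y ∈ Ioc (0:ℝ) 1 from ⟨hy, h⟩), Pi.one_apply]
      have h2 : -Real.log y ≤ y⁻¹ := by
        rw [← Real.log_inv]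
        have := Real.log_le_sub_one_of_pos (inv_pos.mpr hy)
        linarith
      have h3 : max 0 (-Real.log y) ≤ y⁻¹ := max_le (by positivity) h2
      calc y * max 0 (-Real.log y) ≤ y * y⁻¹ := mul_le_mul_of_nonneg_left h3 hy.le
        _ = 1 := mul_inv_cancel₀ hy.ne'
    · rw [indicator_of_notMem (fun hh => absurd hh.2 (not_le.mpr h))]
      have : -Real.log y ≤ 0 := by
        have := Real.log_nonneg h.le
        linarith
      rw [max_eq_left this, mul_zero]
  refine Integrable.mono' (g := indicator (Ioc (0:ℝ) 1) 1) ?_ ?_ ?_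
  · apply IntegrableOn.mono_set (t := univ) _ (subset_univ _)
    rw [integrableOn_univ]
    exact (integrable_indicator_iff measurableSet_Ioc).mpr
      (integrableOn_const (by simp) (by simp))
  · apply Measurable.aestronglyMeasurable
    fun_prop
  · exact (ae_restrict_iff' measurableSet_Ioi).mpr (ae_of_all _ h1)

lemma neg_hh_le (ε : ℝ) {y : ℂ} (hy : y ≠ 0) :
    -hh ε y ≤ max 0 (-Real.log ‖y‖) := by
  unfold hh
  have h1 := Real.log_le_log (norm_pos_iff.mpr hy) (le_max_left ‖y‖ ε)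
  exact le_max_of_le_right (by linarith)

lemma setIntegral_neg_hh_le {ε : ℝ} (hε : 0 < ε) (x : ℂ) {B : Set ℂ} (hB : IsCompact B) :
    ∫ w in B, -hh ε (x - w) ≤ ∫ w : ℂ, max 0 (-Real.log ‖w‖) := by
  have h2 : Integrable (fun w : ℂ => max 0 (-Real.log ‖x - w‖)) :=
    integrable_g0.comp_sub_left x
  calc ∫ w in B, -hh ε (x - w) ≤ ∫ w in B, max 0 (-Real.log ‖x - w‖) := by
        apply integral_mono_ae
        · apply ContinuousOn.integrableOn_compact hB
          exact ((continuous_hh hε).comp (by fun_prop)).neg.continuousOn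
        · exact h2.integrableOn
        · apply ae_restrict_of_ae
          have : ∀ᵐ w : ℂ, w ≠ x := by
            rw [ae_iff]; simp
          filter_upwards [this] with w hw
          exact neg_hh_le ε (sub_ne_zero.mpr hw.symm)
    _ ≤ ∫ w : ℂ, max 0 (-Real.log ‖x - w‖) :=
        setIntegral_le_integral h2 (ae_of_all _ (fun w => le_max_left _ _))
    _ = _ := integral_sub_left_eq_self (fun w : ℂ => max 0 (-Real.log ‖w‖)) volume x

lemma integrable_prod_cont {B : Set ℂ} (hB : IsCompact B) {F : ℝ × ℂ → ℝ} (hF : Continuous F) :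
    Integrable F ((volume.restrict (Ioc (0:ℝ) (2 * Real.pi))).prod (volume.restrict B)) := by
  rw [Measure.prod_restrict]
  have h1 : IntegrableOn F (Icc (0:ℝ) (2 * Real.pi) ×ˢ B) (volume.prod volume) :=
    hF.continuousOn.integrableOn_compact (isCompact_Icc.prod hB)
  exact h1.mono_set (Set.prod_mono Ioc_subset_Icc_self subset_rfl)

lemma integral_prod_av {B : Set ℂ} (hB : IsCompact B) {F : ℝ × ℂ → ℝ} (hF : Continuous F) :
    ∫ p, F p ∂((volume.restrict (Ioc (0:ℝ) (2 * Real.pi))).prod (volume.restrict B)) =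
      2 * Real.pi * ∫ w in B, av (fun θ => F (θ, w)) := by
  rw [integral_prod_symm _ (integrable_prod_cont hB hF)]
  unfold av
  rw [integral_const_mul]
  have := Real.pi_pos
  have h2 : ∀ w : ℂ, ∫ θ in (0:ℝ)..(2 * Real.pi), F (θ, w) =
      ∫ θ in Ioc (0:ℝ) (2 * Real.pi), F (θ, w) := fun w =>
    intervalIntegral.integral_of_le (by positivity)
  simp only [h2]
  field_simp

lemma integral_prod_av' {B : Set ℂ} (hB : IsCompact B) {F : ℝ × ℂ → ℝ} (hF : Continuous F) :
    ∫ p, F p ∂((volume.restrict (Ioc (0:ℝ) (2 * Real.pi))).prod (volume.restrict B)) =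
      2 * Real.pi * av (fun θ => ∫ w in B, F (θ, w)) := by
  rw [integral_prod _ (integrable_prod_cont hB hF)]
  unfold av
  have := Real.pi_pos
  rw [intervalIntegral.integral_of_le (by positivity)]
  field_simp

lemma av_neg_hh_le {ε : ℝ} (hε : 0 < ε) {S : ℝ → ℂ} (hS : Continuous S) {B : Set ℂ}
    (hB : IsCompact B) :
    ∫ w in B, av (fun θ => -hh ε (S θ - w)) ≤ ∫ w : ℂ, max 0 (-Real.log ‖w‖) := by
  have hF : Continuous (fun p : ℝ × ℂ => -hh ε (S p.1 - p.2)) :=
    ((continuous_hh hε).comp (by fun_prop)).neg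
  have h1 := integral_prod_av hB hF
  have h2 := integral_prod_av' hB hF
  have h3 : 2 * Real.pi * ∫ w in B, av (fun θ => -hh ε (S θ - w)) =
      2 * Real.pi * av (fun θ => ∫ w in B, -hh ε (S θ - w)) := by
    rw [← h1, h2]
  have h4 := mul_left_cancel₀ (by positivity) h3
  rw [h4]
  have h5 := (integrable_prod_cont hB hF).integral_prod_left
  unfold av
  rw [inv_mul_le_iff₀ (by positivity), intervalIntegral.integral_of_le (by positivity)]
  calc ∫ θ in Ioc (0:ℝ) (2 * Real.pi), ∫ w in B, -hh ε (S θ - w)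
      ≤ ∫ θ in Ioc (0:ℝ) (2 * Real.pi), ∫ w : ℂ, max 0 (-Real.log ‖w‖) := by
        apply integral_mono h5 (integrable_const _)
        intro θ
        exact setIntegral_neg_hh_le hε (S θ) hB
    _ = _ := by
        rw [setIntegral_const]
        simp [Real.pi_pos.le]

lemma continuous_av' {X : Type*} [TopologicalSpace X] {H : X → ℝ → ℝ}
    (hH : Continuous (Function.uncurry H)) :
    Continuous (fun x => av (fun y => H x y)) := by
  unfold av
  apply Continuous.mul continuous_const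
  exact intervalIntegral.continuous_parametric_intervalIntegral_of_continuous' hH _ _

/-- the constant `∫ log⁺ (1/|w|)` -/
noncomputable def c0 : ℝ := ∫ w : ℂ, max 0 (-Real.log ‖w‖)

/-- bound for the potential in a stage -/
noncomputable def bnd (r T : ℝ) : ℝ :=
  2 * Real.pi * ((∫ w in closedBall (0:ℂ) r, (2 * T + 2 * ‖w‖ ^ 2 + 1)) + c0)

/-- the hitting set of a stage -/
def Hit (a : ℕ → ℝ) (n : ℕ → ℕ) (ε r : ℝ) (s M : ℕ) : Set (ℝ × ℂ) :=
  {p | p.2 ∈ closedBall (0:ℂ) r ∧ ∃ k, s ≤ k ∧ k < s + M ∧ ‖SS a n k p.1 - p.2‖ ≤ 2 * ε}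

section stage2

variable {a : ℕ → ℝ} {b : ℕ → ℕ} {R G : ℕ → ℝ} {n : ℕ → ℕ}

lemma stage_bound (hc : ∀ k, Cond a b R G k n (n k)) {s M : ℕ} {ε r T : ℝ} (hε : 0 < ε)
    (hε1 : ε ≤ 1) (hak : ∀ k, s ≤ k → k < s + M → a k = ε ∧ b k = s ∧ R k = r)
    (hT : av (fun θ => ‖SS a n (s + M) θ‖ ^ 2) ≤ T) :
    -Real.log (4 * ε) * (2 * Real.pi * ∫ w in closedBall (0:ℂ) r,
      av (fun θ => 1 - QQ a n ε s (s + M) θ w)) ≤ bnd r T := by
  have hB : IsCompact (closedBall (0:ℂ) r) := isCompact_closedBall _ _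
  have cS : ∀ k, Continuous (SS a n k) := continuous_SS a n
  have cQ : ∀ e (w : ℂ), Continuous (fun θ => QQ a n ε s e θ w) := fun e w =>
    (continuous_QQ a n ε s e).comp (f := fun θ : ℝ => (θ, w)) (by fun_prop)
  have ch : ∀ k (w : ℂ), Continuous (fun θ => hh ε (SS a n k θ - w)) := fun k w =>
    (continuous_hSS hε k).comp (f := fun θ : ℝ => (θ, w)) (by fun_prop)
  have key : ∀ w ∈ closedBall (0:ℂ) r,
      -Real.log (4 * ε) * av (fun θ => 1 - QQ a n ε s (s + M) θ w) ≤
      (2 * T + 2 * ‖w‖ ^ 2 + 1) + av (fun θ => -hh ε (SS a n s θ - w)) := by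
    intro w hw
    have h1 := stage_pot hc hε hak hw M le_rfl
    have h2 : av (fun θ => 1 - QQ a n ε s (s + M) θ w) =
        1 - av (fun θ => QQ a n ε s (s + M) θ w) := by
      rw [av_sub continuous_const (cQ _ w), av_const]
    have h3 : av (fun θ => -hh ε (SS a n s θ - w)) = - av (fun θ => hh ε (SS a n s θ - w)) := by
      have : (fun θ => -hh ε (SS a n s θ - w)) = fun θ => (-1) * hh ε (SS a n s θ - w) := by
        ext θ; ring
      rw [this, av_const_mul]; ring
    have h4 : (1 / 2 : ℝ) ^ s - (1 / 2) ^ (s + M) ≤ 1 := by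
      have : (1 / 2 : ℝ) ^ s ≤ 1 := pow_le_one₀ (by norm_num) (by norm_num)
      have : (0:ℝ) < (1 / 2 : ℝ) ^ (s + M) := by positivity
      linarith
    have h5 : av (fun θ => QQ a n ε s (s + M) θ w * hh ε (SS a n (s + M) θ - w)) ≤
        2 * T + 2 * ‖w‖ ^ 2 := by
      calc av (fun θ => QQ a n ε s (s + M) θ w * hh ε (SS a n (s + M) θ - w))
          ≤ av (fun θ => 2 * ‖SS a n (s + M) θ‖ ^ 2 + 2 * ‖w‖ ^ 2) := by
            apply av_mono ((cQ _ w).mul (ch _ w)) (by have := cS (s + M); fun_prop)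
            intro θ
            have e1 := hh_le_sq hε hε1 (SS a n (s + M) θ - w)
            have e2 := QQ_nonneg a n ε s (s + M) θ w
            have e3 := QQ_le_one a n ε s (s + M) θ w
            have e4 : ‖SS a n (s + M) θ - w‖ ≤ ‖SS a n (s + M) θ‖ + ‖w‖ := norm_sub_le _ _
            have e5 : ‖SS a n (s + M) θ - w‖ ^ 2 ≤ 2 * ‖SS a n (s + M) θ‖ ^ 2 + 2 * ‖w‖ ^ 2 := by
              have := norm_nonneg (SS a n (s + M) θ - w)
              nlinarith [sq_nonneg (‖SS a n (s + M) θ‖ - ‖w‖)]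
            have e6 : QQ a n ε s (s + M) θ w * hh ε (SS a n (s + M) θ - w) ≤
                QQ a n ε s (s + M) θ w * ‖SS a n (s + M) θ - w‖ ^ 2 :=
              mul_le_mul_of_nonneg_left e1 e2
            have e7 : QQ a n ε s (s + M) θ w * ‖SS a n (s + M) θ - w‖ ^ 2 ≤
                1 * ‖SS a n (s + M) θ - w‖ ^ 2 :=
              mul_le_mul_of_nonneg_right e3 (sq_nonneg _)
            simp only [Pi.mul_apply]
            linarith
        _ = 2 * av (fun θ => ‖SS a n (s + M) θ‖ ^ 2) + 2 * ‖w‖ ^ 2 := by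
            rw [av_add (by have := cS (s + M); fun_prop) continuous_const, av_const_mul, av_const]
        _ ≤ _ := by linarith
    rw [h2, h3]
    linarith
  have i1 : Continuous (fun w : ℂ => av (fun θ => 1 - QQ a n ε s (s + M) θ w)) := by
    apply continuous_av' (H := fun (w : ℂ) θ => 1 - QQ a n ε s (s + M) θ w)
    apply continuous_const.sub
    exact (continuous_QQ a n ε s (s + M)).comp (f := fun p : ℂ × ℝ => (p.2, p.1)) (by fun_prop)
  have i2 : Continuous (fun w : ℂ => av (fun θ => -hh ε (SS a n s θ - w))) := by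
    apply continuous_av' (H := fun (w : ℂ) θ => -hh ε (SS a n s θ - w))
    apply Continuous.neg
    exact (continuous_hSS hε s).comp (f := fun p : ℂ × ℝ => (p.2, p.1)) (by fun_prop)
  have j1 : IntegrableOn (fun w : ℂ => -Real.log (4 * ε) *
      av (fun θ => 1 - QQ a n ε s (s + M) θ w)) (closedBall (0:ℂ) r) :=
    (continuous_const.mul i1).continuousOn.integrableOn_compact hB
  have j3 : IntegrableOn (fun w : ℂ => (2 * T + 2 * ‖w‖ ^ 2 + 1)) (closedBall (0:ℂ) r) :=
    (by fun_prop : Continuous (fun w : ℂ => (2 * T + 2 * ‖w‖ ^ 2 + 1))).continuousOn.integrableOn_compact hB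
  have j4 : IntegrableOn (fun w : ℂ => av (fun θ => -hh ε (SS a n s θ - w)))
      (closedBall (0:ℂ) r) := i2.continuousOn.integrableOn_compact hB
  have h6 := setIntegral_mono_on j1 (j3.add j4) measurableSet_closedBall key
  rw [integral_const_mul] at h6
  have h7 : ∫ w in closedBall (0:ℂ) r, ((2 * T + 2 * ‖w‖ ^ 2 + 1) +
      av (fun θ => -hh ε (SS a n s θ - w))) ≤
      (∫ w in closedBall (0:ℂ) r, (2 * T + 2 * ‖w‖ ^ 2 + 1)) + c0 := by
    rw [integral_add j3 j4]
    have := av_neg_hh_le hε (cS s) hB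
    unfold c0
    linarith
  have h8 := h6.trans h7
  unfold bnd
  have hpi := Real.pi_pos
  calc _ = 2 * Real.pi * (-Real.log (4 * ε) * ∫ w in closedBall (0:ℂ) r,
      av (fun θ => 1 - QQ a n ε s (s + M) θ w)) := by ring
    _ ≤ _ := mul_le_mul_of_nonneg_left h8 (by positivity)

lemma measure_Hit_le (hc : ∀ k, Cond a b R G k n (n k)) {s M : ℕ} {ε r T δ : ℝ} (hε : 0 < ε)
    (hε1 : ε ≤ 1) (hak : ∀ k, s ≤ k → k < s + M → a k = ε ∧ b k = s ∧ R k = r)
    (hT : av (fun θ => ‖SS a n (s + M) θ‖ ^ 2) ≤ T) (hL : 0 < -Real.log (4 * ε))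
    (hδ : bnd r T ≤ δ * -Real.log (4 * ε)) :
    ((volume.restrict (Ioc (0:ℝ) (2 * Real.pi))).prod (volume : Measure ℂ)) (Hit a n ε r s M) ≤
      ENNReal.ofReal δ := by
  have hB : IsCompact (closedBall (0:ℂ) r) := isCompact_closedBall _ _
  have h1 := stage_bound hc hε hε1 hak hT
  have hF : Continuous (fun p : ℝ × ℂ => 1 - QQ a n ε s (s + M) p.1 p.2) :=
    continuous_const.sub (continuous_QQ a n ε s (s + M))
  have h2 := integral_prod_av hB hF
  have h3 : ∫ p, (fun p : ℝ × ℂ => 1 - QQ a n ε s (s + M) p.1 p.2) p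
      ∂((volume.restrict (Ioc (0:ℝ) (2 * Real.pi))).prod
      (volume.restrict (closedBall (0:ℂ) r))) ≤ δ := by
    rw [h2]
    have h4 := h1.trans hδ
    rw [mul_comm δ] at h4
    exact le_of_mul_le_mul_left h4 hL
  have h5 := mul_meas_ge_le_integral_of_nonneg (ae_of_all _ (fun p : ℝ × ℂ => by
    show (0:ℝ) ≤ 1 - QQ a n ε s (s + M) p.1 p.2
    linarith [QQ_le_one a n ε s (s + M) p.1 p.2])) (integrable_prod_cont hB hF) 1
  rw [one_mul] at h5
  have h6 : Hit a n ε r s M ⊆ {p : ℝ × ℂ | 1 ≤ 1 - QQ a n ε s (s + M) p.1 p.2} := by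
    rintro p ⟨_, k, hk1, hk2, hk3⟩
    have : QQ a n ε s (s + M) p.1 p.2 = 0 := by
      unfold QQ
      apply Finset.prod_eq_zero (Finset.mem_Ico.mpr ⟨hk1, hk2⟩)
      exact xi_eq_zero hε hk3
    show 1 ≤ 1 - QQ a n ε s (s + M) p.1 p.2
    rw [this]; norm_num
  have h7 : ((volume.restrict (Ioc (0:ℝ) (2 * Real.pi))).prod (volume : Measure ℂ))
      (Hit a n ε r s M) = ((volume.restrict (Ioc (0:ℝ) (2 * Real.pi))).prod
      (volume.restrict (closedBall (0:ℂ) r))) (Hit a n ε r s M) := by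
    have e1 : ((volume.restrict (Ioc (0:ℝ) (2 * Real.pi))).prod
      (volume.restrict (closedBall (0:ℂ) r))) =
      ((volume.restrict (Ioc (0:ℝ) (2 * Real.pi))).prod (volume : Measure ℂ)).restrict
        (univ ×ˢ closedBall (0:ℂ) r) := by
      rw [← Measure.prod_restrict, Measure.restrict_univ]
    rw [e1, Measure.restrict_apply' (MeasurableSet.univ.prod measurableSet_closedBall)]
    congr 1
    symm
    rw [inter_eq_left]
    intro p hp
    exact ⟨mem_univ _, hp.1⟩
  rw [h7]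
  have hfin : IsFiniteMeasure ((volume.restrict (Ioc (0:ℝ) (2 * Real.pi))).prod
      (volume.restrict (closedBall (0:ℂ) r))) := by
    have : IsFiniteMeasure (volume.restrict (closedBall (0:ℂ) r)) :=
      ⟨by rw [Measure.restrict_apply_univ]; exact hB.measure_lt_top⟩
    infer_instance
  calc _ ≤ _ := measure_mono h6
    _ = ENNReal.ofReal (((volume.restrict (Ioc (0:ℝ) (2 * Real.pi))).prod
      (volume.restrict (closedBall (0:ℂ) r))).real
        {p : ℝ × ℂ | 1 ≤ 1 - QQ a n ε s (s + M) p.1 p.2}) := by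
        rw [measureReal_def, ENNReal.ofReal_toReal (measure_ne_top _ _)]
    _ ≤ _ := ENNReal.ofReal_le_ofReal (h5.trans h3)

end stage2

/-! ### The global parameters -/

section params

variable (m : ℕ → ℕ)

/-- start of stage `t` -/
def KK (t : ℕ) : ℕ := ∑ i ∈ Finset.range t, 4 ^ (m i)

lemma KK_succ (t : ℕ) : KK m (t + 1) = KK m t + 4 ^ (m t) := by
  unfold KK; rw [Finset.sum_range_succ]

lemma KK_strictMono : StrictMono (KK m) := by
  apply strictMono_nat_of_lt_succ
  intro t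
  rw [KK_succ]
  have : 0 < 4 ^ (m t) := by positivity
  omega

lemma exists_stage (k : ℕ) : ∃ t, k < KK m (t + 1) :=
  ⟨k, lt_of_lt_of_le (Nat.lt_succ_self k) ((KK_strictMono m).le_apply)⟩

/-- the stage of an index -/
def st (k : ℕ) : ℕ := Nat.find (exists_stage m k)

lemma lt_KK_st (k : ℕ) : k < KK m (st m k + 1) := Nat.find_spec (exists_stage m k)

lemma KK_st_le (k : ℕ) : KK m (st m k) ≤ k := by
  rcases Nat.eq_zero_or_pos (st m k) with h | h
  · rw [h]; simp [KK]
  · have := Nat.find_min (exists_stage m k) (m := st m k - 1) (by unfold st at h ⊢; omega)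
    rw [show st m k - 1 + 1 = st m k by omega] at this
    omega

lemma st_eq {t k : ℕ} (h1 : KK m t ≤ k) (h2 : k < KK m t + 4 ^ (m t)) : st m k = t := by
  rw [← KK_succ] at h2
  apply le_antisymm
  · exact Nat.find_min' (exists_stage m k) h2
  · by_contra h
    push Not at h
    have h3 := lt_KK_st m k
    have h4 := (KK_strictMono m).monotone (show st m k + 1 ≤ t by omega)
    omega

lemma le_st {t k : ℕ} (h1 : KK m t ≤ k) : t ≤ st m k := by
  by_contra h
  push Not at h
  have h3 := lt_KK_st m k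
  have h4 := (KK_strictMono m).monotone (show st m k + 1 ≤ t by omega)
  omega

/-- step sizes -/
noncomputable def aa (k : ℕ) : ℝ := (1 / 2) ^ (m (st m k))

/-- start of the current stage -/
def bb (k : ℕ) : ℕ := KK m (st m k)

/-- radius of the current window -/
noncomputable def RR (k : ℕ) : ℝ := st m k + 1

lemma aa_pos (k : ℕ) : 0 < aa m k := by unfold aa; positivity

lemma aa_le_one (k : ℕ) : aa m k ≤ 1 := by
  unfold aa
  exact pow_le_one₀ (by norm_num) (by norm_num)

lemma bb_le (k : ℕ) : bb m k ≤ k := KK_st_le m k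

lemma aa_stage (t : ℕ) : ∀ k, KK m t ≤ k → k < KK m t + 4 ^ (m t) →
    aa m k = (1 / 2) ^ (m t) ∧ bb m k = KK m t ∧ RR m k = t + 1 := by
  intro k h1 h2
  unfold aa bb RR
  rw [st_eq m h1 h2]
  exact ⟨rfl, rfl, rfl⟩

lemma four_pow_mul (j : ℕ) : (4:ℝ) ^ j * ((1 / 2) ^ j) ^ 2 = 1 := by
  rw [← pow_mul, mul_comm j 2, pow_mul, ← mul_pow]
  norm_num

lemma sum_aa_sq (t : ℕ) : ∑ j ∈ Finset.range (KK m t), (aa m j) ^ 2 = t := by
  induction t with
  | zero => simp [KK]
  | succ t ih =>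
    rw [KK_succ, Finset.sum_range_add, ih]
    have h1 : ∀ x ∈ Finset.range (4 ^ (m t)), (aa m (KK m t + x)) ^ 2 = ((1 / 2) ^ (m t)) ^ 2 := by
      intro x hx
      rw [Finset.mem_range] at hx
      rw [(aa_stage m t (KK m t + x) (by omega) (by omega)).1]
    rw [Finset.sum_congr rfl h1, Finset.sum_const, Finset.card_range, nsmul_eq_mul]
    push_cast
    rw [four_pow_mul]

lemma aa_tendsto (hm : ∀ t, t ≤ m t) : Tendsto (aa m) atTop (𝓝 0) := by
  have h1 : Tendsto (fun k => m (st m k)) atTop atTop := by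
    apply tendsto_atTop_mono (f := fun k => st m k) (fun k => hm _)
    rw [Filter.tendsto_atTop]
    intro t
    filter_upwards [eventually_ge_atTop (KK m t)] with k hk
    exact le_st m hk
  exact (tendsto_pow_atTop_nhds_zero_of_lt_one (by norm_num : (0:ℝ) ≤ 1 / 2) (by norm_num)).comp h1

end params

section main

variable {m : ℕ → ℕ} {G : ℕ → ℝ} {n : ℕ → ℕ}

/-- a.e. direction, a.e. value is eventually avoided -/
lemma main_ae (hm3 : ∀ t, t + 3 ≤ m t)
    (hm : ∀ t : ℕ, bnd (t + 1) (t + 2) ≤ (1 / 2) ^ t * -Real.log (4 * (1 / 2) ^ (m t)))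
    (hc : ∀ k, Cond (aa m) (bb m) (RR m) G k n (n k)) :
    ∀ᵐ θ ∂(volume.restrict (Ioc (0:ℝ) (2 * Real.pi))), ∀ᵐ w : ℂ,
      ∀ᶠ k in atTop, 2 * aa m k < ‖SS (aa m) n k θ - w‖ := by
  set μ := (volume.restrict (Ioc (0:ℝ) (2 * Real.pi))).prod (volume : Measure ℂ) with hμ
  have h1 : ∀ t : ℕ, μ (Hit (aa m) n ((1 / 2) ^ (m t)) (t + 1) (KK m t) (4 ^ (m t))) ≤
      ENNReal.ofReal ((1 / 2) ^ t) := by
    intro t
    have hlt : 4 * (1 / 2 : ℝ) ^ (m t) < 1 := by
      have : (1 / 2 : ℝ) ^ (m t) ≤ (1 / 2) ^ 3 :=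
        pow_le_pow_of_le_one (by norm_num) (by norm_num) (by have := hm3 t; omega)
      norm_num at this ⊢
      linarith
    apply measure_Hit_le (r := (t:ℝ) + 1) (T := (t:ℝ) + 2) hc (by positivity)
      (pow_le_one₀ (by norm_num) (by norm_num)) (aa_stage m t)
    · have h2 := total_sq hc (KK m (t + 1))
      rw [sum_aa_sq, KK_succ] at h2
      have : (0:ℝ) < (1 / 2) ^ (KK m t + 4 ^ m t) := by positivity
      push_cast at h2
      linarith
    · have := Real.log_neg (by positivity) hlt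
      linarith
    · exact hm t
  have h2 : ∑' t, μ (Hit (aa m) n ((1 / 2) ^ (m t)) (t + 1) (KK m t) (4 ^ (m t))) ≠ ⊤ := by
    apply ne_top_of_le_ne_top _ (ENNReal.tsum_le_tsum h1)
    rw [← ENNReal.ofReal_tsum_of_nonneg (fun t => by positivity)
      (summable_geometric_of_lt_one (by norm_num) (by norm_num))]
    exact ENNReal.ofReal_ne_top
  have h3 := measure_setOfPred_frequently_eq_zero
    (p := fun t x => x ∈ Hit (aa m) n ((1 / 2) ^ (m t)) (t + 1) (KK m t) (4 ^ (m t))) h2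
  have h4 : ∀ᵐ p ∂μ, ∀ᶠ t in atTop,
      p ∉ Hit (aa m) n ((1 / 2) ^ (m t)) (t + 1) (KK m t) (4 ^ (m t)) := by
    rw [ae_iff]
    simpa only [not_eventually, not_not] using h3
  have h5 := Measure.ae_ae_of_ae_prod h4
  filter_upwards [h5] with θ hθ
  filter_upwards [hθ] with w hw
  have h6 : ∀ᶠ t : ℕ in atTop, ‖w‖ ≤ (t:ℝ) + 1 := by
    filter_upwards [tendsto_natCast_atTop_atTop.eventually_ge_atTop ‖w‖] with t ht
    linarith
  obtain ⟨t0, ht0⟩ := eventually_atTop.mp (hw.and h6)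
  filter_upwards [eventually_ge_atTop (KK m t0)] with k hk
  have h7 := le_st m hk
  obtain ⟨h8, h9⟩ := ht0 (st m k) h7
  by_contra h10
  push Not at h10
  apply h8
  refine ⟨?_, k, KK_st_le m k, ?_, h10⟩
  · simpa using h9
  · rw [← KK_succ]; exact lt_KK_st m k

/-- the partial sums do not converge almost everywhere -/
lemma not_ae_conv
    (hc : ∀ k, Cond (aa m) (bb m) (RR m) G k n (n k)) :
    ¬ (∀ᵐ θ ∂(volume.restrict (Ioc (0:ℝ) (2 * Real.pi))),
      ∃ L, Tendsto (fun k => SS (aa m) n k θ) atTop (𝓝 L)) := by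
  intro hconv
  have hK : Tendsto (KK m) atTop atTop := (KK_strictMono m).tendsto_atTop
  have h1 : ∀ᵐ θ ∂(volume.restrict (Ioc (0:ℝ) (2 * Real.pi))),
      Tendsto (fun t => Real.cos (SS (aa m) n (KK m (t + 1)) θ - SS (aa m) n (KK m t) θ).re)
        atTop (𝓝 1) := by
    filter_upwards [hconv] with θ hθ
    obtain ⟨L, hL⟩ := hθ
    have h2 := (hL.comp (hK.comp (tendsto_add_atTop_nat 1))).sub (hL.comp hK)
    rw [sub_self] at h2
    have h3 := (Real.continuous_cos.comp Complex.continuous_re).continuousAt.tendsto.comp h2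
    have e : (Real.cos ∘ Complex.re) 0 = 1 := by simp
    rw [e] at h3
    exact h3
  have h2 : Tendsto (fun t => ∫ θ in Ioc (0:ℝ) (2 * Real.pi),
      Real.cos (SS (aa m) n (KK m (t + 1)) θ - SS (aa m) n (KK m t) θ).re) atTop
      (𝓝 (∫ θ in Ioc (0:ℝ) (2 * Real.pi), (1:ℝ))) := by
    apply tendsto_integral_of_dominated_convergence (fun _ => (1:ℝ))
    · intro t
      apply Continuous.aestronglyMeasurable
      have c1 := continuous_SS (aa m) n (KK m (t + 1))
      have c2 := continuous_SS (aa m) n (KK m t)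
      fun_prop
    · exact integrable_const _
    · intro t
      exact ae_of_all _ (fun θ => by rw [Real.norm_eq_abs]; exact Real.abs_cos_le_one _)
    · exact h1
  have h3 : Tendsto (fun t => av (fun θ =>
      Real.cos (SS (aa m) n (KK m (t + 1)) θ - SS (aa m) n (KK m t) θ).re)) atTop (𝓝 1) := by
    have h4 := h2.const_mul (2 * Real.pi)⁻¹
    have h5 : (2 * Real.pi)⁻¹ * ∫ θ in Ioc (0:ℝ) (2 * Real.pi), (1:ℝ) = 1 := by
      have := Real.pi_pos
      rw [setIntegral_const]
      simp [Real.pi_pos.le]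
      field_simp
    rw [h5] at h4
    refine h4.congr (fun t => ?_)
    unfold av
    rw [intervalIntegral.integral_of_le (by positivity)]
  have h4 : ∀ t, av (fun θ =>
      Real.cos (SS (aa m) n (KK m (t + 1)) θ - SS (aa m) n (KK m t) θ).re) ≤
      Real.exp (-(1 / 10)) + (1 / 2) ^ (KK m t) := by
    intro t
    have h5 := stage_cos hc (s := KK m t) (M := 4 ^ (m t)) (ε := (1 / 2) ^ (m t)) (r := t + 1)
      (by positivity) (pow_le_one₀ (by norm_num) (by norm_num)) (aa_stage m t) (4 ^ (m t)) le_rfl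
    rw [← KK_succ] at h5
    have h6 := (abs_le.mp h5).2
    have h7 : (1 - ((1 / 2 : ℝ) ^ m t) ^ 2 / 10) ^ (4 ^ m t) ≤ Real.exp (-(1 / 10)) := by
      have h8 := Real.one_sub_le_exp_neg (((1 / 2 : ℝ) ^ m t) ^ 2 / 10)
      have h9 : 0 ≤ 1 - ((1 / 2 : ℝ) ^ m t) ^ 2 / 10 := by
        have : (1 / 2 : ℝ) ^ m t ≤ 1 := pow_le_one₀ (by norm_num) (by norm_num)
        have : (0:ℝ) ≤ (1 / 2 : ℝ) ^ m t := by positivity
        nlinarith
      have h10 := pow_le_pow_left₀ h9 h8 (4 ^ m t)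
      rw [← Real.exp_nat_mul] at h10
      have h11 : ((4 ^ m t : ℕ) : ℝ) * -(((1 / 2 : ℝ) ^ m t) ^ 2 / 10) = -(1 / 10) := by
        push_cast
        have := four_pow_mul (m t)
        linear_combination (-1 / 10) * this
      rw [h11] at h10
      exact h10
    have h12 : (0:ℝ) < (1 / 2) ^ KK m (t + 1) := by positivity
    linarith
  have h5 : Tendsto (fun t => Real.exp (-(1 / 10)) + (1 / 2 : ℝ) ^ (KK m t)) atTop
      (𝓝 (Real.exp (-(1 / 10)) + 0)) :=
    tendsto_const_nhds.add ((tendsto_pow_atTop_nhds_zero_of_lt_one (by norm_num : (0:ℝ) ≤ 1 / 2)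
      (by norm_num)).comp hK)
  have h6 := le_of_tendsto_of_tendsto' h3 h5 h4
  rw [add_zero] at h6
  have h7 : Real.exp (-(1 / 10)) < 1 := by
    rw [Real.exp_lt_one_iff]; norm_num
  linarith

end main

/-! ### Choice of the parameters -/

lemma exists_m : ∃ m : ℕ → ℕ, (∀ t, t + 3 ≤ m t) ∧
    ∀ t : ℕ, bnd (t + 1) (t + 2) ≤ (1 / 2) ^ t * -Real.log (4 * (1 / 2) ^ (m t)) := by
  have h : ∀ t : ℕ, ∃ j : ℕ, t + 3 ≤ j ∧
      bnd (t + 1) (t + 2) ≤ (1 / 2) ^ t * -Real.log (4 * (1 / 2) ^ j) := by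
    intro t
    have hl : 0 < Real.log 2 := Real.log_pos (by norm_num)
    obtain ⟨j0, hj0⟩ := exists_nat_ge ((bnd (t + 1) (t + 2) * 2 ^ t + Real.log 4) / Real.log 2)
    refine ⟨max j0 (t + 3), le_max_right _ _, ?_⟩
    have hj1 : (j0 : ℝ) ≤ (max j0 (t + 3) : ℕ) := by exact_mod_cast le_max_left _ _
    set j := max j0 (t + 3)
    have h1 : Real.log (4 * (1 / 2) ^ j) = Real.log 4 - j * Real.log 2 := by
      rw [Real.log_mul (by norm_num) (by positivity), Real.log_pow, one_div, Real.log_inv]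
      ring
    rw [h1]
    have h2 : bnd (t + 1) (t + 2) * 2 ^ t + Real.log 4 ≤ j * Real.log 2 := by
      rw [div_le_iff₀ hl] at hj0
      have := mul_le_mul_of_nonneg_right hj1 hl.le
      linarith
    have h3 : bnd (t + 1) (t + 2) = (1 / 2) ^ t * (bnd (t + 1) (t + 2) * 2 ^ t) := by
      have : (1 / 2 : ℝ) ^ t * 2 ^ t = 1 := by rw [← mul_pow]; norm_num
      linear_combination (-bnd (t + 1) (t + 2)) * this
    rw [h3]
    apply mul_le_mul_of_nonneg_left _ (by positivity)
    linarith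
  choose m hm using h
  exact ⟨m, fun t => (hm t).1, fun t => (hm t).2⟩

/-- the level constants -/
noncomputable def LL (a : ℕ → ℝ) (k : ℕ) : ℝ := k * (k + 1) / a k

/-- the growth factors -/
noncomputable def GG (a : ℕ → ℝ) (k : ℕ) : ℝ := 2 + 2 * LL a k * (k / a (k - 1))

/-! ### Geometry -/

section geom

variable {a : ℕ → ℝ} {n : ℕ → ℕ}

lemma norm_pow_sub_pow_le' {z P : ℂ} (hz : ‖z‖ ≤ 1) (hP : ‖P‖ ≤ 1) (N : ℕ) :
    ‖z ^ N - P ^ N‖ ≤ N * ‖z - P‖ := by
  induction N with
  | zero => simp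
  | succ N ih =>
    have h1 : z ^ (N + 1) - P ^ (N + 1) = z * (z ^ N - P ^ N) + (z - P) * P ^ N := by ring
    rw [h1]
    calc ‖z * (z ^ N - P ^ N) + (z - P) * P ^ N‖
        ≤ ‖z * (z ^ N - P ^ N)‖ + ‖(z - P) * P ^ N‖ := norm_add_le _ _
      _ ≤ 1 * (N * ‖z - P‖) + ‖z - P‖ * 1 := by
          rw [norm_mul, norm_mul, norm_pow]
          gcongr
          exact pow_le_one₀ (norm_nonneg _) hP
      _ = _ := by push_cast; ring

lemma pow_le_inv_mul {r : ℝ} (hr0 : 0 < r) (hr1 : r ≤ 1) {N : ℕ} (hN : 0 < N) :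
    (1 - r) ^ N ≤ 1 / (N * r) := by
  have h1 : (1 - r) ^ N ≤ (Real.exp (-r)) ^ N :=
    pow_le_pow_left₀ (by linarith) (Real.one_sub_le_exp_neg r) N
  rw [← Real.exp_nat_mul] at h1
  have hNr : 0 < (N:ℝ) * r := by positivity
  have h2 : (N:ℝ) * r ≤ Real.exp (N * r) := by
    have := Real.add_one_le_exp ((N:ℝ) * r)
    linarith
  calc (1 - r) ^ N ≤ Real.exp (N * -r) := h1
    _ = 1 / Real.exp (N * r) := by
        rw [mul_neg, Real.exp_neg, one_div]
    _ ≤ _ := one_div_le_one_div_of_le hNr h2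

lemma SS_eq_sum (k : ℕ) (θ : ℝ) :
    SS a n k θ = ∑ j ∈ Finset.range k, (a j : ℂ) * (Complex.exp (θ * Complex.I)) ^ (n j) := by
  induction k with
  | zero => simp [SS]
  | succ k ih =>
    rw [SS_succ, Finset.sum_range_succ, ← ih]
    unfold circleMap
    rw [← Complex.exp_nat_mul]
    congr 3
    push_cast
    ring

/-- the function -/
noncomputable def ff (a : ℕ → ℝ) (n : ℕ → ℕ) (z : ℂ) : ℂ := ∑' k, (a k : ℂ) * z ^ (n k)

variable (ha : ∀ k, 0 < a k) (ha1 : ∀ k, a k ≤ 1) (hpos : ∀ k, 1 ≤ n k)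
  (hgr : ∀ k, ∀ j < k, GG a k * n j ≤ n k)

include ha in
lemma LL_nonneg (k : ℕ) : 0 ≤ LL a k := by
  unfold LL
  have := ha k
  positivity

include ha ha1 in
lemma one_le_LL {k : ℕ} (hk : 1 ≤ k) : 1 ≤ LL a k := by
  unfold LL
  have h1 := ha k
  have h2 := ha1 k
  rw [le_div_iff₀ h1]
  have hk' : (1:ℝ) ≤ k := by exact_mod_cast hk
  nlinarith

include ha in
lemma two_le_GG (k : ℕ) : 2 ≤ GG a k := by
  unfold GG
  have h1 := LL_nonneg ha k
  have h2 := ha (k - 1)
  have : 0 ≤ 2 * LL a k * (k / a (k - 1)) := by positivity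
  linarith

include ha hpos hgr in
lemma strictMono_n : StrictMono n := by
  apply strictMono_nat_of_lt_succ
  intro k
  have h1 := hgr (k + 1) k (Nat.lt_succ_self k)
  have h2 := two_le_GG ha (k + 1)
  have h3 : (1:ℝ) ≤ n k := by exact_mod_cast hpos k
  have h4 : (n k : ℝ) < n (k + 1) := by nlinarith
  exact_mod_cast h4

include ha hgr in
lemma growth_iter (k i : ℕ) : (2:ℝ) ^ i * (GG a (k + 1) * n k) ≤ n (k + 1 + i) := by
  induction i with
  | zero => simpa using hgr (k + 1) k (Nat.lt_succ_self k)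
  | succ i ih =>
    have h1 := hgr (k + 1 + (i + 1)) (k + 1 + i) (by omega)
    have h2 := two_le_GG ha (k + 1 + (i + 1))
    have h3 : (0:ℝ) ≤ n (k + 1 + i) := Nat.cast_nonneg _
    calc (2:ℝ) ^ (i + 1) * (GG a (k + 1) * n k) = 2 * ((2:ℝ) ^ i * (GG a (k + 1) * n k)) := by ring
      _ ≤ 2 * n (k + 1 + i) := by linarith
      _ ≤ GG a (k + 1 + (i + 1)) * n (k + 1 + i) := mul_le_mul_of_nonneg_right h2 h3
      _ ≤ _ := h1

include ha ha1 hpos hgr in
lemma summable_ff {z : ℂ} (hz : ‖z‖ < 1) : Summable (fun k => (a k : ℂ) * z ^ (n k)) := by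
  have hs := strictMono_n ha hpos hgr
  apply Summable.of_norm_bounded (g := fun k => ‖z‖ ^ k)
    (summable_geometric_of_lt_one (norm_nonneg _) hz)
  intro k
  rw [norm_mul, norm_pow, Complex.norm_real, Real.norm_eq_abs, abs_of_pos (ha k)]
  calc a k * ‖z‖ ^ n k ≤ 1 * ‖z‖ ^ k :=
        mul_le_mul (ha1 k) (pow_le_pow_of_le_one (norm_nonneg _) hz.le (hs.le_apply))
          (by positivity) zero_le_one
    _ = _ := one_mul _

include ha ha1 hpos hgr in
lemma ff_sub_le {C θ : ℝ} (hC : 0 ≤ C) {z : ℂ} (hz : ‖z‖ < 1)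
    (hzP : ‖z - Complex.exp (θ * Complex.I)‖ ≤ C * (1 - ‖z‖)) {k : ℕ}
    (hA : n k * LL a (k + 1) * (1 - ‖z‖) ≤ 1)
    (hB : 1 < n (k + 1) * LL a (k + 2) * (1 - ‖z‖)) :
    ‖ff a n z - SS a n (k + 1) θ‖ ≤ a (k + 1) + (C + 1) * (a (k + 1) / (k + 2)) := by
  set P := Complex.exp (θ * Complex.I) with hP
  have hPn : ‖P‖ = 1 := Complex.norm_exp_ofReal_mul_I θ
  have hs := strictMono_n ha hpos hgr
  have hr : 0 < 1 - ‖z‖ := by linarith
  have hsum := summable_ff ha ha1 hpos hgr hz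
  have hterm : ∀ j, ‖(a j : ℂ) * z ^ (n j)‖ = a j * ‖z‖ ^ (n j) := by
    intro j
    rw [norm_mul, norm_pow, Complex.norm_real, Real.norm_eq_abs, abs_of_pos (ha j)]
  have e1 : ff a n z = ∑ j ∈ Finset.range (k + 1), (a j : ℂ) * z ^ (n j) +
      ((a (k + 1) : ℂ) * z ^ (n (k + 1)) +
        ∑' i, (a (k + 2 + i) : ℂ) * z ^ (n (k + 2 + i))) := by
    unfold ff
    rw [← hsum.sum_add_tsum_nat_add (k + 2), Finset.sum_range_succ, add_assoc]
    congr 2
    apply tsum_congr
    intro i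
    rw [add_comm i]
  rw [e1, SS_eq_sum]
  have e2 : ∑ j ∈ Finset.range (k + 1), (a j : ℂ) * z ^ (n j) +
      ((a (k + 1) : ℂ) * z ^ (n (k + 1)) + ∑' i, (a (k + 2 + i) : ℂ) * z ^ (n (k + 2 + i))) -
      ∑ j ∈ Finset.range (k + 1), (a j : ℂ) * P ^ (n j) =
      ∑ j ∈ Finset.range (k + 1), (a j : ℂ) * (z ^ (n j) - P ^ (n j)) +
      (a (k + 1) : ℂ) * z ^ (n (k + 1)) + ∑' i, (a (k + 2 + i) : ℂ) * z ^ (n (k + 2 + i)) := by
    simp only [mul_sub, Finset.sum_sub_distrib]
    ring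
  rw [e2]
  have b1 : ‖∑ j ∈ Finset.range (k + 1), (a j : ℂ) * (z ^ (n j) - P ^ (n j))‖ ≤
      C * (a (k + 1) / (k + 2)) := by
    have c1 : ∀ j ∈ Finset.range (k + 1), ‖(a j : ℂ) * (z ^ (n j) - P ^ (n j))‖ ≤
        n k * (C * (1 - ‖z‖)) := by
      intro j hj
      rw [Finset.mem_range] at hj
      rw [norm_mul, Complex.norm_real, Real.norm_eq_abs, abs_of_pos (ha j)]
      have c2 := norm_pow_sub_pow_le' hz.le hPn.le (n j)
      have c3 : (n j : ℝ) ≤ n k := by exact_mod_cast hs.monotone (by omega)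
      calc a j * ‖z ^ n j - P ^ n j‖ ≤ 1 * (n j * ‖z - P‖) :=
            mul_le_mul (ha1 j) c2 (norm_nonneg _) zero_le_one
        _ ≤ n k * (C * (1 - ‖z‖)) := by
            rw [one_mul]
            exact mul_le_mul c3 hzP (norm_nonneg _) (Nat.cast_nonneg _)
    calc _ ≤ ∑ j ∈ Finset.range (k + 1), ‖(a j : ℂ) * (z ^ (n j) - P ^ (n j))‖ := norm_sum_le _ _
      _ ≤ ∑ j ∈ Finset.range (k + 1), n k * (C * (1 - ‖z‖)) := Finset.sum_le_sum c1
      _ = C * (a (k + 1) / (k + 2)) * (n k * LL a (k + 1) * (1 - ‖z‖)) := by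
          rw [Finset.sum_const, Finset.card_range, nsmul_eq_mul]
          unfold LL
          have := ha (k + 1)
          push_cast
          field_simp
          ring
      _ ≤ C * (a (k + 1) / (k + 2)) * 1 := by
          apply mul_le_mul_of_nonneg_left hA
          have := ha (k + 1)
          positivity
      _ = _ := mul_one _
  have b2 : ‖(a (k + 1) : ℂ) * z ^ (n (k + 1))‖ ≤ a (k + 1) := by
    rw [hterm]
    have := pow_le_one₀ (norm_nonneg z) hz.le (n := n (k + 1))
    have := ha (k + 1)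
    nlinarith
  have b3 : ‖∑' i, (a (k + 2 + i) : ℂ) * z ^ (n (k + 2 + i))‖ ≤ a (k + 1) / (k + 2) := by
    have c0 : HasSum (fun i : ℕ => (a (k + 1) / (k + 2)) * ((1 / 2 : ℝ) ^ (i + 1)))
        (a (k + 1) / (k + 2)) := by
      have c1 := (hasSum_geometric_two).mul_left ((a (k + 1) / (k + 2)) * (1 / 2))
      have c2 : (a (k + 1) / (k + 2)) * (1 / 2) * 2 = a (k + 1) / (k + 2) := by ring
      rw [c2] at c1
      have c3 : (fun i : ℕ => (a (k + 1) / (k + 2)) * ((1 / 2 : ℝ) ^ (i + 1))) =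
          fun i : ℕ => (a (k + 1) / (k + 2)) * (1 / 2) * (1 / 2) ^ i := by
        ext i; ring
      rw [c3]
      exact c1
    apply tsum_of_norm_bounded c0
    intro i
    rw [hterm]
    have c1 := growth_iter ha hgr (k + 1) i
    have hn : 0 < n (k + 2 + i) := hpos _
    have c2 : ‖z‖ ^ n (k + 2 + i) ≤ 1 / (n (k + 2 + i) * (1 - ‖z‖)) := by
      have := pow_le_inv_mul hr (by linarith [norm_nonneg z]) hn
      simpa using this
    have c3 : 2 ^ (i + 1) * ((k + 2) / a (k + 1)) ≤ n (k + 2 + i) * (1 - ‖z‖) := by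
      have c4 : GG a (k + 1 + 1) = 2 + 2 * LL a (k + 2) * ((k + 2) / a (k + 1)) := by
        unfold GG
        push_cast
        rw [show k + 1 + 1 = k + 2 by omega, show (k:ℝ) + 1 + 1 = k + 2 by ring]
      have d1 := ha (k + 1)
      have d2 := LL_nonneg ha (k + 2)
      calc 2 ^ (i + 1) * ((k + 2) / a (k + 1))
          ≤ 2 ^ (i + 1) * ((k + 2) / a (k + 1)) * (n (k + 1) * LL a (k + 2) * (1 - ‖z‖)) := by
            have : (0:ℝ) ≤ 2 ^ (i + 1) * ((k + 2) / a (k + 1)) := by positivity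
            nlinarith
        _ = 2 ^ i * ((2 * LL a (k + 2) * ((k + 2) / a (k + 1))) * n (k + 1)) * (1 - ‖z‖) := by
            ring
        _ ≤ 2 ^ i * (GG a (k + 1 + 1) * n (k + 1)) * (1 - ‖z‖) := by
            rw [c4]
            gcongr
            linarith
        _ ≤ n (k + 2 + i) * (1 - ‖z‖) := by
            apply mul_le_mul_of_nonneg_right _ hr.le
            exact c1
    have d1 := ha (k + 1)
    calc a (k + 2 + i) * ‖z‖ ^ n (k + 2 + i) ≤ 1 * (1 / (n (k + 2 + i) * (1 - ‖z‖))) :=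
          mul_le_mul (ha1 _) c2 (by positivity) zero_le_one
      _ ≤ 1 / (2 ^ (i + 1) * ((k + 2) / a (k + 1))) := by
          rw [one_mul]
          apply one_div_le_one_div_of_le (by positivity) c3
      _ = _ := by
          rw [one_div, mul_inv, inv_div, one_div, inv_pow]
          ring
  calc _ ≤ ‖∑ j ∈ Finset.range (k + 1), (a j : ℂ) * (z ^ (n j) - P ^ (n j))‖ +
      ‖(a (k + 1) : ℂ) * z ^ (n (k + 1))‖ +
      ‖∑' i, (a (k + 2 + i) : ℂ) * z ^ (n (k + 2 + i))‖ := norm_add₃_le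
    _ ≤ _ := by linarith

end geom

section geom2

variable {a : ℕ → ℝ} {n : ℕ → ℕ} (ha : ∀ k, 0 < a k) (ha1 : ∀ k, a k ≤ 1) (hpos : ∀ k, 1 ≤ n k)
  (hgr : ∀ k, ∀ j < k, GG a k * n j ≤ n k)

include ha ha1 hpos hgr in
lemma exists_level (k0 : ℕ) : ∃ r0 > 0, ∀ r : ℝ, 0 < r → r < r0 → ∃ k ≥ k0,
    n k * LL a (k + 1) * r ≤ 1 ∧ 1 < n (k + 1) * LL a (k + 2) * r := by
  classical
  set D : ℕ → ℝ := fun k => n k * LL a (k + 1) with hD
  have hs := strictMono_n ha hpos hgr
  have hD0 : ∀ k, 0 ≤ D k := fun k => mul_nonneg (Nat.cast_nonneg _) (LL_nonneg ha _)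
  have hDk : ∀ k : ℕ, (k:ℝ) ≤ D k := by
    intro k
    have h1 : (k:ℝ) ≤ n k := by exact_mod_cast hs.le_apply
    have h2 := one_le_LL ha ha1 (k := k + 1) (by omega)
    have h3 : (0:ℝ) ≤ n k := Nat.cast_nonneg _
    show (k:ℝ) ≤ n k * LL a (k + 1)
    nlinarith
  have hS0 : 0 ≤ ∑ j ∈ Finset.range (k0 + 1), D j := Finset.sum_nonneg (fun j _ => hD0 j)
  refine ⟨1 / (1 + ∑ j ∈ Finset.range (k0 + 1), D j), by positivity, fun r hr0 hr => ?_⟩
  have hex : ∃ k, 1 < D k * r := by
    obtain ⟨k, hk⟩ := exists_nat_gt (1 / r)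
    refine ⟨k, ?_⟩
    rw [div_lt_iff₀ hr0] at hk
    exact hk.trans_le (mul_le_mul_of_nonneg_right (hDk k) hr0.le)
  have hfind := Nat.find_spec hex
  have hgt : k0 < Nat.find hex := by
    rw [Nat.lt_find_iff]
    intro j hj hlt
    have h1 : D j ≤ ∑ j ∈ Finset.range (k0 + 1), D j :=
      Finset.single_le_sum (fun j _ => hD0 j) (Finset.mem_range.mpr (by omega))
    rw [lt_div_iff₀ (by positivity)] at hr
    have h2 : D j * r ≤ (∑ j ∈ Finset.range (k0 + 1), D j) * r :=
      mul_le_mul_of_nonneg_right h1 hr0.le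
    nlinarith
  refine ⟨Nat.find hex - 1, by omega, ?_, ?_⟩
  · have := Nat.find_min hex (m := Nat.find hex - 1) (by omega)
    exact not_lt.mp this
  · have e : Nat.find hex - 1 + 1 = Nat.find hex := by omega
    have : 1 < D (Nat.find hex - 1 + 1) * r := by rw [e]; exact hfind
    exact this

include ha ha1 hpos hgr in
lemma level_close {C : ℝ} (hC : 0 ≤ C) (k0 : ℕ) : ∃ r0 > 0, ∀ (θ : ℝ) (z : ℂ), ‖z‖ < 1 →
    1 - ‖z‖ < r0 → ‖z - Complex.exp (θ * Complex.I)‖ ≤ C * (1 - ‖z‖) →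
    ∃ k ≥ k0, ‖ff a n z - SS a n k θ‖ ≤ 2 * a k := by
  obtain ⟨k1, hk1⟩ := exists_nat_ge C
  obtain ⟨r0, hr0, h⟩ := exists_level ha ha1 hpos hgr (max k0 k1)
  refine ⟨r0, hr0, fun θ z hz hzr hzP => ?_⟩
  obtain ⟨k, hk, hA, hB⟩ := h (1 - ‖z‖) (by linarith) hzr
  refine ⟨k + 1, by omega, ?_⟩
  have h1 := ff_sub_le ha ha1 hpos hgr hC hz hzP hA hB
  have h2 : (k1:ℝ) ≤ k := by exact_mod_cast (le_max_right _ _).trans hk
  have h3 : (C + 1) * (a (k + 1) / (k + 2)) ≤ a (k + 1) := by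
    have h4 := ha (k + 1)
    rw [mul_div_assoc', div_le_iff₀ (by positivity), mul_comm]
    apply mul_le_mul_of_nonneg_left _ h4.le
    linarith
  linarith

end geom2

section geom3

variable {a : ℕ → ℝ} {n : ℕ → ℕ} (ha : ∀ k, 0 < a k) (ha1 : ∀ k, a k ≤ 1) (hpos : ∀ k, 1 ≤ n k)
  (hgr : ∀ k, ∀ j < k, GG a k * n j ≤ n k)

include ha ha1 hpos hgr in
lemma differentiableOn_ff : DifferentiableOn ℂ (ff a n) (ball 0 1) := by
  have hs := strictMono_n ha hpos hgr
  intro z hz
  rw [mem_ball_zero_iff] at hz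
  obtain ⟨ρ, hρ1, hρ2⟩ := exists_between hz
  have h1 : DifferentiableOn ℂ (ff a n) (ball 0 ρ) := by
    unfold ff
    apply Complex.differentiableOn_tsum_of_summable_norm
      (summable_geometric_of_lt_one ((norm_nonneg z).trans hρ1.le) hρ2)
      (fun k => by fun_prop) isOpen_ball
    intro k w hw
    rw [mem_ball_zero_iff] at hw
    rw [norm_mul, norm_pow, Complex.norm_real, Real.norm_eq_abs, abs_of_pos (ha k)]
    calc a k * ‖w‖ ^ n k ≤ 1 * ρ ^ n k :=
          mul_le_mul (ha1 k) (pow_le_pow_left₀ (norm_nonneg _) hw.le _) (by positivity) zero_le_one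
      _ ≤ ρ ^ k := by
          rw [one_mul]
          exact pow_le_pow_of_le_one ((norm_nonneg z).trans hρ1.le) hρ2.le (hs.le_apply)
  exact (h1.differentiableAt (isOpen_ball.mem_nhds (by simpa using hρ1))).differentiableWithinAt

include ha ha1 hpos hgr in
lemma values_subset {θ C δ : ℝ} (hC : 1 < C) {w : ℂ}
    (hw : w ∈ valuesIO (ff a n) (Complex.exp (θ * Complex.I))
      (stolzAngle (Complex.exp (θ * Complex.I)) C δ)) :
    ∃ᶠ k in atTop, ‖SS a n k θ - w‖ ≤ 2 * a k := by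
  rw [frequently_atTop]
  intro k0
  obtain ⟨z, -, hz, hlim⟩ := hw
  obtain ⟨r0, hr0, h⟩ := level_close ha ha1 hpos hgr (C := C) (by linarith) k0
  have h1 : Tendsto (fun i => 1 - ‖z i‖) atTop (𝓝 0) := by
    have := (tendsto_const_nhds (x := (1:ℝ))).sub hlim.norm
    rwa [Complex.norm_exp_ofReal_mul_I, sub_self] at this
  obtain ⟨i, hi⟩ := (h1.eventually_lt_const hr0).exists
  obtain ⟨⟨hz1, hz2, -⟩, hz4⟩ := hz i
  obtain ⟨k, hk, hk2⟩ := h θ (z i) hz1 hi hz2.le
  refine ⟨k, hk, ?_⟩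
  rw [hz4, norm_sub_rev] at hk2
  exact hk2

include ha ha1 hpos hgr in
lemma tendsto_SS_of_limit (hlim : Tendsto a atTop (𝓝 0)) {θ C δ : ℝ} (hC : 1 < C) (hδ : 0 < δ)
    (hL : HasFiniteLimitIn (ff a n) (Complex.exp (θ * Complex.I))
      (stolzAngle (Complex.exp (θ * Complex.I)) C δ)) :
    ∃ L, Tendsto (fun k => SS a n k θ) atTop (𝓝 L) := by
  obtain ⟨L, hL⟩ := hL
  refine ⟨L, ?_⟩
  have hs := strictMono_n ha hpos hgr
  set P := Complex.exp (θ * Complex.I) with hP
  have hPn : ‖P‖ = 1 := Complex.norm_exp_ofReal_mul_I θ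
  set D : ℕ → ℝ := fun k => n k * LL a (k + 1) with hD
  have hn1 : ∀ k, (1:ℝ) ≤ n k := fun k => by exact_mod_cast hpos k
  have hD1 : ∀ k, 1 ≤ D k := by
    intro k
    have h2 := one_le_LL ha ha1 (k := k + 1) (by omega)
    have h3 := hn1 k
    show 1 ≤ n k * LL a (k + 1)
    nlinarith
  have hDk : ∀ k : ℕ, (k:ℝ) ≤ D k := by
    intro k
    have h1 : (k:ℝ) ≤ n k := by exact_mod_cast hs.le_apply
    have h2 := one_le_LL ha ha1 (k := k + 1) (by omega)
    have h3 := hn1 k
    show (k:ℝ) ≤ n k * LL a (k + 1)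
    nlinarith
  have hDD : ∀ k, D k < D (k + 1) := by
    intro k
    have h1 := hgr (k + 1) k (Nat.lt_succ_self k)
    have h2 := one_le_LL ha ha1 (k := k + 1) (by omega)
    have h3 := one_le_LL ha ha1 (k := k + 2) (by omega)
    have h4 := hn1 k
    have h5 : 2 * LL a (k + 1) ≤ GG a (k + 1) := by
      unfold GG
      have h6 : 1 ≤ ((k + 1 : ℕ) : ℝ) / a (k + 1 - 1) := by
        rw [Nat.add_sub_cancel, le_div_iff₀ (ha k)]
        have := ha1 k
        have : (0:ℝ) ≤ k := Nat.cast_nonneg k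
        push_cast
        linarith
      nlinarith
    have h7 : (0:ℝ) ≤ n (k + 1) := Nat.cast_nonneg _
    have h8 : 2 * LL a (k + 1) * n k ≤ n (k + 1) :=
      (mul_le_mul_of_nonneg_right h5 (by linarith)).trans h1
    have h9 : (n (k + 1) : ℝ) ≤ n (k + 1) * LL a (k + 2) := by nlinarith
    show n k * LL a (k + 1) < n (k + 1) * LL a (k + 2)
    nlinarith
  set z : ℕ → ℂ := fun k => ((1 - 1 / D k : ℝ) : ℂ) * P with hz
  have hr1 : ∀ k, 0 < 1 / D k := fun k => by have := hD1 k; positivity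
  have hr2 : ∀ k, 1 / D k ≤ 1 := fun k => by
    have := hD1 k
    rw [div_le_one (by linarith)]; exact this
  have hznorm : ∀ k, ‖z k‖ = 1 - 1 / D k := by
    intro k
    rw [hz]
    simp only
    rw [norm_mul, Complex.norm_real, Real.norm_eq_abs, abs_of_nonneg (by linarith [hr2 k]), hPn,
      mul_one]
  have hzP : ∀ k, ‖z k - P‖ = 1 / D k := by
    intro k
    have : z k - P = ((-(1 / D k) : ℝ) : ℂ) * P := by
      rw [hz]; push_cast; ring
    rw [this, norm_mul, Complex.norm_real, Real.norm_eq_abs, abs_neg, abs_of_pos (hr1 k), hPn,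
      mul_one]
  have hr0 : Tendsto (fun k => 1 / D k) atTop (𝓝 0) := by
    apply Tendsto.const_div_atTop
    exact tendsto_atTop_mono hDk tendsto_natCast_atTop_atTop
  have hzlim : Tendsto z atTop (𝓝[stolzAngle P C δ] P) := by
    rw [tendsto_nhdsWithin_iff]
    constructor
    · rw [tendsto_iff_norm_sub_tendsto_zero]
      simp only [hzP]
      exact hr0
    · filter_upwards [hr0.eventually_lt_const hδ] with k hk
      refine ⟨?_, ?_, ?_⟩
      · rw [hznorm]; linarith [hr1 k]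
      · rw [hznorm, hzP]
        have := hr1 k
        nlinarith
      · rw [hzP]; exact hk
  have h1 := hL.comp hzlim
  have h2 : Tendsto (fun k => ff a n (z k) - SS a n (k + 1) θ) atTop (𝓝 0) := by
    apply squeeze_zero_norm (a := fun k => 3 * a (k + 1))
    · intro k
      have h3 := ff_sub_le ha ha1 hpos hgr (θ := θ) (C := 1) (z := z k) (k := k) zero_le_one
        (by rw [hznorm]; linarith [hr1 k])
        (by rw [← hP, hznorm, hzP]; linarith)
        (by
          rw [hznorm]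
          have := hD1 k
          have : D k * (1 - (1 - 1 / D k)) = 1 := by field_simp; ring
          exact this.le)
        (by
          rw [hznorm]
          have h4 := hD1 k
          have h5 := hDD k
          have h6 : D (k + 1) * (1 - (1 - 1 / D k)) = D (k + 1) / D k := by ring
          have : 1 < D (k + 1) * (1 - (1 - 1 / D k)) := by
            rw [h6, one_lt_div (by linarith)]
            exact h5
          exact this)
      have h4 : a (k + 1) / (k + 2) ≤ a (k + 1) := by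
        apply div_le_self (ha _).le
        have : (0:ℝ) ≤ k := Nat.cast_nonneg k
        linarith
      have h5 := ha (k + 1)
      linarith
    · have := (hlim.comp (tendsto_add_atTop_nat 1)).const_mul 3
      simpa using this
  have h3 : Tendsto (fun k => SS a n (k + 1) θ) atTop (𝓝 L) := by
    have := h1.sub h2
    rw [sub_zero] at this
    refine this.congr (fun k => ?_)
    simp
  exact (tendsto_add_atTop_iff_nat 1).mp h3

end geom3

theorem plessner_main : ∃ f : ℂ → ℂ, DifferentiableOn ℂ f (ball 0 1) ∧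
    ∃ E : Set ℝ, E ⊆ Ioc 0 (2 * Real.pi) ∧ MeasurableSet E ∧ 0 < volume E ∧
      ∀ θ ∈ E, ∀ C > 1, ∀ δ > 0,
        ¬ HasFiniteLimitIn f (Complex.exp (θ * Complex.I))
            (stolzAngle (Complex.exp (θ * Complex.I)) C δ) ∧
        volume (valuesIO f (Complex.exp (θ * Complex.I))
          (stolzAngle (Complex.exp (θ * Complex.I)) C δ)) = 0 := by
  obtain ⟨m, hm3, hm⟩ := exists_m
  have hm' : ∀ t, t ≤ m t := fun t => by have := hm3 t; omega
  obtain ⟨n, hc⟩ := exists_seq (fun k n N => Cond (aa m) (bb m) (RR m) (GG (aa m)) k n N)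
    (fun k n n' N h hc => hc.congr (bb_le m) h)
    (fun k n => exists_Cond (aa_pos m) (aa_le_one m) (bb m) (bb_le m) (RR m) (GG (aa m)) k n)
  have hpos : ∀ k, 1 ≤ n k := fun k => (hc k).pos
  have hgr : ∀ k, ∀ j < k, GG (aa m) k * n j ≤ n k := fun k => (hc k).growth
  have h1 := main_ae hm3 hm hc
  have h2 := not_ae_conv hc
  refine ⟨ff (aa m) n, differentiableOn_ff (aa_pos m) (aa_le_one m) hpos hgr, ?_⟩
  set μ := volume.restrict (Ioc (0:ℝ) (2 * Real.pi)) with hμ
  set D : Set ℝ := {θ | ∃ L, Tendsto (fun k => SS (aa m) n k θ) atTop (𝓝 L)} with hD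
  have hDm : MeasurableSet D :=
    measurableSet_exists_tendsto (fun k => (continuous_SS (aa m) n k).measurable)
  set T := toMeasurable μ {θ | ¬ ∀ᵐ w : ℂ, ∀ᶠ k in atTop, 2 * aa m k < ‖SS (aa m) n k θ - w‖}
    with hT
  have hT0 : μ T = 0 := by
    rw [hT, measure_toMeasurable]
    exact h1
  refine ⟨Ioc 0 (2 * Real.pi) ∩ (Dᶜ \ T), inter_subset_left,
    measurableSet_Ioc.inter (hDm.compl.diff (measurableSet_toMeasurable _ _)), ?_, ?_⟩
  · rw [pos_iff_ne_zero]
    intro h3
    apply h2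
    rw [ae_iff]
    have h4 : μ (Dᶜ \ T) = 0 := by
      rw [hμ, Measure.restrict_apply (hDm.compl.diff (measurableSet_toMeasurable _ _)), inter_comm]
      exact h3
    have h5 : μ Dᶜ ≤ μ (Dᶜ \ T) + μ T := by
      calc μ Dᶜ ≤ μ ((Dᶜ \ T) ∪ T) := measure_mono (by
            intro x hx
            by_cases hxT : x ∈ T
            · exact Or.inr hxT
            · exact Or.inl ⟨hx, hxT⟩)
        _ ≤ _ := measure_union_le _ _
    rw [h4, hT0, add_zero] at h5
    exact le_antisymm h5 zero_le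
  · rintro θ ⟨-, hθD, hθT⟩ C hC δ hδ
    constructor
    · intro hlim
      exact hθD (tendsto_SS_of_limit (aa_pos m) (aa_le_one m) hpos hgr (aa_tendsto m hm') hC hδ hlim)
    · have h3 : ∀ᵐ w : ℂ, ∀ᶠ k in atTop, 2 * aa m k < ‖SS (aa m) n k θ - w‖ := by
        by_contra h4
        exact hθT (subset_toMeasurable _ _ h4)
      rw [ae_iff] at h3
      refine measure_mono_null ?_ h3
      intro w hw h4
      have h5 := values_subset (aa_pos m) (aa_le_one m) hpos hgr hC hw
      obtain ⟨k, hk1, hk2⟩ := (h5.and_eventually h4).exists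
      linarith

end Pool.Agent.Helper311.Plessner
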