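import Mathlib
import Pool.Agent.Helper311.PlessnerDefs
import Pool.Agent.Helper311.PlessnerProof

open Set Filter Topology Metric MeasureTheory
open scoped ENNReal

namespace Pool.Agent.Helper311.Plessner

lemma iInter_subset_valuesIO {f : ℂ → ℂ} {P : ℂ} (hP : ‖P‖ = 1) {C : ℝ} :
    ⋂ j : ℕ, f '' stolzAngle P C (1 / (j + 1)) ⊆ valuesIO f P (stolzAngle P C 1) := by
  intro w hw
  rw [mem_iInter] at hw
  choose z hz hfz using hw
  have hne : ∀ j, 0 < ‖z j - P‖ := by
    intro j
    rw [norm_pos_iff, sub_ne_zero]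
    intro h
    have := (hz j).1
    rw [h, hP] at this
    exact lt_irrefl _ this
  have hlim : Tendsto (fun j => ‖z j - P‖) atTop (𝓝 0) := by
    apply squeeze_zero (fun j => norm_nonneg _) (fun j => (hz j).2.2.le)
    exact tendsto_one_div_add_atTop_nhds_zero_nat
  have hinv : Tendsto (fun j => (‖z j - P‖)⁻¹) atTop atTop := by
    apply tendsto_inv_nhdsGT_zero.comp
    rw [tendsto_nhdsWithin_iff]
    exact ⟨hlim, Eventually.of_forall hne⟩
  obtain ⟨φ, hφ, hφ2⟩ := strictMono_subseq_of_tendsto_atTop hinv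
  refine ⟨z ∘ φ, ?_, ?_, ?_⟩
  · intro i j hij
    apply hφ2.injective
    simp only [Function.comp] at hij ⊢
    rw [hij]
  · intro k
    refine ⟨⟨(hz (φ k)).1, (hz (φ k)).2.1, ?_⟩, hfz (φ k)⟩
    refine (hz (φ k)).2.2.trans_le ?_
    rw [div_le_one (by positivity)]
    have : (0:ℝ) ≤ φ k := Nat.cast_nonneg _
    linarith
  · exact (tendsto_iff_norm_sub_tendsto_zero.mpr hlim).comp hφ.tendsto_atTop

lemma isOpen_stolzAngle (P : ℂ) (C δ : ℝ) : IsOpen (stolzAngle P C δ) := by
  have : stolzAngle P C δ = {z | ‖z‖ < 1} ∩ ({z | ‖z - P‖ < C * (1 - ‖z‖)} ∩ {z | ‖z - P‖ < δ}) := by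
    ext z; rfl
  rw [this]
  exact (isOpen_lt (by fun_prop) (by fun_prop)).inter
    ((isOpen_lt (by fun_prop) (by fun_prop)).inter (isOpen_lt (by fun_prop) (by fun_prop)))

/-- The positive part of the logarithmic kernel `log (1 / |z - w|)`, with value `∞` on the
diagonal. -/
noncomputable def logKer (z w : ℂ) : ℝ≥0∞ :=
  open Classical in if z = w then ⊤ else ENNReal.ofReal (-Real.log (dist z w))

/-- A set `A ⊆ ℂ` has positive logarithmic capacity: some compact `K ⊆ A` carries a Borel
probability measure of finite logarithmic energy. -/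
def HasPositiveLogCapacity (A : Set ℂ) : Prop :=
  ∃ K : Set ℂ, K ⊆ A ∧ IsCompact K ∧ ∃ μ : Measure ℂ, IsProbabilityMeasure μ ∧ μ Kᶜ = 0 ∧
    ∫⁻ z, ∫⁻ w, logKer z w ∂μ ∂μ < ⊤

lemma lintegral_logKer_le (z : ℂ) : ∫⁻ w, logKer z w ≤ ENNReal.ofReal c0 := by
  have h1 : ∫⁻ w, logKer z w = ∫⁻ w, ENNReal.ofReal (max 0 (-Real.log ‖z - w‖)) := by
    apply lintegral_congr_ae
    have : ∀ᵐ w : ℂ, w ≠ z := by rw [ae_iff]; simp
    filter_upwards [this] with w hw
    unfold logKer
    rw [if_neg (fun h => hw h.symm), dist_eq_norm]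
    rcases le_total 0 (-Real.log ‖z - w‖) with h | h
    · rw [max_eq_right h]
    · rw [max_eq_left h, ENNReal.ofReal_of_nonpos h, ENNReal.ofReal_zero]
  have h2 : Integrable (fun w : ℂ => max 0 (-Real.log ‖z - w‖)) := integrable_g0.comp_sub_left z
  rw [h1, ← ofReal_integral_eq_lintegral_ofReal h2 (ae_of_all _ (fun w => le_max_left _ _))]
  apply le_of_eq
  congr 1
  exact integral_sub_left_eq_self (fun w : ℂ => max 0 (-Real.log ‖w‖)) volume z

/-- a compact set of positive area has positive capacity -/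
lemma hasPositiveLogCapacity_of_volume {A K : Set ℂ} (hKA : K ⊆ A) (hK : IsCompact K)
    (hpos : 0 < volume K) : HasPositiveLogCapacity A := by
  have hfin : volume K ≠ ⊤ := hK.measure_lt_top.ne
  refine ⟨K, hKA, hK, (volume K)⁻¹ • volume.restrict K, ⟨?_⟩, ?_, ?_⟩
  · rw [Measure.smul_apply, Measure.restrict_apply_univ, smul_eq_mul]
    exact ENNReal.inv_mul_cancel hpos.ne' hfin
  · rw [Measure.smul_apply, Measure.restrict_apply hK.measurableSet.compl]
    simp
  · have h1 : ∀ z, ∫⁻ w, logKer z w ∂((volume K)⁻¹ • volume.restrict K) ≤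
        (volume K)⁻¹ * ENNReal.ofReal c0 := by
      intro z
      rw [lintegral_smul_measure, smul_eq_mul]
      gcongr
      exact (setLIntegral_le_lintegral _ _).trans (lintegral_logKer_le z)
    calc _ ≤ ∫⁻ _ : ℂ, (volume K)⁻¹ * ENNReal.ofReal c0 ∂((volume K)⁻¹ • volume.restrict K) :=
          lintegral_mono h1
      _ = (volume K)⁻¹ * ENNReal.ofReal c0 * ((volume K)⁻¹ * volume K) := by
          rw [lintegral_const, Measure.smul_apply, Measure.restrict_apply_univ, smul_eq_mul]
      _ < ⊤ := by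
          rw [ENNReal.inv_mul_cancel hpos.ne' hfin, mul_one]
          exact ENNReal.mul_lt_top (ENNReal.inv_lt_top.mpr hpos) ENNReal.ofReal_lt_top

/-- if the values taken infinitely often form a null set, the image of a small Stolz angle omits
a compact set of positive area -/
lemma exists_compact_omitted {f : ℂ → ℂ} (hf : DifferentiableOn ℂ f (ball 0 1)) {P : ℂ}
    (hP : ‖P‖ = 1) {C : ℝ} (hC : 1 < C)
    (hnl : ¬ HasFiniteLimitIn f P (stolzAngle P C 1))
    (hV : volume (valuesIO f P (stolzAngle P C 1)) = 0) :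
    ∃ δ > 0, ∃ K : Set ℂ, K ⊆ (f '' stolzAngle P C δ)ᶜ ∧ IsCompact K ∧ 0 < volume K := by
  have hsub : ∀ δ, stolzAngle P C δ ⊆ ball 0 1 := by
    intro δ z hz
    rw [mem_ball_zero_iff]
    exact hz.1
  have hopen : ∀ δ, IsOpen (f '' stolzAngle P C δ) := by
    intro δ
    have han : AnalyticOnNhd ℂ f (ball 0 1) := hf.analyticOnNhd isOpen_ball
    rcases han.is_constant_or_isOpen (convex_ball (0:ℂ) 1).isPreconnected with ⟨c, hc⟩ | h
    · exfalso
      apply hnl
      refine ⟨c, ?_⟩
      apply tendsto_const_nhds.congr'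
      filter_upwards [self_mem_nhdsWithin] with z hz
      exact (hc z (hsub _ hz)).symm
    · exact h _ (hsub δ) (isOpen_stolzAngle P C δ)
  have hanti : Antitone (fun j : ℕ => closedBall (0:ℂ) 1 ∩ f '' stolzAngle P C (1 / (j + 1))) := by
    intro i j hij
    apply inter_subset_inter_right
    apply image_mono
    intro z hz
    refine ⟨hz.1, hz.2.1, hz.2.2.trans_le ?_⟩
    apply one_div_le_one_div_of_le (by positivity)
    have : (i:ℝ) ≤ j := by exact_mod_cast hij
    linarith
  have hlim := tendsto_measure_iInter_atTop (μ := (volume : Measure ℂ))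
    (s := fun j : ℕ => closedBall (0:ℂ) 1 ∩ f '' stolzAngle P C (1 / (j + 1)))
    (fun j => (measurableSet_closedBall.inter (hopen _).measurableSet).nullMeasurableSet) hanti
    ⟨0, ((measure_mono inter_subset_left).trans_lt
      (isCompact_closedBall (0:ℂ) 1).measure_lt_top).ne⟩
  have h0 : volume (⋂ j : ℕ, closedBall (0:ℂ) 1 ∩ f '' stolzAngle P C (1 / (j + 1))) = 0 := by
    refine measure_mono_null ?_ hV
    refine Subset.trans ?_ (iInter_subset_valuesIO hP)
    exact iInter_mono (fun j => inter_subset_right)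
  rw [h0] at hlim
  have hB : 0 < volume (closedBall (0:ℂ) 1) := by
    have := measure_ball_pos (volume : Measure ℂ) (0:ℂ) one_pos
    exact this.trans_le (measure_mono ball_subset_closedBall)
  obtain ⟨j, hj⟩ := (hlim.eventually_lt_const hB).exists
  refine ⟨1 / (j + 1), by positivity, closedBall 0 1 \ f '' stolzAngle P C (1 / (j + 1)), ?_, ?_, ?_⟩
  · exact fun w hw => hw.2
  · exact (isCompact_closedBall (0:ℂ) 1).diff (hopen _)
  · rw [pos_iff_ne_zero]
    intro h
    have h2 : volume (closedBall (0:ℂ) 1) ≤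
        volume (closedBall (0:ℂ) 1 ∩ f '' stolzAngle P C (1 / (j + 1))) +
        volume (closedBall (0:ℂ) 1 \ f '' stolzAngle P C (1 / (j + 1))) := by
      rw [measure_inter_add_sdiff _ (hopen _).measurableSet]
    rw [h, add_zero] at h2
    exact absurd hj (not_lt.mpr h2)

end Pool.Agent.Helper311.Plessner
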